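import Pool.Agent.H25JM.Pol
import Pool.Agent.K13.TP.Lim

/-!
# Approximation of the symbols by polynomials
-/

set_option autoImplicit false
set_option linter.unusedSectionVars false
open MeasureTheory Filter Topology
open scoped Real

namespace Pool.Agent.H25JM

open Pool.Agent.K13.TP

noncomputable section

/-- the polynomial `k² (1 - x²)² (x + k) (k x + 1)` -/
def DD (k x : ℝ) : ℝ := k ^ 2 * (1 - x ^ 2) ^ 2 * (x + k) * (k * x + 1)

lemma rr_R (k : ℝ) : @rr ℝ _ (algR k) = k := by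
  show Polynomial.eval k Polynomial.X = k
  simp

lemma PolyId.real {ι : Type} {S : Finset ι} {e : Polynomial A} {b c : ι → Polynomial A}
    (h : PolyId S e b c) (k x y s : ℝ) (h1 : x + y = -(2 * k * s))
    (h2 : x * y = (1 + k ^ 2) * s - 1) :
    ev2 k x e ^ 2 + ev2 k y e ^ 2 +
      2 * ∑ i ∈ S, ev2 k (4 * (k ^ 2 * s)) (b i) * ev2 k (4 * s) (c i) = 2 := by
  let _ := algR k
  have hr := rr_R k
  have := h ℝ x y s (by rw [hr]; exact h1) (by rw [hr]; exact h2)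
  rw [hr] at this
  simp only [← aeval_ev2]
  exact this

lemma ev2_one (k x : ℝ) : ev2 k x 1 = 1 := by simp [ev2]
lemma ev2_sub (k x : ℝ) (F G : Polynomial A) : ev2 k x (F - G) = ev2 k x F - ev2 k x G := by
  simp [ev2]
lemma ev2_four (k x : ℝ) : ev2 k x 4 = 4 := by simp [ev2]

lemma ev2_eP (k x : ℝ) (h : Polynomial ℝ) : ev2 k x (eP h) = 1 + DD k x * h.eval x := by
  unfold eP DD
  simp only [ev2_add, ev2_mul, ev2_pow, ev2_one, ev2_sub, ev2_C, ev2_X, ev2_map]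
  simp

lemma ev2_bP (k x : ℝ) (β : Polynomial ℝ) : ev2 k x (bP β) = x * (4 - x) * β.eval x := by
  unfold bP
  simp only [ev2_mul, ev2_sub, ev2_X, ev2_map, ev2_four]

/-- quotients -/
lemma quo {f D : ℝ → ℝ} {a b : ℝ} (hf : Continuous f) (hD : Continuous D)
    (h : ∀ x ∈ Set.Icc a b, D x = 0 → ∀ᶠ y in 𝓝 x, f y = 0) {η : ℝ} (hη : 0 < η) :
    ∃ p : Polynomial ℝ, ∀ x ∈ Set.Icc a b, |D x * p.eval x - f x| ≤ η * |D x| := by
  have c : ContinuousOn (fun x => f x / D x) (Set.Icc a b) := by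
    intro x hx
    refine ContinuousAt.continuousWithinAt ?_
    by_cases h0 : D x = 0
    · have h1 := h x hx h0
      have h2 : (fun x => f x / D x) =ᶠ[𝓝 x] fun _ => 0 := h1.mono fun y hy => by
        show f y / D y = 0
        rw [hy, zero_div]
      exact (continuousAt_const.congr h2.symm)
    · exact hf.continuousAt.div hD.continuousAt h0
  obtain ⟨p, hp⟩ := exists_polynomial_near_of_continuousOn a b _ c η hη
  refine ⟨p, fun x hx => ?_⟩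
  by_cases h0 : D x = 0
  · have := (h x hx h0).self_of_nhds
    rw [h0, this]; simp
  · have h1 := (hp x hx).le
    have e : D x * p.eval x - f x = (p.eval x - f x / D x) * D x := by
      field_simp
    rw [e, abs_mul]
    exact mul_le_mul_of_nonneg_right h1 (abs_nonneg _)

/-- the mean square over the circle -/
def ms (F : ℝ → ℝ) : ℝ := 1 / (2 * π) * ∫ θ in (0 : ℝ)..(2 * π), F θ ^ 2

lemma ms_cmp {F G : ℝ → ℝ} (hF : Continuous F) (hG : Continuous G) {δ : ℝ}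
    (h : ∀ θ, F θ ^ 2 ≤ G θ ^ 2 + δ) : ms F ≤ ms G + δ := by
  unfold ms
  have h1 : ∫ θ in (0 : ℝ)..(2 * π), F θ ^ 2 ≤ ∫ θ in (0 : ℝ)..(2 * π), (G θ ^ 2 + δ) := by
    refine intervalIntegral.integral_mono_on (by positivity) ((hF.pow 2).intervalIntegrable _ _)
      (((hG.pow 2).add continuous_const).intervalIntegrable _ _) fun θ _ => h θ
  have h0 : ∫ θ in (0 : ℝ)..(2 * π), (G θ ^ 2 + δ) =
      (∫ θ in (0 : ℝ)..(2 * π), G θ ^ 2) + 2 * π * δ := by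
    rw [intervalIntegral.integral_add (f := fun θ => G θ ^ 2)
      ((hG.pow 2).intervalIntegrable _ _)
      (continuous_const.intervalIntegrable _ _), intervalIntegral.integral_const, smul_eq_mul,
      sub_zero]
  rw [h0] at h1
  have h2 : (0 : ℝ) < 1 / (2 * π) := by positivity
  have h3 := mul_le_mul_of_nonneg_left h1 h2.le
  have h4 : 1 / (2 * π) * ((∫ θ in (0 : ℝ)..(2 * π), G θ ^ 2) + 2 * π * δ) =
      1 / (2 * π) * (∫ θ in (0 : ℝ)..(2 * π), G θ ^ 2) + δ := by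
    have := Real.pi_pos
    field_simp
  rw [h4] at h3
  exact h3

lemma ev2_co (k : ℝ) (F : Polynomial A) : Continuous fun x => ev2 k x F :=
  (ev2_cont F).comp (continuous_const.prodMk continuous_id)

lemma gc_ms (F : Polynomial A) (k : ℝ) : gc F k = ms (fun θ => ev2 k (Real.cos θ) F) := rfl
lemma gp_ms (F : Polynomial A) (k : ℝ) : gp F k = ms (fun θ => ev2 k (2 + 2 * Real.cos θ) F) := rfl

lemma sqd {a b u M : ℝ} (h : |a - b| ≤ u) (hb : |b| ≤ M) : |a ^ 2 - b ^ 2| ≤ u * (2 * M + u) := by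
  have e : a ^ 2 - b ^ 2 = (a - b) * (2 * b + (a - b)) := by ring
  rw [e, abs_mul]
  have h1 : |2 * b + (a - b)| ≤ 2 * M + u := by
    refine (abs_add_le _ _).trans ?_
    rw [abs_mul, abs_two]
    linarith
  have u0 : 0 ≤ u := (abs_nonneg _).trans h
  exact mul_le_mul h h1 (abs_nonneg _) u0

lemma cos_mem (θ : ℝ) : Real.cos θ ∈ Set.Icc (-1 : ℝ) 1 :=
  ⟨Real.neg_one_le_cos θ, Real.cos_le_one θ⟩
lemma cos_mem4 (θ : ℝ) : 2 + 2 * Real.cos θ ∈ Set.Icc (0 : ℝ) 4 := by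
  have h1 := Real.neg_one_le_cos θ
  have h2 := Real.cos_le_one θ
  constructor <;> linarith

/-- the points of the curve -/
lemma curve {k s : ℝ} (hk0 : 0 < k) (hk1 : k < 1) (hs0 : 0 ≤ s) (hs1 : s ≤ 1) :
    ∃ x y w : ℝ, 0 ≤ w ∧ w ≤ 1 ∧ x = -(k * s) + w ∧ y = -(k * s) - w ∧
      x + y = -(2 * k * s) ∧ x * y = (1 + k ^ 2) * s - 1 ∧
      x ∈ Set.Icc (-1 : ℝ) 1 ∧ y ∈ Set.Icc (-1 : ℝ) 1 ∧
      1 - x ^ 2 = s * (1 + k ^ 2 + 2 * k * x) ∧ 1 - y ^ 2 = s * (1 + k ^ 2 + 2 * k * y) ∧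
      (x + k) * (k * x + 1) = (1 + k ^ 2 + 2 * k * x) * w ∧
      (y + k) * (k * y + 1) = -((1 + k ^ 2 + 2 * k * y) * w) ∧
      w ^ 2 = (1 - s) * (1 - k ^ 2 * s) := by
  have hks : 0 ≤ 1 - k ^ 2 * s := by nlinarith
  obtain ⟨w, hw⟩ : ∃ w, w = √((1 - s) * (1 - k ^ 2 * s)) := ⟨_, rfl⟩
  have hw2 : w ^ 2 = (1 - s) * (1 - k ^ 2 * s) := by
    rw [hw, Real.sq_sqrt (mul_nonneg (by linarith) hks)]
  have w0 : 0 ≤ w := by rw [hw]; exact Real.sqrt_nonneg _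
  have w1 : w ≤ 1 := by
    have : w ^ 2 ≤ 1 := by
      rw [hw2]
      have : 0 ≤ k ^ 2 * s := by positivity
      nlinarith
    nlinarith
  have hks' : 0 ≤ 1 - k * s := by nlinarith
  have hks'' : 0 ≤ k * s := by positivity
  have wle : w ≤ 1 - k * s := by
    have h : w ^ 2 ≤ (1 - k * s) ^ 2 := by
      rw [hw2]; nlinarith [mul_nonneg hs0 (sq_nonneg (1 - k))]
    exact abs_le_of_sq_le_sq' h hks' |>.2
  refine ⟨-(k * s) + w, -(k * s) - w, w, w0, w1, rfl, rfl, by ring, ?_, ⟨by linarith, by linarith⟩,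
    ⟨by linarith, by linarith⟩, ?_, ?_, ?_, ?_, hw2⟩
  · linear_combination -hw2
  · linear_combination -hw2
  · linear_combination -hw2
  · linear_combination (-k) * hw2
  · linear_combination (-k) * hw2

/-- the targets of the approximation -/
structure Tgt (k : ℝ) (E B C : ℝ → ℝ) : Prop where
  cE : Continuous E
  cB : Continuous B
  cC : Continuous C
  E1 : ∀ x ∈ Set.Icc (-1 : ℝ) 1, DD k x = 0 → ∀ᶠ y in 𝓝 x, E y = 1
  B1 : ∀ x ∈ Set.Icc (0 : ℝ) 4, x * (4 - x) = 0 → ∀ᶠ y in 𝓝 x, B y = 0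
  C1 : ∀ x ∈ Set.Icc (0 : ℝ) 4, x * (4 - x) = 0 → ∀ᶠ y in 𝓝 x, C y = 0
  id : ∀ x y w s, 0 ≤ s → s ≤ 1 → 0 ≤ w → x = -(k * s) + w → y = -(k * s) - w →
    w ^ 2 = (1 - s) * (1 - k ^ 2 * s) → E x ^ 2 + E y ^ 2 + 2 * (B (4 * (k ^ 2 * s)) * C (4 * s)) = 2

lemma DD_le {k x : ℝ} (hk0 : 0 < k) (hk1 : k < 1) (hx : x ∈ Set.Icc (-1 : ℝ) 1) :
    |DD k x| ≤ 4 := by
  obtain ⟨h1, h2⟩ := hx
  unfold DD
  rw [abs_mul, abs_mul, abs_mul, abs_of_nonneg (sq_nonneg k), abs_of_nonneg (sq_nonneg _)]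
  have a1 : k ^ 2 ≤ 1 := by nlinarith
  have a2 : (1 - x ^ 2) ^ 2 ≤ 1 := by
    have : 0 ≤ 1 - x ^ 2 := by nlinarith
    have : 1 - x ^ 2 ≤ 1 := by nlinarith [sq_nonneg x]
    nlinarith
  have a3 : |x + k| ≤ 2 := abs_le.2 ⟨by linarith, by linarith⟩
  have a4 : |k * x + 1| ≤ 2 := abs_le.2 ⟨by nlinarith, by nlinarith⟩
  calc k ^ 2 * (1 - x ^ 2) ^ 2 * |x + k| * |k * x + 1| ≤ 1 * 1 * 2 * 2 := by gcongr
    _ = 4 := by norm_num

lemma DD_curve {k x s w : ℝ} (hk0 : 0 < k) (hk1 : k < 1) (hs0 : 0 ≤ s) (hs1 : s ≤ 1)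
    (hx : x ∈ Set.Icc (-1 : ℝ) 1) (h1 : 1 - x ^ 2 = s * (1 + k ^ 2 + 2 * k * x))
    (h2 : |(x + k) * (k * x + 1)| = |(1 + k ^ 2 + 2 * k * x) * w|) (hw : |w| ≤ 1) :
    |DD k x| ≤ 64 * s := by
  obtain ⟨l1, l2⟩ := hx
  have e : |DD k x| = k ^ 2 * (s * (1 + k ^ 2 + 2 * k * x)) ^ 2 *
      |(1 + k ^ 2 + 2 * k * x) * w| := by
    unfold DD
    rw [h1, mul_assoc _ (x + k), abs_mul, h2, abs_mul, abs_of_nonneg (sq_nonneg k),
      abs_of_nonneg (sq_nonneg (s * _))]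
  obtain ⟨Y, hY⟩ : ∃ Y, Y = 1 + k ^ 2 + 2 * k * x := ⟨_, rfl⟩
  have y0 : 0 ≤ Y := by rw [hY]; nlinarith [sq_nonneg (1 - k)]
  have y1 : Y ≤ 4 := by rw [hY]; nlinarith
  have a1 : k ^ 2 ≤ 1 := by nlinarith
  rw [e, ← hY, abs_mul, abs_of_nonneg y0]
  have a2 : s * s ≤ s := by nlinarith
  calc k ^ 2 * (s * Y) ^ 2 * (Y * |w|) ≤ 1 * (s * 4) ^ 2 * (4 * 1) := by gcongr
    _ = 64 * (s * s) := by ring
    _ ≤ 64 * s := by linarith

lemma cst1 {a1 a2 a3 a4 M s η : ℝ} (hη0 : 0 < η) (hη1 : η ≤ 1) (hs0 : 0 ≤ s) (hs1 : s ≤ 1)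
    (M0 : 0 < M) (v5 : |a1 - a3| ≤ η * (16 * s)) (v6 : |a2 - a4| ≤ η * (16 * s))
    (v7 : |a3| ≤ M) (v8 : |a4| ≤ M) :
    |a1 * a2 - a3 * a4| ≤ s * η * (16 * (M + 16) + 16 * M) := by
  have e : a1 * a2 - a3 * a4 = (a1 - a3) * (a4 + (a2 - a4)) + a3 * (a2 - a4) := by ring
  rw [e]
  refine (abs_add_le _ _).trans ?_
  rw [abs_mul, abs_mul]
  have t0 : η * (16 * s) ≤ 16 := by nlinarith
  have t1 : |a4 + (a2 - a4)| ≤ M + 16 := (abs_add_le _ _).trans (by linarith)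
  have t2 : |a1 - a3| * |a4 + (a2 - a4)| ≤ (η * (16 * s)) * (M + 16) :=
    mul_le_mul v5 t1 (abs_nonneg _) (by positivity)
  have t3 : |a3| * |a2 - a4| ≤ M * (η * (16 * s)) :=
    mul_le_mul v7 v6 (abs_nonneg _) M0.le
  linarith

lemma cst2 {M s η : ℝ} (hη0 : 0 < η) (hη1 : η ≤ 1) (hs0 : 0 ≤ s) (hs1 : s ≤ 1) :
    η * (64 * s) * (2 * M + η * (64 * s)) ≤ s * η * (64 * (2 * M + 64)) := by
  have : η * (64 * s) ≤ 64 := by nlinarith
  have t1 : η * (64 * s) * (2 * M + η * (64 * s)) ≤ η * (64 * s) * (2 * M + 64) :=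
    mul_le_mul_of_nonneg_left (by linarith) (by positivity)
  linarith

lemma cst3 {k s a5 X Y W K η : ℝ} (hk0 : 0 < k) (hk1 : k < 1) (hs0 : 0 < s) (hs1 : s ≤ 1)
    (w3 : 2 * (4 * (k ^ 2 * s) * (4 - 4 * (k ^ 2 * s)) * 1 * a5) = -X - Y - 2 * W)
    (hK : |X| + |Y| + 2 * |W| ≤ 2 * (s * η * K)) :
    |a5| ≤ K / (16 * k ^ 2 * (1 - k ^ 2)) * η := by
  have k2 : 0 < 1 - k ^ 2 := by nlinarith
  have w4 : |2 * (4 * (k ^ 2 * s) * (4 - 4 * (k ^ 2 * s)) * 1 * a5)| ≤ 2 * (s * η * K) := by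
    rw [w3]
    refine (abs_sub _ _).trans ?_
    rw [abs_mul, abs_two]
    have t1 := abs_sub (-X) Y
    rw [abs_neg] at t1
    linarith
  have h1 : 0 ≤ k ^ 2 * s := by positivity
  have h2 : k ^ 2 * s ≤ s := by nlinarith
  have w5 : |2 * (4 * (k ^ 2 * s) * (4 - 4 * (k ^ 2 * s)) * 1 * a5)| =
      2 * (16 * k ^ 2 * (1 - k ^ 2 * s) * s * |a5|) := by
    rw [show 2 * (4 * (k ^ 2 * s) * (4 - 4 * (k ^ 2 * s)) * 1 * a5) =
      (2 * (16 * k ^ 2 * (1 - k ^ 2 * s) * s)) * a5 by ring, abs_mul,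
      abs_of_nonneg (by
        have : 0 ≤ 1 - k ^ 2 * s := by linarith
        positivity)]
    ring
  rw [w5] at w4
  have w6 : 16 * k ^ 2 * (1 - k ^ 2) * |a5| ≤ η * K := by
    have h3 : 16 * k ^ 2 * (1 - k ^ 2) * |a5| ≤ 16 * k ^ 2 * (1 - k ^ 2 * s) * |a5| := by
      have : 1 - k ^ 2 ≤ 1 - k ^ 2 * s := by nlinarith [sq_nonneg k]
      gcongr
    have h4 : s * (16 * k ^ 2 * (1 - k ^ 2 * s) * |a5|) ≤ s * (η * K) := by linarith
    exact h3.trans (le_of_mul_le_mul_left h4 hs0)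
  rw [div_mul_eq_mul_div, le_div_iff₀ (by positivity)]
  linarith

lemma cst4 {k s : ℝ} (hk0 : 0 < k) (hk1 : k < 1) (hs0 : 0 ≤ s) (hs1 : s ≤ 1) :
    |4 * (k ^ 2 * s) * (4 - 4 * (k ^ 2 * s))| ≤ 16 * s ∧ |4 * s * (4 - 4 * s)| ≤ 16 * s ∧
      4 * (k ^ 2 * s) ∈ Set.Icc (0 : ℝ) 4 := by
  have h1 : 0 ≤ k ^ 2 * s := by positivity
  have h2 : k ^ 2 * s ≤ s := mul_le_of_le_one_left hs0 (by nlinarith)
  refine ⟨?_, ?_, by linarith, by linarith⟩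
  · rw [abs_of_nonneg (mul_nonneg (by linarith) (by linarith))]
    nlinarith
  · rw [abs_of_nonneg (mul_nonneg (by linarith) (by linarith))]
    nlinarith

/-- **the approximation** -/
theorem approx {k : ℝ} (hk0 : 0 < k) (hk1 : k < 1) {E B C : ℝ → ℝ} (T : Tgt k E B C) {ε : ℝ}
    (hε : 0 < ε) : ∃ (e : Polynomial A) (b c : Bool → Polynomial A) (t : Bool → ℝ),
      PolyId (Finset.univ : Finset Bool) e b c ∧ (∀ i t, ev2 t 0 (b i) = 0) ∧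
      (∀ i t, ev2 t 4 (b i) = 0) ∧ (∀ i t, ev2 t 0 (c i) = 0) ∧ (∀ i t, ev2 t 4 (c i) = 0) ∧
      (∀ i, 0 < t i) ∧
      gc e k + ∑ i, (t i * gp (b i) k + (t i)⁻¹ * gp (c i) k) ≤
        ms (fun θ => E (Real.cos θ)) + ms (fun θ => B (2 + 2 * Real.cos θ)) +
          ms (fun θ => C (2 + 2 * Real.cos θ)) + ε := by
  obtain ⟨M1, hM1⟩ := isCompact_Icc.exists_bound_of_continuousOn
    (s := Set.Icc (-1 : ℝ) 1) T.cE.continuousOn
  obtain ⟨M2, hM2⟩ := isCompact_Icc.exists_bound_of_continuousOn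
    (s := Set.Icc (0 : ℝ) 4) T.cB.continuousOn
  obtain ⟨M3, hM3⟩ := isCompact_Icc.exists_bound_of_continuousOn
    (s := Set.Icc (0 : ℝ) 4) T.cC.continuousOn
  obtain ⟨M, hM⟩ : ∃ M, M = |M1| + |M2| + |M3| + 1 := ⟨_, rfl⟩
  have M0 : 0 < M := by rw [hM]; positivity
  have bE : ∀ x ∈ Set.Icc (-1 : ℝ) 1, |E x| ≤ M := fun x hx => by
    have h1 := hM1 x hx
    rw [Real.norm_eq_abs] at h1
    rw [hM]
    linarith [le_abs_self M1, abs_nonneg M2, abs_nonneg M3]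
  have bB : ∀ x ∈ Set.Icc (0 : ℝ) 4, |B x| ≤ M := fun x hx => by
    have h1 := hM2 x hx
    rw [Real.norm_eq_abs] at h1
    rw [hM]
    linarith [le_abs_self M2, abs_nonneg M1, abs_nonneg M3]
  have bC : ∀ x ∈ Set.Icc (0 : ℝ) 4, |C x| ≤ M := fun x hx => by
    have h1 := hM3 x hx
    rw [Real.norm_eq_abs] at h1
    rw [hM]
    linarith [le_abs_self M3, abs_nonneg M1, abs_nonneg M2]
  obtain ⟨G1, hG1⟩ : ∃ G1, G1 = gp (bP 1) k := ⟨_, rfl⟩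
  have G0 : 0 ≤ G1 := by rw [hG1]; exact gp_nn _ _
  obtain ⟨K1, hK1⟩ : ∃ K1, K1 = 64 * (2 * M + 64) + 16 * (M + 16) + 16 * M := ⟨_, rfl⟩
  have K1p : 0 < K1 := by rw [hK1]; positivity
  have k2 : 0 < 1 - k ^ 2 := by nlinarith
  obtain ⟨K2, hK2⟩ : ∃ K2, K2 = K1 / (16 * k ^ 2 * (1 - k ^ 2)) := ⟨_, rfl⟩
  have K2p : 0 < K2 := by rw [hK2]; positivity
  obtain ⟨t0, ht0⟩ : ∃ t0, t0 = ε / (4 * (G1 + 1)) := ⟨_, rfl⟩
  have t0p : 0 < t0 := by rw [ht0]; positivity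
  have t0G : t0 * G1 ≤ ε / 4 := by
    have : t0 * (G1 + 1) = ε / 4 := by rw [ht0]; field_simp
    nlinarith
  obtain ⟨η, hη0, hη1, hη⟩ : ∃ η : ℝ, 0 < η ∧ η < 1 ∧
      (4 * η) * (2 * M + 4 * η) + 2 * ((16 * η) * (2 * M + 16 * η)) + t0⁻¹ * (K2 * η) ^ 2 <
        ε / 2 := by
    have hc : Continuous (fun η : ℝ => (4 * η) * (2 * M + 4 * η) +
        2 * ((16 * η) * (2 * M + 16 * η)) + t0⁻¹ * (K2 * η) ^ 2) := by fun_prop
    have h1 := (hc.tendsto 0).eventually (gt_mem_nhds (show ((4 * 0) * (2 * M + 4 * 0) +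
        2 * ((16 * 0) * (2 * M + 16 * 0)) + t0⁻¹ * (K2 * 0) ^ 2) < ε / 2 by simpa using hε))
    have h2 : ∀ᶠ δ : ℝ in 𝓝[>] 0, 0 < δ := eventually_mem_nhdsWithin
    have h3 : ∀ᶠ δ : ℝ in 𝓝[>] 0, δ < 1 :=
      eventually_nhdsWithin_of_eventually_nhds (gt_mem_nhds one_pos)
    obtain ⟨δ, h4, h5, h6⟩ := ((h2.and (h3.and (eventually_nhdsWithin_of_eventually_nhds h1)))).exists
    exact ⟨δ, h4, h5, h6⟩
  obtain ⟨hp, hh⟩ := quo (f := fun x => E x - 1) (D := DD k) (a := -1) (b := 1)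
    (T.cE.sub continuous_const) (by unfold DD; fun_prop)
    (fun x hx h0 => (T.E1 x hx h0).mono fun y hy => by
      show E y - 1 = 0
      rw [hy, sub_self]) hη0
  obtain ⟨β, hβ⟩ := quo (f := B) (D := fun x => x * (4 - x)) (a := 0) (b := 4)
    T.cB (by fun_prop) (fun x hx h0 => T.B1 x hx h0) hη0
  obtain ⟨γ, hγ⟩ := quo (f := C) (D := fun x => x * (4 - x)) (a := 0) (b := 4)
    T.cC (by fun_prop) (fun x hx h0 => T.C1 x hx h0) hη0
  obtain ⟨δ, hδ⟩ := polyId hp β γ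
  -- pointwise bounds
  have dE : ∀ x ∈ Set.Icc (-1 : ℝ) 1, |ev2 k x (eP hp) - E x| ≤ η * |DD k x| := by
    intro x hx
    have := hh x hx
    rw [ev2_eP]
    rwa [show 1 + DD k x * hp.eval x - E x = DD k x * hp.eval x - (E x - 1) by ring]
  have dB : ∀ x ∈ Set.Icc (0 : ℝ) 4, |ev2 k x (bP β) - B x| ≤ η * |x * (4 - x)| := by
    intro x hx
    rw [ev2_bP]; exact hβ x hx
  have dC : ∀ x ∈ Set.Icc (0 : ℝ) 4, |ev2 k x (bP γ) - C x| ≤ η * |x * (4 - x)| := by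
    intro x hx
    rw [ev2_bP]; exact hγ x hx
  have q4 : ∀ x ∈ Set.Icc (0 : ℝ) 4, |x * (4 - x)| ≤ 16 := by
    rintro x ⟨h1, h2⟩
    rw [abs_of_nonneg (mul_nonneg h1 (by linarith))]
    nlinarith
  obtain ⟨c1, hc1⟩ : ∃ c1 : Polynomial A, c1 = Polynomial.X * (4 - Polynomial.X) * δ := ⟨_, rfl⟩
  have ec1 : ∀ t x, ev2 t x c1 = x * (4 - x) * ev2 t x δ := fun t x => by
    rw [hc1, ev2_mul, ev2_mul, ev2_X, ev2_sub, ev2_four, ev2_X]
  rw [← hc1] at hδ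
  have cb : ∀ s, 0 ≤ s → s ≤ 1 → |ev2 k (4 * s) c1| ≤ K2 * η := by
    intro s hs0 hs1
    rcases hs0.eq_or_lt with h0 | h0
    · rw [← h0, ec1]
      simp only [mul_zero, zero_mul, abs_zero]
      positivity
    obtain ⟨x, y, w, w0, w1, ex, ey, p1, p2, mx, my, qx, qy, rx, ry, hw2⟩ :=
      curve hk0 hk1 hs0 hs1
    have i1 := hδ.real k x y s p1 p2
    have i2 := T.id x y w s hs0 hs1 w0 ex ey hw2
    rw [Fintype.sum_bool] at i1
    simp only [if_true, Bool.false_eq_true, if_false] at i1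
    have mB : 4 * (k ^ 2 * s) ∈ Set.Icc (0 : ℝ) 4 := (cst4 hk0 hk1 hs0 hs1).2.2
    have mC : 4 * s ∈ Set.Icc (0 : ℝ) 4 := ⟨by linarith, by linarith⟩
    have aw : |w| ≤ 1 := by rw [abs_of_nonneg w0]; exact w1
    have u1 := (dE x mx).trans (mul_le_mul_of_nonneg_left
      (DD_curve hk0 hk1 hs0 hs1 mx qx (by rw [rx]) aw) hη0.le)
    have u2 := (dE y my).trans (mul_le_mul_of_nonneg_left
      (DD_curve hk0 hk1 hs0 hs1 my qy (by rw [ry, abs_neg]) aw) hη0.le)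
    have u3 := sqd u1 (bE x mx)
    have u4 := sqd u2 (bE y my)
    have v1 := dB _ mB
    have v2 := dC _ mC
    obtain ⟨v3, v4, -⟩ := cst4 hk0 hk1 hs0 hs1
    have v5 := v1.trans (mul_le_mul_of_nonneg_left v3 hη0.le)
    have v6 := v2.trans (mul_le_mul_of_nonneg_left v4 hη0.le)
    have v7 := bB _ mB
    have v8 := bC _ mC
    obtain ⟨a1, ha1⟩ : ∃ a1, a1 = ev2 k (4 * (k ^ 2 * s)) (bP β) := ⟨_, rfl⟩
    obtain ⟨a2, ha2⟩ : ∃ a2, a2 = ev2 k (4 * s) (bP γ) := ⟨_, rfl⟩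
    obtain ⟨a3, ha3⟩ : ∃ a3, a3 = B (4 * (k ^ 2 * s)) := ⟨_, rfl⟩
    obtain ⟨a4, ha4⟩ : ∃ a4, a4 = C (4 * s) := ⟨_, rfl⟩
    obtain ⟨a5, ha5⟩ : ∃ a5, a5 = ev2 k (4 * s) c1 := ⟨_, rfl⟩
    rw [← ha1, ← ha3] at v5
    rw [← ha2, ← ha4] at v6
    rw [← ha3] at v7
    rw [← ha4] at v8
    rw [← ha1, ← ha2, ← ha5, ev2_bP, Polynomial.eval_one] at i1
    rw [← ha3, ← ha4] at i2
    rw [← ha5]
    have w1 := cst1 hη0 hη1.le hs0 hs1 M0 v5 v6 v7 v8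
    have w2 := cst2 (M := M) hη0 hη1.le hs0 hs1
    rw [hK2]
    refine cst3 hk0 hk1 h0 hs1 (X := ev2 k x (eP hp) ^ 2 - E x ^ 2)
      (Y := ev2 k y (eP hp) ^ 2 - E y ^ 2) (W := a1 * a2 - a3 * a4) ?_ ?_
    · linear_combination i1 - i2
    · rw [hK1]
      linarith
  -- costs
  have cc := Real.continuous_cos
  have c4 : Continuous fun θ : ℝ => 2 + 2 * Real.cos θ := by fun_prop
  have g1 : gc (eP hp) k ≤ ms (fun θ => E (Real.cos θ)) + (4 * η) * (2 * M + 4 * η) := by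
    rw [gc_ms]
    refine ms_cmp ((ev2_co k _).comp cc) (T.cE.comp cc) fun θ => ?_
    have m := cos_mem θ
    have h1 := (dE _ m).trans (mul_le_mul_of_nonneg_left (DD_le hk0 hk1 m) hη0.le)
    rw [mul_comm η 4] at h1
    have h2 := (abs_le.1 (sqd h1 (bE _ m))).2
    simp only [Function.comp_def]
    linarith
  have g2 : gp (bP β) k ≤ ms (fun θ => B (2 + 2 * Real.cos θ)) + (16 * η) * (2 * M + 16 * η) := by
    rw [gp_ms]
    refine ms_cmp ((ev2_co k _).comp c4) (T.cB.comp c4) fun θ => ?_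
    have m := cos_mem4 θ
    have h1 := (dB _ m).trans (mul_le_mul_of_nonneg_left (q4 _ m) hη0.le)
    rw [mul_comm η 16] at h1
    have h2 := (abs_le.1 (sqd h1 (bB _ m))).2
    simp only [Function.comp_def]
    linarith
  have g3 : gp (bP γ) k ≤ ms (fun θ => C (2 + 2 * Real.cos θ)) + (16 * η) * (2 * M + 16 * η) := by
    rw [gp_ms]
    refine ms_cmp ((ev2_co k _).comp c4) (T.cC.comp c4) fun θ => ?_
    have m := cos_mem4 θ
    have h1 := (dC _ m).trans (mul_le_mul_of_nonneg_left (q4 _ m) hη0.le)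
    rw [mul_comm η 16] at h1
    have h2 := (abs_le.1 (sqd h1 (bC _ m))).2
    simp only [Function.comp_def]
    linarith
  have g4 : gp c1 k ≤ (K2 * η) ^ 2 := by
    rw [gp_ms]
    have : ms (fun _ => (0 : ℝ)) = 0 := by simp [ms]
    have h1 := ms_cmp (F := fun θ => ev2 k (2 + 2 * Real.cos θ) c1) (G := fun _ => 0)
      (δ := (K2 * η) ^ 2) ((ev2_co k _).comp c4) continuous_const fun θ => by
        have m := cos_mem4 θ
        have h2 := cb ((2 + 2 * Real.cos θ) / 4) (by linarith [m.1]) (by linarith [m.2])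
        rw [show 4 * ((2 + 2 * Real.cos θ) / 4) = 2 + 2 * Real.cos θ by ring] at h2
        rw [zero_pow two_ne_zero, zero_add, ← sq_abs]
        exact pow_le_pow_left₀ (abs_nonneg _) h2 2
    rw [this, zero_add] at h1
    exact h1
  refine ⟨eP hp, fun i => if i then bP β else bP 1, fun i => if i then bP γ else c1,
    fun i => if i then 1 else t0, hδ, fun i t => ?_, fun i t => ?_, fun i t => ?_, fun i t => ?_,
    fun i => ?_, ?_⟩
  · cases i <;> simp [ev2_bP]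
  · cases i <;> simp [ev2_bP]
  · cases i <;> simp [ev2_bP, ec1]
  · cases i <;> simp [ev2_bP, ec1]
  · cases i <;> simp [t0p]
  · rw [Fintype.sum_bool]
    simp only [if_true, Bool.false_eq_true, if_false]
    rw [← hG1]
    have g5 : t0⁻¹ * gp c1 k ≤ t0⁻¹ * (K2 * η) ^ 2 :=
      mul_le_mul_of_nonneg_left g4 (inv_nonneg.2 t0p.le)
    rw [inv_one, one_mul, one_mul]
    linarith

end

end Pool.Agent.H25JM
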