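import Pool.Agent.H25JM.Sym
import Pool.Agent.K13.TP.Sqb

/-!
# Lower bounds for the joint fourth moment of two ladders
-/

set_option autoImplicit false
set_option linter.unusedSectionVars false
open MeasureTheory Filter Topology Complex Set
open scoped ContDiff Real Manifold

namespace Pool.Agent.H25JM

open Pool.Agent.W745.RW Pool.Agent.TH294.RS Pool.Agent.Y265.HY Pool.Agent.K13.TP
open Polynomial (aeval)

noncomputable section

variable {B : Set ℂ} {h κ : ℕ → ℝ} {w v : ℤ → ℕ → ℂ → ℂ} {ρ : ℕ → ℝ}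

/-- real part of the functional -/
lemma Ev_re {G : Type*} (D : G → ℕ → ℂ) (x : AddMonoidAlgebra A G) (n : ℕ) :
    Ev ρ (fun m n => (((D m n).re : ℝ) : ℂ)) x n = (((Ev ρ D x n).re : ℝ) : ℂ) := by
  induction x using AddMonoidAlgebra.induction_linear with
  | zero => rw [Ev_zero, Ev_zero]; simp
  | add x y h1 h2 => rw [Ev_add, Ev_add, h1, h2, add_re]; push_cast; ring
  | single m p => rw [Ev_single, Ev_single, re_ofReal_mul]; push_cast; ring

/-- the real four-point functions -/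
def r5 (φ : ℂ → ℝ) (w v : ℤ → ℕ → ℂ → ℂ) (a b c d : ℤ) (n : ℕ) : ℝ := (D5 φ w v (a, b, c, d) n).re

lemma G4_neg (a b c d : ℤ) : G4 (-a, -b, -c, -d) = G4 (a, b, c, d) := by
  simp only [G4]
  rw [CC_val, CC_val, CC_val, CC_val, sg_neg, sg_neg]
  have e1 : (-a + -b = 0) = (a + b = 0) := by apply propext; omega
  have e2 : (-c + -d = 0) = (c + d = 0) := by apply propext; omega
  simp only [e1, e2]

lemma G4_real (m : Z4) : (starRingEnd ℂ) (G4 m) = G4 m := by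
  simp only [G4]
  have h : ∀ a b : ℤ, (starRingEnd ℂ) (CC a b) = CC a b := fun a b => by
    rw [CC_val]
    split_ifs
    · unfold sg
      rw [map_pow, map_neg, map_one]
    · exact map_zero _
  rw [map_mul, h, h]

variable (H : SY B Complex.im h w) (H' : SY B Complex.im κ v) (hBU : B ⊆ UH) {C : ℝ}
  (hC : Cmp h κ C)

include H H' in
lemma D5_cj {φ : ℂ → ℝ} (hφ : TF B φ) (a b c d : ℤ) (hs : a + b + c + d = 0) (n : ℕ) :
    D5 φ w v (-a, -b, -c, -d) n = (starRingEnd ℂ) (D5 φ w v (a, b, c, d) n) := by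
  simp only [D5]
  rw [map_sub, map_mul, G4_real, conj_ofReal, G4_neg]
  congr 1
  simp only [J4]
  rw [← integral_conj]
  congr 1; funext z
  by_cases hz : z ∈ B
  · have cw : ∀ k, (starRingEnd ℂ) (w k n z) = sg k * w (-k) n z := fun k => H.cj k n z hz
    have cv : ∀ k, (starRingEnd ℂ) (v k n z) = sg k * v (-k) n z := fun k => H'.cj k n z hz
    simp only [map_mul, conj_ofReal, cw, cv]
    have hsg : sg a * sg b * sg c * sg d = 1 := by
      rw [← sg_add, ← sg_add, ← sg_add, hs, sg_zero]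
    linear_combination (-((φ z : ℂ) * (w (-a) n z * w (-b) n z * (v (-c) n z * v (-d) n z)))) * hsg
  · rw [TF.zero hφ hz]; simp

lemma null_rep {a : ℕ → ℂ} (h : Null a) : Tendsto (fun n => (a n).re) atTop (𝓝 0) := by
  have := (Complex.continuous_re.tendsto 0).comp h
  rw [Complex.zero_re] at this
  exact this

include H H' hBU hC in
/-- the relations of the real four-point functions -/
theorem rel2 (h0 : EX B h w (w 0)) (k0 : EX B κ v (v 0)) {φ : ℂ → ℝ} (hφ : TF B φ) :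
    Rel2 (ra h κ) (r5 φ w v) where
  bd := ⟨C, ra_bd H H' hC⟩
  s12 := fun a b c d => by
    funext n
    simp only [r5, D5, J4, G4]
    rw [CC_symm a b]
    congr 3
    funext z; ring
  s34 := fun a b c d => by
    funext n
    simp only [r5]
    rw [(rel5 H H' hBU hC h0 k0 hφ).s34]
  cj := fun a b c d hs => by
    funext n
    simp only [r5]
    rw [D5_cj H H' hφ a b c d hs n, conj_re]
  N := fun a b c d => by
    refine (null_rep ((rel5 H H' hBU hC h0 k0 hφ).N a b c d)).congr fun n => ?_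
    simp only [r5, sub_re, add_re]
    have : (2 : ℂ) = ((2 : ℝ) : ℂ) := by norm_num
    rw [this, re_ofReal_mul]
  T := fun a b c d => by
    refine (null_rep ((rel5 H H' hBU hC h0 k0 hφ).T a b c d)).congr fun n => ?_
    simp only [r5, add_re]
    rw [re_ofReal_mul, add_re]

/-- the mean square of a polynomial of the cosine -/
def gc (F : Polynomial A) (ρ : ℝ) : ℝ :=
  1 / (2 * π) * ∫ θ in (0 : ℝ)..(2 * π), (ev2 ρ (Real.cos θ) F) ^ 2

lemma Ev_cx {χ : ℤ → ℕ → ℂ} (hχ : ∀ a b n, χ (a + b) n = χ a n * χ b n) {n : ℕ}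
    (h0 : χ 0 n = 1) : Ev ρ χ cx n = 1 / 2 * (χ 1 n + χ (-1) n) := by
  unfold cx tt tt'
  rw [Ev_char hχ, Ev_alg h0, Ev_add, Ev_single, Ev_single]
  simp

lemma ct_pe (F : Polynomial A) (n : ℕ) : ct ρ (pe F * pe F) n = ((gc F (ρ n) : ℝ) : ℂ) := by
  unfold pe
  rw [ct_eq]
  have e : ∀ θ : ℝ, Ev ρ (fun m _ => ch θ m) (aeval cx F * aeval cx F) n =
      (((ev2 (ρ n) (Real.cos θ) F) ^ 2 : ℝ) : ℂ) := by
    intro θ
    have hχ : ∀ (a b : ℤ) (_ : ℕ), ch θ (a + b) = ch θ a * ch θ b := fun a b _ => ch_add θ a b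
    have h1 : Ev ρ (fun m _ => ch θ m) cx n = ((Real.cos θ : ℝ) : ℂ) := by
      rw [Ev_cx (χ := fun m _ => ch θ m) hχ (ch_zero θ), ch_cos]
      push_cast; ring
    rw [Ev_char (χ := fun m _ => ch θ m) hχ, Ev_aeval (χ := fun m _ => ch θ m) hχ (ch_zero θ) h1]
    push_cast; ring
  simp only [e]
  rw [intervalIntegral.integral_ofReal]
  unfold gc
  push_cast; ring

/-- the reduction of the functional of four variables -/
lemma red_pair {r : ℤ → ℤ → ℤ → ℤ → ℕ → ℝ} (R : Rel2 ρ r) (g g' : ℤ →+ Z4) (k k' : ℤ →+ ℤ × ℤ)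
    (hs : ∀ m l, (g m).1 + (g' l).1 + ((g m).2.1 + (g' l).2.1) + ((g m).2.2.1 + (g' l).2.2.1) +
      ((g m).2.2.2 + (g' l).2.2.2) = 0)
    (h1 : ∀ m l, (g m).1 + (g' l).1 + ((g m).2.2.1 + (g' l).2.2.1) = (k m).1 + (k' l).1)
    (h2 : ∀ m l, (g m).1 + (g' l).1 + ((g m).2.2.2 + (g' l).2.2.2) = (k m).2 + (k' l).2)
    (x y : R1) : Null (fun n => Ev ρ (fun (m : Z4) n => ((r m.1 m.2.1 m.2.2.1 m.2.2.2 n : ℝ) : ℂ))
      (JJ g x * JJ g' y) n - Ev ρ (FF r) (JK k x * JK k' y) n) := by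
  obtain ⟨C0, hC0⟩ := R.bd
  have key : ∀ m l : ℤ, Null (fun n => ((r ((g m + g' l : Z4)).1 ((g m + g' l : Z4)).2.1
      ((g m + g' l : Z4)).2.2.1 ((g m + g' l : Z4)).2.2.2 n : ℝ) : ℂ) - FF r (k m + k' l) n) := by
    intro m l
    have := R.red ((g m + g' l : Z4)).1 ((g m + g' l : Z4)).2.1
      ((g m + g' l : Z4)).2.2.1 ((g m + g' l : Z4)).2.2.2 (hs m l)
    refine this.congr fun n => ?_
    have e : ((g m + g' l : Z4).1 + (g m + g' l : Z4).2.2.1, (g m + g' l : Z4).1 +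
        (g m + g' l : Z4).2.2.2) = (k m + k' l : ℤ × ℤ) := by
      refine Prod.ext ?_ ?_
      · exact h1 m l
      · exact h2 m l
    rw [e]
  have n1 := Ev_null hC0 (fun m => Ev_null hC0 (key m) y) x
  refine n1.congr fun n => ?_
  rw [Ev_J2 (D := fun (m : Z4) n => ((r m.1 m.2.1 m.2.2.1 m.2.2.2 n : ℝ) : ℂ))]
  have e2 : Ev ρ (FF r) (JK k x * JK k' y) n =
      Ev ρ (fun m n => Ev ρ (fun l n => FF r (k m + k' l) n) y n) x n := by
    rw [Ev_pair, Ev_JK]
    refine Ev_cg x n fun m => ?_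
    rw [Ev_JK]
  rw [e2]
  have e3 : ∀ m, Ev ρ (fun l n => ((r ((g m + g' l : Z4)).1 ((g m + g' l : Z4)).2.1
      ((g m + g' l : Z4)).2.2.1 ((g m + g' l : Z4)).2.2.2 n : ℝ) : ℂ)) y n =
      Ev ρ (fun l n => ((r ((g m + g' l : Z4)).1 ((g m + g' l : Z4)).2.1
      ((g m + g' l : Z4)).2.2.1 ((g m + g' l : Z4)).2.2.2 n : ℝ) : ℂ) - FF r (k m + k' l) n) y n +
      Ev ρ (fun l n => FF r (k m + k' l) n) y n := by
    intro m
    rw [← Ev_D]
    refine Ev_cg y n fun l => ?_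
    ring
  have e4 : Ev ρ (fun m n => Ev ρ (fun l n => ((r ((g m + g' l : Z4)).1 ((g m + g' l : Z4)).2.1
      ((g m + g' l : Z4)).2.2.1 ((g m + g' l : Z4)).2.2.2 n : ℝ) : ℂ)) y n) x n =
      Ev ρ (fun m n => Ev ρ (fun l n => ((r ((g m + g' l : Z4)).1 ((g m + g' l : Z4)).2.1
      ((g m + g' l : Z4)).2.2.1 ((g m + g' l : Z4)).2.2.2 n : ℝ) : ℂ) - FF r (k m + k' l) n) y n +
      Ev ρ (fun l n => FF r (k m + k' l) n) y n) x n := Ev_cg x n e3
  rw [e4, Ev_D (D := fun m n => Ev ρ (fun l n => ((r ((g m + g' l : Z4)).1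
    ((g m + g' l : Z4)).2.1 ((g m + g' l : Z4)).2.2.1 ((g m + g' l : Z4)).2.2.2 n : ℝ) : ℂ) -
      FF r (k m + k' l) n) y n)]
  ring

lemma kn_cx : JK kn cx = JK kx cx := by
  rw [JK_cx, JK_cx]
  have e1 : kn 1 = (0, -1) := rfl
  have e2 : kn (-1) = (0, 1) := rfl
  have e3 : kx 1 = (0, 1) := rfl
  have e4 : kx (-1) = (0, -1) := rfl
  rw [e1, e2, e3, e4, add_comm (mm 0 (-1))]

include H H' hBU hC in
/-- the mean square of the mixed expression -/
theorem mix (h0 : EX B h w (w 0)) (k0 : EX B κ v (v 0)) {φ : ℂ → ℝ} (hφ : TF B φ)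
    (e : Polynomial A) : Tendsto (fun n => (∫ z, (φ z : ℂ) * (LM (ra h κ) w v (pe e) n z *
      LM (ra h κ) w v (pe e) n z)).re - gc e (ra h κ n) * (∫ z, φ z) -
      (Ev (ra h κ) (FF (r5 φ w v)) (JK kx (pe e ^ 2)) n).re) atTop (𝓝 0) := by
  have R := rel2 H H' hBU hC h0 k0 hφ
  have n1 := null_rep (red_pair R g1 g2 kx kn (fun m l => by
      show m + 0 + (0 + l) + (-m + 0) + (0 + -l) = 0
      ring) (fun m l => by
      show m + 0 + (-m + 0) = 0 + 0
      ring) (fun m l => by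
      show m + 0 + (0 + -l) = m + -l
      ring) (pe e) (pe e))
  refine n1.congr fun n => ?_
  have e1 : JK kx (pe e) * JK kn (pe e) = JK kx (pe e ^ 2) := by
    rw [map_pow, JK_pe kn, kn_cx, ← JK_pe kx, sq]
  have cw := fun m n => (H.bd m).co n
  have cv := fun m n => (H'.bd m).co n
  have p1 := Ev_prod (ρ := ra h κ) hφ cw cv cw cv (D := J4 φ w v) (g := g1) (g' := g2)
    (fun m k n => J4_1 φ m k n) (pe e) (pe e) n
  have q1 : Ev (ra h κ) (fun m _ => G4 m) (JJ g1 (pe e) * JJ g2 (pe e)) n =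
      ((gc e (ra h κ n) : ℝ) : ℂ) := by
    rw [Ev_J2, ← ct_pe (ρ := ra h κ) e n]
    unfold ct
    rw [Ev_pair]
    refine Ev_cg _ n fun m => Ev_cg _ n fun k => G4_1 m k
  have e2 : Ev (ra h κ) (fun (m : Z4) n => ((r5 φ w v m.1 m.2.1 m.2.2.1 m.2.2.2 n : ℝ) : ℂ))
      (JJ g1 (pe e) * JJ g2 (pe e)) n = (((Ev (ra h κ) (D5 φ w v)
        (JJ g1 (pe e) * JJ g2 (pe e)) n).re : ℝ) : ℂ) := Ev_re (D5 φ w v) _ n
  rw [sub_re, e1, e2, ofReal_re, Ev_D5, q1, p1, sub_re, ← ofReal_mul, ofReal_re]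
  ring

include H H' hBU hC in
/-- the correlation of two quadratic expressions -/
theorem cor (h0 : EX B h w (w 0)) (k0 : EX B κ v (v 0)) {φ : ℂ → ℝ} (hφ : TF B φ)
    (b c : Polynomial A) (b0 : ∀ t, ev2 t 0 b = 0) :
    Tendsto (fun n => (∫ z, (φ z : ℂ) * (LM (ra h κ) w w (pb b) n z *
      LM (ra h κ) v v (pb c) n z)).re -
      (Ev (ra h κ) (FF (r5 φ w v)) (JK kz (pb b) * JK kw (pb c)) n).re) atTop (𝓝 0) := by
  have R := rel2 H H' hBU hC h0 k0 hφ
  have n1 := null_rep (red_pair R g12 g34 kz kw (fun m l => by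
      show m + 0 + (-m + 0) + (0 + l) + (0 + -l) = 0
      ring) (fun m l => by
      show m + 0 + (0 + l) = m + l
      ring) (fun m l => by
      show m + 0 + (0 + -l) = m + -l
      ring) (pb b) (pb c))
  refine n1.congr fun n => ?_
  have cw := fun m n => (H.bd m).co n
  have cv := fun m n => (H'.bd m).co n
  have p2 := Ev_prod (ρ := ra h κ) hφ cw cw cv cv (D := J4 φ w v) (g := g12) (g' := g34)
    (fun m k n => J4_2 φ m k n) (pb b) (pb c) n
  have q2 : Ev (ra h κ) (fun m _ => G4 m) (JJ g12 (pb b) * JJ g34 (pb c)) n = 0 := by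
    rw [Ev_J2]
    have f1 : Ev (ra h κ) (fun m n => Ev (ra h κ) (fun k _ => G4 (g12 m + g34 k))
        (pb c) n) (pb b) n = Ev (ra h κ) (fun m n' => (Ev (ra h κ) (fun k _ => sg k) (pb c) n) *
          sg m) (pb b) n := by
      refine Ev_cg _ n fun m => ?_
      have f2 : Ev (ra h κ) (fun k _ => G4 (g12 m + g34 k)) (pb c) n =
          Ev (ra h κ) (fun k _ => sg m * sg k) (pb c) n := Ev_cg _ n fun k => G4_2 m k
      rw [f2, Ev_smulD (D := fun k _ => sg k)]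
      ring
    rw [f1, Ev_smulD (D := fun m _ => sg m)]
    unfold pb
    rw [Ev_sg_ps b, b0]
    simp
  have e2 : Ev (ra h κ) (fun (m : Z4) n => ((r5 φ w v m.1 m.2.1 m.2.2.1 m.2.2.2 n : ℝ) : ℂ))
      (JJ g12 (pb b) * JJ g34 (pb c)) n = (((Ev (ra h κ) (D5 φ w v)
        (JJ g12 (pb b) * JJ g34 (pb c)) n).re : ℝ) : ℂ) := Ev_re (D5 φ w v) _ n
  rw [sub_re, e2, ofReal_re, Ev_D5, q2, p2, mul_zero, sub_zero]

end

end Pool.Agent.H25JM
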