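import Pool.Agent.H25JM.Cor

/-!
# The lower bound for the joint fourth moment of two ladders in terms of polynomials
-/

set_option autoImplicit false
set_option linter.unusedSectionVars false
open MeasureTheory Filter Topology Complex Set
open scoped ContDiff Real Manifold

namespace Pool.Agent.H25JM

open Pool.Agent.W745.RW Pool.Agent.TH294.RS Pool.Agent.Y265.HY Pool.Agent.K13.TP
open Polynomial (aeval)

noncomputable section

variable {B : Set ℂ} {h κ : ℕ → ℝ} {w v : ℤ → ℕ → ℂ → ℂ} {ρ : ℕ → ℝ}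

/-- the identity of the polynomials `e`, `b i`, `c i` -/
def PolyId {ι : Type} (S : Finset ι) (e : Polynomial A) (b c : ι → Polynomial A) : Prop :=
  ∀ (Q : Type) [CommRing Q] [Algebra A Q] (x y s : Q), x + y = -(2 * rr Q * s) →
      x * y = (1 + rr Q ^ 2) * s - 1 → aeval x e ^ 2 + aeval y e ^ 2 +
        2 * ∑ i ∈ S, aeval (4 * (rr Q ^ 2 * s)) (b i) * aeval (4 * s) (c i) = 2

lemma inv_cx : inv1 cx = cx := by
  unfold cx tt tt'
  rw [map_mul, map_add, inv_single, inv_single, AlgHom.commutes, neg_neg, add_comm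
    (AddMonoidAlgebra.single (-1 : ℤ) (1 : A))]

lemma inv_pe (F : Polynomial A) : inv1 (pe F) = pe F := by
  have := (Polynomial.aeval_algHom_apply inv1 cx F)
  rw [inv_cx] at this
  exact this.symm

lemma LM_inv (H : SY B Complex.im h w) (H' : SY B Complex.im κ v) (a : R1) (n : ℕ) {z : ℂ}
    (hz : z ∈ B) : (starRingEnd ℂ) (LM ρ w v a n z) = LM ρ w v (inv1 a) n z := by
  induction a using AddMonoidAlgebra.induction_linear with
  | zero => rw [LM_zero, map_zero, map_zero, LM_zero]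
  | add x y h1 h2 => rw [LM_add, map_add, map_add, LM_add, h1, h2]
  | single m p =>
    have c1 : (starRingEnd ℂ) (w m n z) = sg m * w (-m) n z := H.cj m n z hz
    have c2 : (starRingEnd ℂ) (v (-m) n z) = sg m * v m n z := by
      rw [H'.cj (-m) n z hz, neg_neg, Int.natAbs_neg]; rfl
    rw [inv_single, LM_single, LM_single, map_mul, map_mul, conj_ofReal, c1, c2, neg_neg]
    linear_combination (((p.eval (ρ n) : ℝ) : ℂ) * (w (-m) n z * v m n z)) * sg_sq m

variable (H : SY B Complex.im h w) (H' : SY B Complex.im κ v) (hBU : B ⊆ UH) {C : ℝ}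
  (hC : Cmp h κ C)

include H H' in
lemma mix_nonneg {φ : ℂ → ℝ} (hφ : TF B φ) (p0 : ∀ z, 0 ≤ φ z) (e : Polynomial A) (n : ℕ) :
    0 ≤ (∫ z, (φ z : ℂ) * (LM ρ w v (pe e) n z * LM ρ w v (pe e) n z)).re := by
  have cX : ContinuousOn (fun z => LM ρ w v (pe e) n z) B := (LM_sm H H' _ _ n).continuousOn
  have i1 := TF.cint hφ (cX.mul cX)
  have r1 : (∫ z, (φ z : ℂ) * (LM ρ w v (pe e) n z * LM ρ w v (pe e) n z)).re =
      ∫ z, ((φ z : ℂ) * (LM ρ w v (pe e) n z * LM ρ w v (pe e) n z)).re := (integral_re i1).symm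
  rw [r1]
  refine integral_nonneg fun z => ?_
  show 0 ≤ ((φ z : ℂ) * (LM ρ w v (pe e) n z * LM ρ w v (pe e) n z)).re
  by_cases hz : z ∈ B
  · have h1 := LM_inv (ρ := ρ) H H' (pe e) n hz
    rw [inv_pe] at h1
    obtain ⟨x, hx⟩ := conj_eq_iff_real.1 h1
    rw [hx, ← ofReal_mul, ← ofReal_mul, ofReal_re]
    exact mul_nonneg (p0 z) (mul_self_nonneg _)
  · rw [TF.zero hφ hz]; simp

include H H' hBU hC in
/-- **the lower bound** -/
theorem lowb (h0 : EX B h w (w 0)) (k0 : EX B κ v (v 0)) {φ : ℂ → ℝ} (hφ : TF B φ)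
    (p0 : ∀ z, 0 ≤ φ z) {ι : Type} (S : Finset ι) (e : Polynomial A) (b c : ι → Polynomial A)
    (hid : PolyId S e b c) (b0 : ∀ i t, ev2 t 0 (b i) = 0) (b4 : ∀ i t, ev2 t 4 (b i) = 0)
    (c0 : ∀ i t, ev2 t 0 (c i) = 0) (c4 : ∀ i t, ev2 t 4 (c i) = 0)
    (t : ι → ℝ) (ht : ∀ i, 0 < t i) :
    ∃ er : ℕ → ℝ, Tendsto er atTop (𝓝 0) ∧ ∀ n,
      (1 - (gc e (ra h κ n) + ∑ i ∈ S, (t i * gp (b i) (ra h κ n) +
        (t i)⁻¹ * gp (c i) (ra h κ n)))) * (∫ z, φ z) ≤ (J4 φ w v (0, 0, 0, 0) n).re + er n := by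
  have R := rel2 H H' hBU hC h0 k0 hφ
  have m1 := null_rep (main2 R S e b c hid)
  have m2 := mix H H' hBU hC h0 k0 hφ e
  have m3 := tendsto_finsetSum S fun i _ => cor H H' hBU hC h0 k0 hφ (b i) (c i) (b0 i)
  have m4 := tendsto_finsetSum S fun i _ => ((null_rep (msq H hBU h0 hφ (ra_bd H H' hC) (b i) (b0 i)
    (b4 i))).const_mul (t i / 2))
  have m5 := tendsto_finsetSum S fun i _ => ((null_rep (msq H' hBU k0 hφ (ra_bd H H' hC) (c i)
    (c0 i) (c4 i))).const_mul ((t i)⁻¹ / 2))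
  simp only [mul_zero, Finset.sum_const_zero] at m3 m4 m5
  have s4 := (((m1.neg.add m2).add m3).add m4).add m5
  simp only [neg_zero, add_zero] at s4
  refine ⟨_, s4, fun n => ?_⟩
  set I0 : ℝ := ∫ z, φ z with hI0
  have key : ∀ i ∈ S, -(t i / 2 * (∫ z, (φ z : ℂ) * (LM (ra h κ) w w (pb (b i)) n z *
      LM (ra h κ) w w (pb (b i)) n z)).re + (t i)⁻¹ / 2 * (∫ z, (φ z : ℂ) *
      (LM (ra h κ) v v (pb (c i)) n z * LM (ra h κ) v v (pb (c i)) n z)).re) ≤
      (∫ z, (φ z : ℂ) * (LM (ra h κ) w w (pb (b i)) n z * LM (ra h κ) v v (pb (c i)) n z)).re := by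
    intro i _
    have cX : ContinuousOn (fun z => -LM (ra h κ) w w (pb (b i)) n z) B :=
      (LM_sm H H _ _ n).continuousOn.neg
    have cY : ContinuousOn (fun z => LM (ra h κ) v v (pb (c i)) n z) B :=
      (LM_sm H' H' _ _ n).continuousOn
    have a1 := amgm hφ p0 cX cY (fun z hz => by
      rw [neg_re, ofReal_neg, LM_re H _ n hz]) (fun z hz => LM_re H' _ n hz) (ht i)
    have e1 : ∫ z, (φ z : ℂ) * (-LM (ra h κ) w w (pb (b i)) n z * LM (ra h κ) v v (pb (c i)) n z) =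
        -∫ z, (φ z : ℂ) * (LM (ra h κ) w w (pb (b i)) n z * LM (ra h κ) v v (pb (c i)) n z) := by
      rw [← integral_neg]; congr 1; funext z; ring
    have e2 : ∫ z, (φ z : ℂ) * (-LM (ra h κ) w w (pb (b i)) n z *
        -LM (ra h κ) w w (pb (b i)) n z) =
        ∫ z, (φ z : ℂ) * (LM (ra h κ) w w (pb (b i)) n z * LM (ra h κ) w w (pb (b i)) n z) := by
      congr 1; funext z; ring
    rw [e1, e2, neg_re] at a1
    linarith
  have key2 := Finset.sum_le_sum key
  rw [Finset.sum_neg_distrib, Finset.sum_add_distrib] at key2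
  have pos := mix_nonneg (ρ := ra h κ) H H' hφ p0 e n
  have f0 : (FF (r5 φ w v) (0, 0) n).re = (J4 φ w v (0, 0, 0, 0) n).re - I0 := by
    have : FF (r5 φ w v) (0, 0) n = ((r5 φ w v 0 0 0 0 n : ℝ) : ℂ) := rfl
    rw [this, ofReal_re]
    simp only [r5, D5]
    have g : G4 (0, 0, 0, 0) = 1 := by simp [G4, CC]
    rw [g, one_mul, sub_re, ofReal_re]
  simp only [sub_re, ofReal_re, Complex.re_sum, f0]
  simp only [Finset.sum_sub_distrib, ← Finset.mul_sum, mul_sub, Finset.sum_add_distrib] at key2 ⊢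
  have e5 : ∀ x : ι → ℝ, ∑ i ∈ S, t i / 2 * (2 * x i * I0) = (∑ i ∈ S, t i * x i) * I0 := by
    intro x
    rw [Finset.sum_mul]
    exact Finset.sum_congr rfl fun i _ => by ring
  have e6 : ∀ x : ι → ℝ, ∑ i ∈ S, (t i)⁻¹ / 2 * (2 * x i * I0) = (∑ i ∈ S, (t i)⁻¹ * x i) * I0 := by
    intro x
    rw [Finset.sum_mul]
    exact Finset.sum_congr rfl fun i _ => by ring
  have hpb : ∀ b, pb b = aeval ps b := fun _ => rfl
  simp only [hpb] at key2 ⊢
  rw [e5, e6]
  linarith [key2, pos]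

end

end Pool.Agent.H25JM
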