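import Pool.Agent.H25JM.Ms
import Pool.Agent.H25JM.Lowb

/-!
# Correlations of two quadratic expressions and the odd mixed expressions
-/

set_option autoImplicit false
set_option linter.unusedSectionVars false
open MeasureTheory Filter Topology Complex Set
open scoped ContDiff Real Manifold

namespace Pool.Agent.H25JM

open Pool.Agent.W745.RW Pool.Agent.TH294.RS Pool.Agent.Y265.HY Pool.Agent.K13.TP
open Polynomial (aeval)

noncomputable section

variable {B : Set ℂ} {h κ : ℕ → ℝ} {w v : ℤ → ℕ → ℂ → ℂ} {ρ : ℕ → ℝ}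

variable (H : SY B Complex.im h w) (H' : SY B Complex.im κ v) (hBU : B ⊆ UH) {C : ℝ}
  (hC : Cmp h κ C)

lemma ev2_0_bd {C : ℝ} (hρ : ∀ n, |ρ n| ≤ C) (F : Polynomial A) :
    ∃ C' : ℝ, ∀ n, |ev2 (ρ n) 0 F| ≤ C' := by
  obtain ⟨C', hC'⟩ := poly_bd hρ (F.eval 0)
  refine ⟨C', fun n => ?_⟩
  rw [ev2, ← Polynomial.coeff_zero_eq_eval_zero, Polynomial.coeff_map]
  rw [← Polynomial.coeff_zero_eq_eval_zero] at hC'
  exact hC' n

lemma bd_null {a b : ℕ → ℝ} {C' : ℝ} (ha : ∀ n, |a n| ≤ C') (hb : Tendsto b atTop (𝓝 0)) :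
    Tendsto (fun n => a n * b n) atTop (𝓝 0) := by
  refine squeeze_zero_norm (a := fun n => C' * |b n|) (fun n => ?_) ?_
  · rw [Real.norm_eq_abs, abs_mul]
    exact mul_le_mul_of_nonneg_right (ha n) (abs_nonneg _)
  · have := hb.abs.const_mul C'
    rw [abs_zero, mul_zero] at this
    exact this

include H H' hBU hC in
/-- the correlation of two quadratic expressions -/
theorem corg (h0 : EX B h w (w 0)) (k0 : EX B κ v (v 0)) {φ : ℂ → ℝ} (hφ : TF B φ)
    (b c : Polynomial A) :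
    Tendsto (fun n => (∫ z, φ z * (XL (ra h κ) w b n z * XL (ra h κ) v c n z)) -
      (Ev (ra h κ) (FF (r5 φ w v)) (JK kz (pb b) * JK kw (pb c)) n).re) atTop (𝓝 0) := by
  have R := rel2 H H' hBU hC h0 k0 hφ
  have hρ := ra_bd H H' hC
  have n1 := null_rep (red_pair R g12 g34 kz kw (fun m l => by
      show m + 0 + (-m + 0) + (0 + l) + (0 + -l) = 0
      ring) (fun m l => by
      show m + 0 + (0 + l) = m + l
      ring) (fun m l => by
      show m + 0 + (0 + -l) = m + -l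
      ring) (pb b) (pb c))
  obtain ⟨C1, hC1⟩ := ev2_0_bd hρ b
  obtain ⟨C2, hC2⟩ := ev2_0_bd hρ c
  have n2 := bd_null hC1 (null_rep (fst1 (ρ := ra h κ) H' hφ hρ c))
  have n3 := bd_null hC2 (null_rep (fst1 (ρ := ra h κ) H hφ hρ b))
  have n4 := (n1.sub n2).sub n3
  rw [sub_zero, sub_zero] at n4
  refine n4.congr fun n => ?_
  set I0 : ℝ := ∫ z, φ z with hI0
  obtain ⟨vb, hvb⟩ : ∃ x : ℝ, x = ev2 (ra h κ n) 0 b := ⟨_, rfl⟩
  obtain ⟨vc, hvc⟩ : ∃ x : ℝ, x = ev2 (ra h κ n) 0 c := ⟨_, rfl⟩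
  have cw := fun m n => (H.bd m).co n
  have cv := fun m n => (H'.bd m).co n
  have p2 := Ev_prod (ρ := ra h κ) hφ cw cw cv cv (D := J4 φ w v) (g := g12) (g' := g34)
    (fun m k n => J4_2 φ m k n) (pb b) (pb c) n
  have q2 : Ev (ra h κ) (fun m _ => G4 m) (JJ g12 (pb b) * JJ g34 (pb c)) n =
      ((vb : ℝ) : ℂ) * ((vc : ℝ) : ℂ) := by
    rw [Ev_J2]
    have f1 : Ev (ra h κ) (fun m n => Ev (ra h κ) (fun k _ => G4 (g12 m + g34 k))
        (pb c) n) (pb b) n = Ev (ra h κ) (fun m n' => (Ev (ra h κ) (fun k _ => sg k) (pb c) n) *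
          sg m) (pb b) n := by
      refine Ev_cg _ n fun m => ?_
      have f2 : Ev (ra h κ) (fun k _ => G4 (g12 m + g34 k)) (pb c) n =
          Ev (ra h κ) (fun k _ => sg m * sg k) (pb c) n := Ev_cg _ n fun k => G4_2 m k
      rw [f2, Ev_smulD (D := fun k _ => sg k)]
      ring
    rw [f1, Ev_smulD (D := fun m _ => sg m)]
    unfold pb
    rw [Ev_sg_ps b, Ev_sg_ps c, hvb, hvc]
    ring
  have e2 : Ev (ra h κ) (fun (m : Z4) n => ((r5 φ w v m.1 m.2.1 m.2.2.1 m.2.2.2 n : ℝ) : ℂ))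
      (JJ g12 (pb b) * JJ g34 (pb c)) n = (((Ev (ra h κ) (D5 φ w v)
        (JJ g12 (pb b) * JJ g34 (pb c)) n).re : ℝ) : ℂ) := Ev_re (D5 φ w v) _ n
  have rX : ∀ z ∈ B, (((LM (ra h κ) w w (pb b) n z).re : ℝ) : ℂ) = LM (ra h κ) w w (pb b) n z :=
    fun z hz => LM_re H _ n hz
  have rY : ∀ z ∈ B, (((LM (ra h κ) v v (pb c) n z).re : ℝ) : ℂ) = LM (ra h κ) v v (pb c) n z :=
    fun z hz => LM_re H' _ n hz
  obtain ⟨X, hX⟩ : ∃ X : ℂ → ℝ, X = fun z => (LM (ra h κ) w w (pb b) n z).re := ⟨_, rfl⟩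
  obtain ⟨Y, hY⟩ : ∃ Y : ℂ → ℝ, Y = fun z => (LM (ra h κ) v v (pb c) n z).re := ⟨_, rfl⟩
  have cX : ContinuousOn X B := by
    rw [hX]
    exact Complex.continuous_re.comp_continuousOn (LM_sm H H (ra h κ) (pb b) n).continuousOn
  have cY : ContinuousOn Y B := by
    rw [hY]
    exact Complex.continuous_re.comp_continuousOn (LM_sm H' H' (ra h κ) (pb c) n).continuousOn
  have e3 : ∫ z, (φ z : ℂ) * (LM (ra h κ) w w (pb b) n z * LM (ra h κ) v v (pb c) n z) =
      ((∫ z, φ z * (X z * Y z) : ℝ) : ℂ) := by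
    rw [int_r hφ (fun z hz => by
      rw [← rX z hz, ← rY z hz, ← ofReal_mul, ofReal_re])]
    congr 2; funext z
    by_cases hz : z ∈ B
    · rw [← rX z hz, ← rY z hz, ← ofReal_mul, ofReal_re, hX, hY]
    · rw [TF.zero hφ hz]; simp
  have e4 : ∫ z, (φ z : ℂ) * LM (ra h κ) w w (aeval ps b) n z = ((∫ z, φ z * X z : ℝ) : ℂ) := by
    rw [hX]; exact int_r hφ rX
  have e5 : ∫ z, (φ z : ℂ) * LM (ra h κ) v v (aeval ps c) n z = ((∫ z, φ z * Y z : ℝ) : ℂ) := by
    rw [hY]; exact int_r hφ rY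
  have i1 : Integrable (fun z => φ z * (X z * Y z)) :=
    Pool.Agent.W311.RW.int_mul H.op hφ (cX.mul cY)
  have i2 : Integrable (fun z => φ z * X z) := Pool.Agent.W311.RW.int_mul H.op hφ cX
  have i3 : Integrable (fun z => φ z * Y z) := Pool.Agent.W311.RW.int_mul H.op hφ cY
  have i4 : Integrable φ := hφ.1.continuous.integrable_of_hasCompactSupport hφ.2.1
  have e6 : ∫ z, φ z * (XL (ra h κ) w b n z * XL (ra h κ) v c n z) =
      (∫ z, φ z * (X z * Y z)) - vb * (∫ z, φ z * Y z) - vc * (∫ z, φ z * X z) + vb * vc * I0 := by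
    have j1 : Integrable (fun z => φ z * (X z * Y z) - vb * (φ z * Y z)) :=
      i1.sub (i3.const_mul _)
    have j2 : Integrable (fun z => φ z * (X z * Y z) - vb * (φ z * Y z) - vc * (φ z * X z)) :=
      j1.sub (i2.const_mul _)
    rw [hI0, ← integral_const_mul, ← integral_const_mul, ← integral_const_mul,
      ← integral_sub i1 (i3.const_mul _), ← integral_sub j1 (i2.const_mul _),
      ← integral_add j2 (i4.const_mul _)]
    congr 1; funext z
    simp only [XL, ← hvb, ← hvc]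
    have x1 : (LM (ra h κ) w w (aeval ps b) n z).re = X z := by rw [hX]; rfl
    have x2 : (LM (ra h κ) v v (aeval ps c) n z).re = Y z := by rw [hY]; rfl
    rw [x1, x2]
    ring
  rw [sub_re, e2, ofReal_re, Ev_D5, q2, p2, e3, e4, e5, e6, ← hvb, ← hvc]
  simp only [sub_re, ← ofReal_mul, ofReal_re]
  ring

/-- an odd symbol -/
def po (U : Polynomial A) : R1 := algebraMap A R1 (Polynomial.C (1 / 2)) * (tt - tt') * pe U

/-- the mean square of an odd symbol -/
def gs (U : Polynomial A) (ρ : ℝ) : ℝ :=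
  1 / (2 * π) * ∫ θ in (0 : ℝ)..(2 * π), (Real.sin θ * ev2 ρ (Real.cos θ) U) ^ 2

/-- the polynomial `(1 - x²) U(x)²` -/
def wU (U : Polynomial A) : Polynomial A := (1 - Polynomial.X ^ 2) * U ^ 2

lemma inv_po (U : Polynomial A) : inv1 (po U) = -po U := by
  unfold po
  rw [map_mul, map_mul, map_sub, AlgHom.commutes, inv_pe]
  unfold tt tt'
  rw [inv_single, inv_single, neg_neg]
  ring

lemma kn_po (U : Polynomial A) : JK kn (po U) = -JK kx (po U) := by
  unfold po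
  rw [map_mul, map_mul, map_sub, AlgHom.commutes, map_mul, map_mul, map_sub, AlgHom.commutes,
    JK_pe kn, kn_cx, ← JK_pe kx]
  have e1 : JK kn tt = JK kx tt' := by rw [JK_t, JK_t']; rfl
  have e2 : JK kn tt' = JK kx tt := by
    rw [JK_t, JK_t']
    have : (kn (-1)) = (kx 1) := rfl
    rw [this]
  rw [e1, e2]
  ring

lemma half_sq : (algebraMap A R1 (Polynomial.C (1 / 2))) * 2 = 1 := by
  have : (2 : R1) = algebraMap A R1 2 := (map_ofNat _ 2).symm
  rw [this, ← map_mul, ← map_one (algebraMap A R1)]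
  congr 1
  have : (2 : A) = Polynomial.C 2 := rfl
  rw [this, ← Polynomial.C_mul]
  norm_num

lemma po_sq (U : Polynomial A) : po U * po U = -pe (wU U) := by
  have t1 : tt * tt' = 1 := by
    unfold tt tt'
    rw [AddMonoidAlgebra.single_mul_single, mul_one, add_neg_cancel]
    rfl
  have e1 : pe (wU U) = (1 - cx ^ 2) * (pe U) ^ 2 := by
    unfold pe wU
    rw [map_mul, map_sub, map_pow, map_pow, map_one, Polynomial.aeval_X]
  rw [e1]
  unfold po
  have e2 : cx = algebraMap A R1 (Polynomial.C (1 / 2)) * (tt + tt') := rfl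
  rw [e2]
  obtain ⟨q, hq⟩ : ∃ q, q = algebraMap A R1 (Polynomial.C (1 / 2)) := ⟨_, rfl⟩
  have h2 := half_sq
  rw [← hq] at h2 ⊢
  linear_combination (-(4 * q ^ 2 * (pe U) ^ 2)) * t1 - (2 * q + 1) * (pe U) ^ 2 * h2

lemma ch_sin (θ : ℝ) : ch θ 1 - ch θ (-1) = 2 * I * ((Real.sin θ : ℝ) : ℂ) := by
  unfold ch
  push_cast
  rw [Complex.sin]
  have : I * I = -1 := I_mul_I
  have e1 : (1 : ℂ) * (θ * I) = θ * I := one_mul _
  have e2 : (-1 : ℂ) * (θ * I) = -θ * I := by ring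
  rw [e1, e2]
  linear_combination (-(cexp (-θ * I) - cexp (θ * I))) * this

lemma ct_po (U : Polynomial A) (n : ℕ) :
    ct ρ (po U * po U) n = ((-gs U (ρ n) : ℝ) : ℂ) := by
  rw [ct_eq]
  have e : ∀ θ : ℝ, Ev ρ (fun m _ => ch θ m) (po U * po U) n =
      ((-(Real.sin θ * ev2 (ρ n) (Real.cos θ) U) ^ 2 : ℝ) : ℂ) := by
    intro θ
    have hχ : ∀ (a b : ℤ) (_ : ℕ), ch θ (a + b) = ch θ a * ch θ b := fun a b _ => ch_add θ a b
    have h1 : Ev ρ (fun m _ => ch θ m) cx n = ((Real.cos θ : ℝ) : ℂ) := by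
      rw [Ev_cx (χ := fun m _ => ch θ m) hχ (ch_zero θ), ch_cos]
      push_cast; ring
    have h2 : Ev ρ (fun m _ => ch θ m) (pe U) n = ((ev2 (ρ n) (Real.cos θ) U : ℝ) : ℂ) :=
      Ev_aeval (χ := fun m _ => ch θ m) hχ (ch_zero θ) h1 U
    have h3 : Ev ρ (fun m _ => ch θ m) (tt - tt') n = 2 * I * ((Real.sin θ : ℝ) : ℂ) := by
      rw [Ev_sub]
      unfold tt tt'
      rw [Ev_single, Ev_single, ← ch_sin]
      simp
    unfold po
    rw [Ev_char (χ := fun m _ => ch θ m) hχ, Ev_char (χ := fun m _ => ch θ m) hχ,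
      Ev_char (χ := fun m _ => ch θ m) hχ, Ev_alg (χ := fun m _ => ch θ m) (ch_zero θ), h2, h3]
    push_cast
    have : I * I = -1 := I_mul_I
    rw [Polynomial.eval_C]
    push_cast
    linear_combination ((Complex.sin θ) ^ 2 * ((ev2 (ρ n) (Real.cos θ) U : ℝ) : ℂ) ^ 2) * this
  simp only [e]
  rw [intervalIntegral.integral_ofReal, intervalIntegral.integral_neg]
  unfold gs
  push_cast; ring

include H H' in
lemma mix_nonpos {φ : ℂ → ℝ} (hφ : TF B φ) (p0 : ∀ z, 0 ≤ φ z) (U : Polynomial A) (n : ℕ) :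
    (∫ z, (φ z : ℂ) * (LM ρ w v (po U) n z * LM ρ w v (po U) n z)).re ≤ 0 := by
  have cX : ContinuousOn (fun z => LM ρ w v (po U) n z) B := (LM_sm H H' _ _ n).continuousOn
  have i1 := TF.cint hφ (cX.mul cX)
  have r1 : (∫ z, (φ z : ℂ) * (LM ρ w v (po U) n z * LM ρ w v (po U) n z)).re =
      ∫ z, ((φ z : ℂ) * (LM ρ w v (po U) n z * LM ρ w v (po U) n z)).re := (integral_re i1).symm
  rw [r1]
  refine integral_nonpos fun z => ?_
  show ((φ z : ℂ) * (LM ρ w v (po U) n z * LM ρ w v (po U) n z)).re ≤ 0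
  by_cases hz : z ∈ B
  · have h1 := LM_inv (ρ := ρ) H H' (po U) n hz
    rw [inv_po] at h1
    have h2 : LM ρ w v (-po U) n z = -LM ρ w v (po U) n z := by
      have := LM_add (ρ := ρ) (w := w) (v := v) (po U) (-po U) n z
      rw [add_neg_cancel, LM_zero] at this
      linear_combination -this
    rw [h2] at h1
    have h3 : (LM ρ w v (po U) n z).re = 0 := by
      have := congrArg Complex.re h1
      rw [conj_re, neg_re] at this
      linarith
    rw [re_ofReal_mul, mul_re, h3]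
    have := p0 z
    nlinarith [mul_self_nonneg (LM ρ w v (po U) n z).im]
  · rw [TF.zero hφ hz]; simp

include H H' hBU hC in
/-- the mean square of the odd mixed expression -/
theorem mixo (h0 : EX B h w (w 0)) (k0 : EX B κ v (v 0)) {φ : ℂ → ℝ} (hφ : TF B φ)
    (U : Polynomial A) : Tendsto (fun n => (∫ z, (φ z : ℂ) * (LM (ra h κ) w v (po U) n z *
      LM (ra h κ) w v (po U) n z)).re + gs U (ra h κ n) * (∫ z, φ z) -
      (Ev (ra h κ) (FF (r5 φ w v)) (JK kx (pe (wU U))) n).re) atTop (𝓝 0) := by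
  have R := rel2 H H' hBU hC h0 k0 hφ
  have n1 := null_rep (red_pair R g1 g2 kx kn (fun m l => by
      show m + 0 + (0 + l) + (-m + 0) + (0 + -l) = 0
      ring) (fun m l => by
      show m + 0 + (-m + 0) = 0 + 0
      ring) (fun m l => by
      show m + 0 + (0 + -l) = m + -l
      ring) (po U) (po U))
  refine n1.congr fun n => ?_
  have e1 : JK kx (po U) * JK kn (po U) = JK kx (pe (wU U)) := by
    have e0 : JK kx (po U) * -JK kx (po U) = -(JK kx (po U) * JK kx (po U)) := by ring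
    rw [kn_po, e0, ← map_mul, po_sq]
    have e3 : JK kx (-pe (wU U)) = -JK kx (pe (wU U)) := map_neg _ _
    rw [e3]
    ring
  have cw := fun m n => (H.bd m).co n
  have cv := fun m n => (H'.bd m).co n
  have p1 := Ev_prod (ρ := ra h κ) hφ cw cv cw cv (D := J4 φ w v) (g := g1) (g' := g2)
    (fun m k n => J4_1 φ m k n) (po U) (po U) n
  have q1 : Ev (ra h κ) (fun m _ => G4 m) (JJ g1 (po U) * JJ g2 (po U)) n =
      ((-gs U (ra h κ n) : ℝ) : ℂ) := by
    rw [Ev_J2, ← ct_po (ρ := ra h κ) U n]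
    unfold ct
    rw [Ev_pair]
    refine Ev_cg _ n fun m => Ev_cg _ n fun k => G4_1 m k
  have e2 : Ev (ra h κ) (fun (m : Z4) n => ((r5 φ w v m.1 m.2.1 m.2.2.1 m.2.2.2 n : ℝ) : ℂ))
      (JJ g1 (po U) * JJ g2 (po U)) n = (((Ev (ra h κ) (D5 φ w v)
        (JJ g1 (po U) * JJ g2 (po U)) n).re : ℝ) : ℂ) := Ev_re (D5 φ w v) _ n
  rw [sub_re, e1, e2, ofReal_re, Ev_D5, q1, p1, sub_re, ← ofReal_mul, ofReal_re]
  ring

end

end Pool.Agent.H25JM
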