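import Pool.Agent.H25JM.Tg

/-!
# The cost of the targets
-/

set_option autoImplicit false
set_option linter.unusedSectionVars false
open MeasureTheory Filter Topology
open scoped Real

namespace Pool.Agent.H25JM

open Pool.Agent.K13.TP

noncomputable section

/-- the derivative of the angle -/
def RR (k v : ℝ) : ℝ := k * Real.sin v / √(1 - k ^ 2 * Real.cos v ^ 2)

/-- the angle -/
def UU (k v : ℝ) : ℝ := Real.arccos (k * Real.cos v)

/-- the constant of the theorem -/
def dk (k : ℝ) : ℝ := 2 / π * ∫ v in (0 : ℝ)..(π / 2), min (1 - RR k v) (2 * √(RR k v))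

lemma sin_nn {v : ℝ} (h0 : 0 ≤ v) (h1 : v ≤ π / 2) : 0 ≤ Real.sin v :=
  Real.sin_nonneg_of_nonneg_of_le_pi h0 (by linarith [Real.pi_pos])

lemma cos2_0 (v : ℝ) : 0 ≤ Real.cos v ^ 2 := sq_nonneg _
lemma cos2_1 (v : ℝ) : Real.cos v ^ 2 ≤ 1 := Real.cos_sq_le_one v

section

variable {k : ℝ} (hk0 : 0 < k) (hk1 : k < 1)

include hk0 hk1 in
lemma dp (v : ℝ) : 0 < 1 - k ^ 2 * Real.cos v ^ 2 := by
  have h1 := cos2_0 v
  have h2 := cos2_1 v
  have h3 : k ^ 2 < 1 := by nlinarith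
  nlinarith

include hk0 hk1 in
lemma RR_co : Continuous (RR k) := by
  unfold RR
  refine (continuous_const.mul Real.continuous_sin).div (by fun_prop) fun v => ?_
  exact (Real.sqrt_pos.2 (dp hk0 hk1 v)).ne'

lemma RR_rs {v : ℝ} (h0 : 0 ≤ v) (h1 : v ≤ π / 2) : rs k (Real.cos v ^ 2) = RR k v := by
  unfold rs RR
  rw [cl_id (cos2_0 v) (cos2_1 v)]
  have : 1 - Real.cos v ^ 2 = Real.sin v ^ 2 := by rw [Real.sin_sq]
  rw [this, Real.sqrt_sq (sin_nn h0 h1)]

include hk0 hk1 in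
lemma UU_der (v : ℝ) : HasDerivAt (UU k) (RR k v) v := by
  have h := dp hk0 hk1 v
  have h1 : k * Real.cos v ≠ -1 := by
    intro hc
    have : k ^ 2 * Real.cos v ^ 2 = 1 := by rw [← mul_pow, hc]; norm_num
    linarith
  have h2 : k * Real.cos v ≠ 1 := by
    intro hc
    have : k ^ 2 * Real.cos v ^ 2 = 1 := by rw [← mul_pow, hc]; norm_num
    linarith
  have d1 := (Real.hasDerivAt_arccos h1 h2).comp v ((Real.hasDerivAt_cos v).const_mul k)
  have e : -(1 / √(1 - (k * Real.cos v) ^ 2)) * (k * -Real.sin v) = RR k v := by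
    unfold RR
    rw [mul_pow]
    ring
  rw [e] at d1
  exact d1

include hk0 hk1 in
lemma UU_cos (v : ℝ) : Real.cos (UU k v) = k * Real.cos v ∧
    Real.sin (UU k v) = √(1 - k ^ 2 * Real.cos v ^ 2) := by
  unfold UU
  have h1 := Real.neg_one_le_cos v
  have h2 := Real.cos_le_one v
  refine ⟨Real.cos_arccos (by nlinarith) (by nlinarith), ?_⟩
  rw [Real.sin_arccos, mul_pow]

include hk0 hk1 in
lemma pt {v : ℝ} (h0 : 0 ≤ v) (h1 : v ≤ π / 2) (N : ℝ) :
    EE k N (Real.cos (π - UU k v - v)) ^ 2 = ki N (Real.cos v ^ 2) ∧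
    EE k N (Real.cos (π - UU k v + v)) ^ 2 =
      2 * ww k N (Real.cos v ^ 2) - ki N (Real.cos v ^ 2) := by
  obtain ⟨u1, u2⟩ := UU_cos hk0 hk1 v
  have hd := dp hk0 hk1 v
  obtain ⟨w, hw⟩ : ∃ w, w = Real.sin v * √(1 - k ^ 2 * Real.cos v ^ 2) := ⟨_, rfl⟩
  have e1 : Real.cos (π - UU k v - v) = -(k * Real.cos v ^ 2) + w := by
    rw [show π - UU k v - v = π - (UU k v + v) by ring, Real.cos_pi_sub, Real.cos_add, u1, u2, hw]
    ring
  have e2 : Real.cos (π - UU k v + v) = -(k * Real.cos v ^ 2) - w := by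
    rw [show π - UU k v + v = π - (UU k v - v) by ring, Real.cos_pi_sub, Real.cos_sub, u1, u2, hw]
    ring
  have w0 : 0 ≤ w := by rw [hw]; exact mul_nonneg (sin_nn h0 h1) (Real.sqrt_nonneg _)
  have w2 : w ^ 2 = (1 - Real.cos v ^ 2) * (1 - k ^ 2 * Real.cos v ^ 2) := by
    rw [hw, mul_pow, Real.sq_sqrt hd.le, Real.sin_sq]
  obtain ⟨⟨a1, a2⟩, a3, a4⟩ := crv hk0 hk1 (cos2_0 v) (cos2_1 v) w0 w2
  rw [e1, e2, EE_hi a1, EE_lo hk0 hk1 a3, a2, a4]
  exact ⟨rfl, rfl⟩

/-- symmetry -/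
lemma ms_cos {f : ℝ → ℝ} (hf : Continuous f) :
    ms (fun θ => f (Real.cos θ)) = 1 / π * ∫ θ in (0 : ℝ)..π, f (Real.cos θ) ^ 2 := by
  unfold ms
  have c : Continuous fun θ => f (Real.cos θ) ^ 2 := (hf.comp Real.continuous_cos).pow 2
  have h1 : ∫ θ in π..(2 * π), f (Real.cos θ) ^ 2 = ∫ θ in (0 : ℝ)..π, f (Real.cos θ) ^ 2 := by
    have := intervalIntegral.integral_comp_sub_left (a := 0) (b := π)
      (fun θ => f (Real.cos θ) ^ 2) (2 * π)
    rw [show 2 * π - π = π by ring, sub_zero] at this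
    rw [← this]
    refine intervalIntegral.integral_congr fun θ _ => ?_
    show f (Real.cos (2 * π - θ)) ^ 2 = f (Real.cos θ) ^ 2
    rw [Real.cos_two_pi_sub]
  rw [← intervalIntegral.integral_add_adjacent_intervals (c.intervalIntegrable 0 π)
    (c.intervalIntegrable π (2 * π)), h1]
  have := Real.pi_pos
  field_simp
  ring

lemma ms_two {f : ℝ → ℝ} (hf : Continuous f) :
    ms (fun θ => f (2 + 2 * Real.cos θ)) =
      2 / π * ∫ v in (0 : ℝ)..(π / 2), f (4 * Real.cos v ^ 2) ^ 2 := by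
  have h1 := ms_cos (f := fun x => f (2 + 2 * x)) (hf.comp (by fun_prop))
  rw [h1]
  have h2 := intervalIntegral.integral_comp_mul_left (a := 0) (b := π / 2) (c := 2)
    (fun θ => f (2 + 2 * Real.cos θ) ^ 2) two_ne_zero
  rw [mul_zero, show 2 * (π / 2) = π by ring, smul_eq_mul] at h2
  have h3 : ∫ v in (0 : ℝ)..(π / 2), f (4 * Real.cos v ^ 2) ^ 2 =
      ∫ v in (0 : ℝ)..(π / 2), f (2 + 2 * Real.cos (2 * v)) ^ 2 := by
    refine intervalIntegral.integral_congr fun v _ => ?_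
    show f (4 * Real.cos v ^ 2) ^ 2 = f (2 + 2 * Real.cos (2 * v)) ^ 2
    rw [Real.cos_two_mul]
    congr 2; ring
  rw [h3, h2]
  have := Real.pi_pos
  field_simp

include hk0 hk1 in
lemma UU_0 : UU k 0 = Real.arccos k := by unfold UU; rw [Real.cos_zero, mul_one]
include hk0 hk1 in
lemma UU_1 : UU k (π / 2) = π / 2 := by
  unfold UU; rw [Real.cos_pi_div_two, mul_zero, Real.arccos_zero]

include hk0 hk1 in
/-- substitution -/
lemma sub1 {f : ℝ → ℝ} (hf : Continuous f) :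
    ∫ θ in (0 : ℝ)..(π - Real.arccos k), f θ =
      ∫ v in (0 : ℝ)..(π / 2), f (π - UU k v - v) * (RR k v + 1) := by
  have h := intervalIntegral.integral_comp_mul_deriv (a := 0) (b := π / 2)
    (f := fun v => π - UU k v - v) (f' := fun v => -(RR k v + 1)) (g := f)
    (fun v _ => by
      have := ((UU_der hk0 hk1 v).const_sub π).sub (hasDerivAt_id v)
      rw [show -(RR k v + 1) = -RR k v - 1 by ring]
      exact this) ((RR_co hk0 hk1).add continuous_const).neg.continuousOn hf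
  rw [UU_0 hk0 hk1, UU_1 hk0 hk1, show π - π / 2 - π / 2 = 0 by ring, sub_zero] at h
  rw [intervalIntegral.integral_symm, ← h, ← intervalIntegral.integral_neg]
  refine intervalIntegral.integral_congr fun v _ => ?_
  show -(f (π - UU k v - v) * -(RR k v + 1)) = _
  ring

include hk0 hk1 in
/-- substitution -/
lemma sub2 {f : ℝ → ℝ} (hf : Continuous f) :
    ∫ θ in (π - Real.arccos k)..π, f θ =
      ∫ v in (0 : ℝ)..(π / 2), f (π - UU k v + v) * (1 - RR k v) := by
  have h := intervalIntegral.integral_comp_mul_deriv (a := 0) (b := π / 2)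
    (f := fun v => π - UU k v + v) (f' := fun v => 1 - RR k v) (g := f)
    (fun v _ => by
      have := ((UU_der hk0 hk1 v).const_sub π).add (hasDerivAt_id v)
      rw [show 1 - RR k v = -RR k v + 1 by ring]
      exact this) (continuous_const.sub (RR_co hk0 hk1)).continuousOn hf
  rw [UU_0 hk0 hk1, UU_1 hk0 hk1, show π - π / 2 + π / 2 = π by ring, add_zero] at h
  exact h.symm

include hk0 hk1 in
/-- substitution -/
lemma sub3 {f : ℝ → ℝ} (hf : Continuous f) :
    ∫ θ in (Real.arccos k)..(π / 2), f θ =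
      ∫ v in (0 : ℝ)..(π / 2), f (UU k v) * RR k v := by
  have h := intervalIntegral.integral_comp_mul_deriv (a := 0) (b := π / 2)
    (f := UU k) (f' := RR k) (g := f)
    (fun v _ => UU_der hk0 hk1 v) (RR_co hk0 hk1).continuousOn hf
  rw [UU_0 hk0 hk1, UU_1 hk0 hk1] at h
  exact h.symm

include hk0 hk1 in
lemma ki_c2 (N : ℝ) : Continuous fun v => ki N (Real.cos v ^ 2) :=
  (ki_co N).comp (by fun_prop)
include hk0 hk1 in
lemma ww_c2 (N : ℝ) : Continuous fun v => ww k N (Real.cos v ^ 2) :=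
  (ww_co hk0 hk1 N).comp (by fun_prop)

include hk0 hk1 in
lemma costE (N : ℝ) : ms (fun θ => EE k N (Real.cos θ)) =
    1 / π * ((∫ v in (0 : ℝ)..(π / 2), ki N (Real.cos v ^ 2) * (RR k v + 1)) +
      ∫ v in (0 : ℝ)..(π / 2), (2 * ww k N (Real.cos v ^ 2) - ki N (Real.cos v ^ 2)) *
        (1 - RR k v)) := by
  have c : Continuous fun θ => EE k N (Real.cos θ) ^ 2 :=
    ((EE_co hk0 hk1 N).comp Real.continuous_cos).pow 2
  have hp := Real.pi_pos
  rw [ms_cos (EE_co hk0 hk1 N), ← intervalIntegral.integral_add_adjacent_intervals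
    (c.intervalIntegrable 0 (π - Real.arccos k)) (c.intervalIntegrable (π - Real.arccos k) π),
    sub1 hk0 hk1 c, sub2 hk0 hk1 c]
  congr 2
  · refine intervalIntegral.integral_congr fun v hv => ?_
    rw [Set.uIcc_of_le (by positivity)] at hv
    show EE k N (Real.cos (π - UU k v - v)) ^ 2 * (RR k v + 1) = _
    rw [(pt hk0 hk1 hv.1 hv.2 N).1]
  · refine intervalIntegral.integral_congr fun v hv => ?_
    rw [Set.uIcc_of_le (by positivity)] at hv
    show EE k N (Real.cos (π - UU k v + v)) ^ 2 * (1 - RR k v) = _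
    rw [(pt hk0 hk1 hv.1 hv.2 N).2]

include hk0 hk1 in
lemma costC {η : ℝ} (hη : 0 < η) (N : ℝ) : ms (fun θ => Ct k η N (2 + 2 * Real.cos θ)) =
    2 / π * ∫ v in (0 : ℝ)..(π / 2), (1 - ww k N (Real.cos v ^ 2)) * √(RR k v + η) := by
  have hp := Real.pi_pos
  rw [ms_two (tgt hk0 hk1 (N := N) hη).cC]
  congr 1
  refine intervalIntegral.integral_congr fun v hv => ?_
  rw [Set.uIcc_of_le (by positivity)] at hv
  show Ct k η N (4 * Real.cos v ^ 2) ^ 2 = _
  rw [Ct_sq, RR_rs hv.1 hv.2]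

include hk0 hk1 in
lemma costB {η : ℝ} (hη : 0 < η) (N : ℝ) : ms (fun θ => Bt k η N (2 + 2 * Real.cos θ)) =
    2 / π * ∫ v in (0 : ℝ)..(π / 2), (1 - ww k N (Real.cos v ^ 2)) / √(RR k v + η) * RR k v := by
  have hp := Real.pi_pos
  have cB := (tgt hk0 hk1 (N := N) hη).cB
  have c : Continuous fun v => Bt k η N (4 * Real.cos v ^ 2) ^ 2 :=
    (cB.comp (by fun_prop)).pow 2
  have ha : 0 ≤ Real.arccos k := Real.arccos_nonneg k
  have ha2 : Real.arccos k ≤ π := Real.arccos_le_pi k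
  have h1 : ∫ v in (0 : ℝ)..(Real.arccos k), Bt k η N (4 * Real.cos v ^ 2) ^ 2 = 0 := by
    have : ∫ v in (0 : ℝ)..(Real.arccos k), Bt k η N (4 * Real.cos v ^ 2) ^ 2 =
        ∫ _v in (0 : ℝ)..(Real.arccos k), (0 : ℝ) := by
      refine intervalIntegral.integral_congr fun v hv => ?_
      rw [Set.uIcc_of_le ha] at hv
      show Bt k η N (4 * Real.cos v ^ 2) ^ 2 = 0
      have h2 : k ≤ Real.cos v := by
        have := Real.cos_le_cos_of_nonneg_of_le_pi hv.1 ha2 hv.2
        rwa [Real.cos_arccos (by linarith) hk1.le] at this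
      rw [Bt_zero hk0 (by nlinarith)]
      norm_num
    rw [this]; simp
  rw [ms_two cB, ← intervalIntegral.integral_add_adjacent_intervals
    (c.intervalIntegrable 0 (Real.arccos k)) (c.intervalIntegrable (Real.arccos k) (π / 2)),
    h1, zero_add, sub3 hk0 hk1 c]
  congr 1
  refine intervalIntegral.integral_congr fun v hv => ?_
  rw [Set.uIcc_of_le (by positivity)] at hv
  show Bt k η N (4 * Real.cos (UU k v) ^ 2) ^ 2 * RR k v = _
  rw [(UU_cos hk0 hk1 v).1, mul_pow, Bt_sq hk0, RR_rs hv.1 hv.2]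

end

/-- the pointwise bound -/
lemma ptw {r χ η N : ℝ} (hr0 : 0 ≤ r) (hη : 0 < η) (hN : 0 < N)
    (hχ0 : 0 ≤ χ) (hχ1 : χ ≤ 1) (hr1 : r ≤ 1) :
    1 / 2 * (χ * (r + 1) + (2 * max χ (cl (N * (2 * √r - (1 - r)))) - χ) * (1 - r)) +
      ((1 - max χ (cl (N * (2 * √r - (1 - r))))) / √(r + η) * r +
        (1 - max χ (cl (N * (2 * √r - (1 - r))))) * √(r + η)) ≤
      min (1 - r) (2 * √r) + (χ + (2 * √η + 1 / N)) := by
  obtain ⟨a, ha⟩ : ∃ a, a = max χ (cl (N * (2 * √r - (1 - r)))) := ⟨_, rfl⟩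
  rw [← ha]
  have a0 : 0 ≤ a := by rw [ha]; exact hχ0.trans (le_max_left _ _)
  have a1 : a ≤ 1 := by rw [ha]; exact max_le hχ1 (cl_le _)
  obtain ⟨q, hq⟩ : ∃ q, q = √(r + η) := ⟨_, rfl⟩
  have q0 : 0 < q := by rw [hq]; exact Real.sqrt_pos.2 (by linarith)
  have q2 : q ^ 2 = r + η := by rw [hq, Real.sq_sqrt (by linarith)]
  have q1 : q ≤ √r + √η := by
    rw [hq]
    refine Real.sqrt_le_iff.2 ⟨by positivity, ?_⟩
    have h1 := Real.sq_sqrt hr0
    have h2 := Real.sq_sqrt hη.le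
    have h3 : 0 ≤ √r * √η := by positivity
    nlinarith
  rw [← hq]
  have b1 : (1 - a) / q * r + (1 - a) * q ≤ (1 - a) * (2 * √r) + 2 * √η := by
    have h1 : r / q ≤ q := by rw [div_le_iff₀ q0]; nlinarith
    have h2 : (1 - a) / q * r = (1 - a) * (r / q) := by ring
    rw [h2]
    have h3 : (1 - a) * (r / q) ≤ (1 - a) * q := mul_le_mul_of_nonneg_left h1 (by linarith)
    have h4 : (1 - a) * q ≤ (1 - a) * (√r + √η) := mul_le_mul_of_nonneg_left q1 (by linarith)
    have h5 : (1 - a) * √η ≤ √η := mul_le_of_le_one_left (Real.sqrt_nonneg _) (by linarith)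
    nlinarith
  have hi : 0 < 1 / N := by positivity
  have sη := Real.sqrt_nonneg η
  have sr := Real.sqrt_nonneg r
  obtain ⟨p, hp⟩ : ∃ p, p = √r := ⟨_, rfl⟩
  rw [← hp] at ha b1 sr ⊢
  rcases le_total (2 * p) (1 - r) with h | h
  · have h1 : cl (N * (2 * p - (1 - r))) = 0 := cl_zero (by nlinarith)
    rw [h1, max_eq_left hχ0] at ha
    rw [min_eq_right h, ha]
    rw [ha] at b1
    nlinarith
  · rw [min_eq_left h]
    obtain ⟨z, hz⟩ : ∃ z, z = 2 * p - (1 - r) := ⟨_, rfl⟩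
    have z0 : 0 ≤ z := by linarith
    rw [← hz] at ha
    have h2 : (1 - a) * z ≤ 1 / N := by
      rcases le_total (N * z) 1 with h3 | h3
      · have h4 : z ≤ 1 / N := by rw [le_div_iff₀ hN]; linarith
        nlinarith
      · have h4 : a = 1 := by
          refine le_antisymm a1 ?_
          rw [ha, cl_one h3]; exact le_max_right _ _
        rw [h4]; simp; positivity
    have h5 : χ * r ≤ χ := mul_le_of_le_one_right hχ0 hr1
    nlinarith

/-- the cutoff has small support -/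
lemma ki_lim : Tendsto (fun N : ℕ => ∫ v in (0 : ℝ)..(π / 2), ki (N : ℝ) (Real.cos v ^ 2)) atTop
    (𝓝 0) := by
  have key : Tendsto (fun N : ℕ => ∫ v in (0 : ℝ)..(π / 2), ki (N : ℝ) (Real.cos v ^ 2)) atTop
      (𝓝 (∫ _v in (0 : ℝ)..(π / 2), (0 : ℝ))) := by
    refine intervalIntegral.tendsto_integral_filter_of_dominated_convergence (fun _ => 1)
      (Eventually.of_forall fun N => ?_) (Eventually.of_forall fun N => ae_of_all _ fun v _ => ?_)
      (continuous_const.intervalIntegrable _ _) ?_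
    · exact ((ki_co (N : ℝ)).comp (by fun_prop : Continuous fun v : ℝ =>
        Real.cos v ^ 2)).aestronglyMeasurable
    · rw [Real.norm_eq_abs, abs_of_nonneg (ki_nn _ _)]
      exact ki_le _ _
    · have h6 : ∀ᵐ v : ℝ, v ∉ ({π / 2} : Set ℝ) :=
        measure_eq_zero_iff_ae_notMem.1 ((Set.countable_singleton _).measure_zero volume)
      filter_upwards [h6] with v hv hI
      rw [Set.uIoc_of_le (by positivity)] at hI
      have v1 : v < π / 2 := lt_of_le_of_ne hI.2 hv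
      have c0 : 0 < Real.cos v := Real.cos_pos_of_mem_Ioo ⟨by linarith [hI.1, Real.pi_pos], v1⟩
      have s0 : 0 < Real.sin v := Real.sin_pos_of_pos_of_lt_pi hI.1 (by linarith [Real.pi_pos])
      have c2 : 0 < Real.cos v ^ 2 := by positivity
      have s2 : 0 < 1 - Real.cos v ^ 2 := by
        have := Real.sin_sq_add_cos_sq v
        have : 0 < Real.sin v ^ 2 := by positivity
        linarith
      obtain ⟨M, hM⟩ := exists_nat_gt (2 / Real.cos v ^ 2)
      obtain ⟨M', hM'⟩ := exists_nat_gt (2 / (1 - Real.cos v ^ 2))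
      refine tendsto_const_nhds.congr' ?_
      filter_upwards [eventually_ge_atTop (max M M')] with N hN
      have n1 : (M : ℝ) ≤ N := by exact_mod_cast (le_max_left _ _).trans hN
      have n2 : (M' : ℝ) ≤ N := by exact_mod_cast (le_max_right _ _).trans hN
      rw [div_lt_iff₀ c2] at hM
      rw [div_lt_iff₀ s2] at hM'
      unfold ki
      rw [cl_id (x := Real.cos v ^ 2) c2.le (by linarith), cl_zero, cl_zero, max_self]
      · nlinarith
      · nlinarith
  simpa using key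

/-- **the total cost** -/
theorem cost {k : ℝ} (hk0 : 0 < k) (hk1 : k < 1) {ε : ℝ} (hε : 0 < ε) :
    ∃ E B C : ℝ → ℝ, Tgt k E B C ∧ ms (fun θ => E (Real.cos θ)) +
      ms (fun θ => B (2 + 2 * Real.cos θ)) + ms (fun θ => C (2 + 2 * Real.cos θ)) ≤ dk k + ε := by
  have hp := Real.pi_pos
  obtain ⟨η, hη⟩ : ∃ η, η = (ε / 8) ^ 2 := ⟨_, rfl⟩
  have η0 : 0 < η := by rw [hη]; positivity
  have sη : √η = ε / 8 := by rw [hη, Real.sqrt_sq (by positivity)]
  obtain ⟨N, h1, h2⟩ := ((ki_lim.eventually (gt_mem_nhds (show 0 < ε / 8 by positivity))).and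
    (eventually_gt_atTop ⌈8 / ε⌉₊)).exists
  obtain ⟨M, hM⟩ : ∃ M : ℝ, M = (N : ℝ) := ⟨_, rfl⟩
  rw [← hM] at h1
  have M8 : 8 / ε ≤ M := by
    rw [hM]
    exact (Nat.le_ceil _).trans (by exact_mod_cast h2.le)
  have M0 : 0 < M := lt_of_lt_of_le (by positivity) M8
  have M9 : 1 / M ≤ ε / 8 := by
    rw [div_le_iff₀ M0]
    rw [div_le_iff₀ hε] at M8
    linarith
  refine ⟨EE k M, Bt k η M, Ct k η M, tgt hk0 hk1 η0, ?_⟩
  rw [costE hk0 hk1, costB hk0 hk1 η0, costC hk0 hk1 η0]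
  have cR := RR_co hk0 hk1
  have ck := ki_c2 hk0 hk1 M
  have cw := ww_c2 hk0 hk1 M
  have cs : Continuous fun v => √(RR k v + η) :=
    Real.continuous_sqrt.comp (cR.add continuous_const)
  have Rn : ∀ v ∈ Set.Icc (0 : ℝ) (π / 2), 0 ≤ RR k v ∧ RR k v ≤ 1 := fun v hv => by
    rw [← RR_rs hv.1 hv.2]
    exact ⟨rs_nn hk0 _, (rs_le hk0 hk1 _).trans hk1.le⟩
  have i1 : IntervalIntegrable (fun v => ki M (Real.cos v ^ 2) * (RR k v + 1)) volume 0 (π / 2) :=
    (ck.mul (cR.add continuous_const)).intervalIntegrable _ _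
  have i2 : IntervalIntegrable (fun v => (2 * ww k M (Real.cos v ^ 2) - ki M (Real.cos v ^ 2)) *
      (1 - RR k v)) volume 0 (π / 2) :=
    (((continuous_const.mul cw).sub ck).mul (continuous_const.sub cR)).intervalIntegrable _ _
  have i3 : IntervalIntegrable (fun v => (1 - ww k M (Real.cos v ^ 2)) / √(RR k v + η) * RR k v)
      volume 0 (π / 2) := by
    refine ContinuousOn.intervalIntegrable ?_
    refine ((continuous_const.sub cw).continuousOn.div cs.continuousOn fun v hv => ?_).mul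
      cR.continuousOn
    rw [Set.uIcc_of_le (by positivity)] at hv
    have := (Rn v hv).1
    exact (Real.sqrt_pos.2 (by linarith)).ne'
  have i4 : IntervalIntegrable (fun v => (1 - ww k M (Real.cos v ^ 2)) * √(RR k v + η)) volume
      0 (π / 2) := ((continuous_const.sub cw).mul cs).intervalIntegrable _ _
  have e1 : 1 / π * ((∫ v in (0 : ℝ)..(π / 2), ki M (Real.cos v ^ 2) * (RR k v + 1)) +
      ∫ v in (0 : ℝ)..(π / 2), (2 * ww k M (Real.cos v ^ 2) - ki M (Real.cos v ^ 2)) *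
        (1 - RR k v)) + 2 / π * (∫ v in (0 : ℝ)..(π / 2),
        (1 - ww k M (Real.cos v ^ 2)) / √(RR k v + η) * RR k v) +
      2 / π * (∫ v in (0 : ℝ)..(π / 2), (1 - ww k M (Real.cos v ^ 2)) * √(RR k v + η)) =
      2 / π * ∫ v in (0 : ℝ)..(π / 2), (1 / 2 * (ki M (Real.cos v ^ 2) * (RR k v + 1) +
        (2 * ww k M (Real.cos v ^ 2) - ki M (Real.cos v ^ 2)) * (1 - RR k v)) +
        ((1 - ww k M (Real.cos v ^ 2)) / √(RR k v + η) * RR k v +
          (1 - ww k M (Real.cos v ^ 2)) * √(RR k v + η))) := by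
    rw [intervalIntegral.integral_add ((i1.add i2).const_mul _) (i3.add i4),
      intervalIntegral.integral_const_mul, intervalIntegral.integral_add i1 i2,
      intervalIntegral.integral_add i3 i4]
    ring
  rw [e1]
  have cm : Continuous fun v => min (1 - RR k v) (2 * √(RR k v)) :=
    (continuous_const.sub cR).min (continuous_const.mul (Real.continuous_sqrt.comp cR))
  have j1 : IntervalIntegrable (fun v => min (1 - RR k v) (2 * √(RR k v))) volume 0 (π / 2) :=
    cm.intervalIntegrable _ _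
  have j2 : IntervalIntegrable (fun v => ki M (Real.cos v ^ 2)) volume 0 (π / 2) :=
    ck.intervalIntegrable _ _
  have j3 : IntervalIntegrable (fun _ : ℝ => 2 * √η + 1 / M) volume 0 (π / 2) :=
    continuous_const.intervalIntegrable _ _
  have m1 := intervalIntegral.integral_mono_on (a := 0) (b := π / 2) (by positivity)
    (((i1.add i2).const_mul (1 / 2)).add (i3.add i4)) (j1.add (j2.add j3)) fun v hv => by
      have r := Rn v hv
      have hw : ww k M (Real.cos v ^ 2) = max (ki M (Real.cos v ^ 2))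
          (cl (M * (2 * √(RR k v) - (1 - RR k v)))) := by
        unfold ww; rw [RR_rs hv.1 hv.2]
      rw [hw]
      exact ptw (r := RR k v) (χ := ki M (Real.cos v ^ 2)) r.1 η0 M0 (ki_nn _ _) (ki_le _ _) r.2
  have e2 : ∫ v in (0 : ℝ)..(π / 2), (min (1 - RR k v) (2 * √(RR k v)) +
      (ki M (Real.cos v ^ 2) + (2 * √η + 1 / M))) =
      (∫ v in (0 : ℝ)..(π / 2), min (1 - RR k v) (2 * √(RR k v))) +
      ((∫ v in (0 : ℝ)..(π / 2), ki M (Real.cos v ^ 2)) + π / 2 * (2 * √η + 1 / M)) := by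
    rw [intervalIntegral.integral_add j1 (j2.add j3), intervalIntegral.integral_add j2 j3,
      intervalIntegral.integral_const, smul_eq_mul, sub_zero]
  rw [e2] at m1
  have hp2 : (0 : ℝ) ≤ 2 / π := by positivity
  refine (mul_le_mul_of_nonneg_left m1 hp2).trans ?_
  have e3 : 2 / π * ((∫ v in (0 : ℝ)..(π / 2), min (1 - RR k v) (2 * √(RR k v))) +
      ((∫ v in (0 : ℝ)..(π / 2), ki M (Real.cos v ^ 2)) + π / 2 * (2 * √η + 1 / M))) =
      dk k + (2 / π * (∫ v in (0 : ℝ)..(π / 2), ki M (Real.cos v ^ 2)) + (2 * √η + 1 / M)) := by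
    unfold dk
    field_simp
  rw [e3, sη]
  have h4 : 2 / π ≤ 1 := by
    rw [div_le_one hp]; linarith [Real.pi_gt_three]
  have h5 : 0 ≤ ∫ v in (0 : ℝ)..(π / 2), ki M (Real.cos v ^ 2) :=
    intervalIntegral.integral_nonneg (by positivity) fun v _ => ki_nn _ _
  have h6 : 2 / π * (∫ v in (0 : ℝ)..(π / 2), ki M (Real.cos v ^ 2)) ≤ ε / 8 :=
    (mul_le_of_le_one_left h5 h4).trans h1.le
  linarith

end

end Pool.Agent.H25JM
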