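import Pool.Agent.H25JM.Cost
import Pool.Agent.H25JM.Lowb
import Pool.Agent.K13.TP.Tri

/-!
# The lower bound for the joint fourth moment of two sequences of eigenfunctions
-/

set_option autoImplicit false
set_option linter.unusedSectionVars false
open MeasureTheory Filter Topology Complex Set
open scoped ContDiff Real Manifold

namespace Pool.Agent.H25JM

open Pool.Agent.W745.RW Pool.Agent.TH294.RS Pool.Agent.Y265.HY Pool.Agent.K13.TP
open Pool.Agent.R314.JN (QS)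
open Pool.Agent.Y265.HY.JC (hh)

noncomputable section

lemma gc_cont (F : Polynomial A) : Continuous (gc F) := by
  unfold gc
  refine continuous_const.mul ?_
  refine intervalIntegral.continuous_parametric_intervalIntegral_of_continuous'
    (f := fun ρ θ => (ev2 ρ (Real.cos θ) F) ^ 2) ?_ 0 (2 * π)
  refine Continuous.pow ?_ 2
  exact (ev2_cont F).comp (continuous_fst.prodMk (by fun_prop))

variable {Ω : Set ℂ} {lam mu : ℕ → ℝ} {u v : ℕ → ℂ → ℝ}

lemma hh_p (H : ∀ n, 0 < lam n) (n : ℕ) : 0 < hh lam n := by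
  have := Real.sqrt_pos.2 (H n)
  positivity

/-- comparability of the eigenvalues -/
lemma cmp_of (hl : ∀ n, 0 < lam n) (hm : ∀ n, 0 < mu n) {k : ℝ} (hk : 0 < k)
    (l1 : Tendsto (rh lam mu) atTop (𝓝 k)) : ∃ C, Cmp (hh lam) (hh mu) C := by
  obtain ⟨C1, h1⟩ := l1.bddAbove_range
  obtain ⟨C2, h2⟩ := (l1.inv₀ hk.ne').bddAbove_range
  refine ⟨max C1 C2, fun n => ?_, fun n => ?_⟩
  · have h3 : hh lam n / hh mu n ≤ C1 := h1 ⟨n, rfl⟩
    rw [div_le_iff₀ (hh_p hm n)] at h3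
    exact h3.trans (mul_le_mul_of_nonneg_right (le_max_left _ _) (hh_p hm n).le)
  · have h3 : (hh lam n / hh mu n)⁻¹ ≤ C2 := h2 ⟨n, rfl⟩
    rw [inv_div, div_le_iff₀ (hh_p hl n)] at h3
    exact h3.trans (mul_le_mul_of_nonneg_right (le_max_right _ _) (hh_p hl n).le)

/-- **the lower bound** -/
theorem low22 (op : IsOpen Ω) (hU : ∀ z ∈ Ω, 0 < z.im) (qu : QS Ω lam u) (qv : QS Ω mu v)
    {φ : ℂ → ℝ} (hφ : TF Ω φ) (p0 : ∀ z, 0 ≤ φ z) {k : ℝ} (hk0 : 0 < k) (hk1 : k < 1)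
    (l1 : Tendsto (rh lam mu) atTop (𝓝 k)) {ε : ℝ} (hε : 0 < ε) :
    ∀ᶠ n in atTop, (1 - dk k) * (∫ z, φ z) - ε ≤ ∫ z, φ z * (u n z ^ 2 * v n z ^ 2) := by
  obtain ⟨C, hC⟩ := cmp_of qu.pos qv.pos hk0 l1
  have H := qs_sy op hU qu
  have H' := qs_sy op hU qv
  obtain ⟨I0, hI⟩ : ∃ I0, I0 = ∫ z, φ z := ⟨_, rfl⟩
  have I0n : 0 ≤ I0 := by rw [hI]; exact integral_nonneg p0
  obtain ⟨δ, hδ⟩ : ∃ δ, δ = ε / (8 * (I0 + 1)) := ⟨_, rfl⟩
  have δ0 : 0 < δ := by rw [hδ]; positivity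
  have δI : δ * I0 ≤ ε / 8 := by
    have : δ * (I0 + 1) = ε / 8 := by rw [hδ]; field_simp
    nlinarith
  obtain ⟨E, Bf, Cf, T, hT⟩ := cost hk0 hk1 δ0
  obtain ⟨e, b, c, t, hid, b0, b4, c0, c4, ht, hcost⟩ := approx hk0 hk1 T δ0
  obtain ⟨er, her, hb⟩ := lowb H H' hU hC (qs_ex op hU qu) (qs_ex op hU qv) hφ p0
    Finset.univ e b c hid b0 b4 c0 c4 t ht
  have L1 : Tendsto (fun n => gc e (rh lam mu n) + ∑ i, (t i * gp (b i) (rh lam mu n) +
      (t i)⁻¹ * gp (c i) (rh lam mu n))) atTop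
      (𝓝 (gc e k + ∑ i, (t i * gp (b i) k + (t i)⁻¹ * gp (c i) k))) := by
    refine (((gc_cont e).tendsto k).comp l1).add (tendsto_finsetSum _ fun i _ => ?_)
    exact ((((gp_cont _).tendsto k).comp l1).const_mul (t i)).add
      ((((gp_cont _).tendsto k).comp l1).const_mul (t i)⁻¹)
  have E1 := L1.eventually (gt_mem_nhds (show _ < dk k + 3 * δ by linarith))
  have E2 := her.eventually (gt_mem_nhds (show 0 < ε / 2 by positivity))
  filter_upwards [E1, E2] with n n1 n2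
  have h1 := hb n
  have e1 : J4 φ (lw lam u) (lw mu v) (0, 0, 0, 0) n =
      ((∫ z, φ z * (u n z ^ 2 * v n z ^ 2) : ℝ) : ℂ) := by
    rw [← integral_complex_ofReal]
    simp only [J4]
    congr 1; funext z
    rw [lw0, lw0]
    push_cast; ring
  rw [e1, Complex.ofReal_re, ← hI] at h1
  rw [← hI]
  have h2 : (1 - dk k - 3 * δ) * I0 ≤ (1 - (gc e (rh lam mu n) +
      ∑ i, (t i * gp (b i) (rh lam mu n) + (t i)⁻¹ * gp (c i) (rh lam mu n)))) * I0 :=
    mul_le_mul_of_nonneg_right (by linarith) I0n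
  linarith

/-! ### bounds for the constant -/

section

variable {k : ℝ} (hk0 : 0 < k) (hk1 : k < 1)

include hk0 hk1 in
lemma RR_bd {v : ℝ} (hv : v ∈ Set.Icc (0 : ℝ) (π / 2)) : 0 ≤ RR k v ∧ RR k v ≤ k := by
  rw [← RR_rs hv.1 hv.2]
  exact ⟨rs_nn hk0 _, rs_le hk0 hk1 _⟩

include hk0 hk1 in
lemma dk_int {F : ℝ → ℝ} (hF : Continuous F)
    (h : ∀ v ∈ Set.Icc (0 : ℝ) (π / 2), min (1 - RR k v) (2 * √(RR k v)) ≤ F v) :
    dk k ≤ 2 / π * ∫ v in (0 : ℝ)..(π / 2), F v := by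
  have hp := Real.pi_pos
  have cR := RR_co hk0 hk1
  unfold dk
  refine mul_le_mul_of_nonneg_left ?_ (by positivity)
  refine intervalIntegral.integral_mono_on (by positivity) ?_ (hF.intervalIntegrable _ _) h
  exact ((continuous_const.sub cR).min (continuous_const.mul
    (Real.continuous_sqrt.comp cR))).intervalIntegrable _ _

include hk0 hk1 in
lemma dk_1 : 2 / π * Real.arcsin k ≤ 1 - dk k := by
  have hp := Real.pi_pos
  have cR := RR_co hk0 hk1
  have h1 := dk_int hk0 hk1 (F := fun v => 1 - RR k v) (continuous_const.sub cR)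
    fun v _ => min_le_left _ _
  have h2 : ∫ v in (0 : ℝ)..(π / 2), RR k v = π / 2 - Real.arccos k := by
    have := sub3 hk0 hk1 (f := fun _ => (1 : ℝ)) continuous_const
    simp only [one_mul] at this
    rw [← this]; simp
  have h3 : ∫ v in (0 : ℝ)..(π / 2), (1 - RR k v) = π / 2 - (π / 2 - Real.arccos k) := by
    rw [intervalIntegral.integral_sub (continuous_const.intervalIntegrable _ _)
      (cR.intervalIntegrable _ _), h2]
    simp
  rw [h3] at h1
  have h4 : Real.arccos k = π / 2 - Real.arcsin k := Real.arccos_eq_pi_div_two_sub_arcsin k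
  rw [h4] at h1
  have h5 : 2 / π * (π / 2 - (π / 2 - (π / 2 - Real.arcsin k))) = 1 - 2 / π * Real.arcsin k := by
    field_simp; ring
  linarith

include hk0 hk1 in
lemma dk_2 : 1 - 2 * √k ≤ 1 - dk k := by
  have hp := Real.pi_pos
  have h1 := dk_int hk0 hk1 (F := fun _ => 2 * √k) continuous_const fun v hv =>
    (min_le_right _ _).trans (mul_le_mul_of_nonneg_left
      (Real.sqrt_le_sqrt (RR_bd hk0 hk1 hv).2) two_pos.le)
  rw [intervalIntegral.integral_const, smul_eq_mul, sub_zero] at h1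
  have h5 : 2 / π * (π / 2 * (2 * √k)) = 2 * √k := by field_simp
  linarith

include hk0 hk1 in
lemma dk_3 : 3 - 2 * √2 ≤ 1 - dk k := by
  have hp := Real.pi_pos
  have h1 := dk_int hk0 hk1 (F := fun _ => 2 * √2 - 2) continuous_const fun v hv => by
    obtain ⟨r0, -⟩ := RR_bd hk0 hk1 hv
    obtain ⟨p, hp⟩ : ∃ p, p = √(RR k v) := ⟨_, rfl⟩
    have p0 : 0 ≤ p := by rw [hp]; exact Real.sqrt_nonneg _
    have p2 : RR k v = p ^ 2 := by rw [hp, Real.sq_sqrt r0]
    rw [← hp, p2]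
    have s2 : √2 ^ 2 = 2 := Real.sq_sqrt two_pos.le
    have s0 : 0 < √2 := Real.sqrt_pos.2 two_pos
    rcases le_total p (√2 - 1) with h | h
    · exact (min_le_right _ _).trans (by linarith)
    · refine (min_le_left _ _).trans ?_
      have s1 : 1 < √2 := by nlinarith
      nlinarith
  rw [intervalIntegral.integral_const, smul_eq_mul, sub_zero] at h1
  have h5 : 2 / π * (π / 2 * (2 * √2 - 2)) = 2 * √2 - 2 := by field_simp
  linarith

end

end

end Pool.Agent.H25JM
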