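import Pool.Agent.H25JM.Cor

/-!
# Mean squares of quadratic expressions in one ladder
-/

set_option autoImplicit false
set_option linter.unusedSectionVars false
open MeasureTheory Filter Topology Complex Set
open scoped ContDiff Real Manifold

namespace Pool.Agent.H25JM

open Pool.Agent.W745.RW Pool.Agent.TH294.RS Pool.Agent.Y265.HY Pool.Agent.K13.TP
open Polynomial (aeval)

noncomputable section

variable {B : Set ℂ} {h κ : ℕ → ℝ} {w v : ℤ → ℕ → ℂ → ℂ} {ρ : ℕ → ℝ}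

variable (H : SY B Complex.im h w) (H' : SY B Complex.im κ v) (hBU : B ⊆ UH)

include H hBU in
/-- **mean square of an expression in one ladder** -/
theorem msqg (h0 : EX B h w (w 0)) {φ : ℂ → ℝ} (hφ : TF B φ) {C : ℝ} (hρ : ∀ n, |ρ n| ≤ C)
    (F : Polynomial A) :
    Null (fun n => (∫ z, (φ z : ℂ) * (LM ρ w w (aeval ps F) n z * LM ρ w w (aeval ps F) n z)) -
      (((2 * gp F (ρ n) * (∫ z, φ z) : ℝ) : ℂ) +
        (1 / 3 * D4 w φ 0 0 0 0 n) * ((ev2 (ρ n) 4 F : ℝ) : ℂ) ^ 2 +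
        (2 / 3 * D4 w φ 0 0 0 0 n + ((∫ z, φ z : ℝ) : ℂ)) * ((ev2 (ρ n) 0 F : ℝ) : ℂ) ^ 2)) := by
  set I0 : ℂ := ((∫ z, φ z : ℝ) : ℂ) with hI0
  obtain ⟨a, ha⟩ : ∃ a, a = aeval ps F := ⟨_, rfl⟩
  have DDr : DD (D4 w φ) := dd4 H hBU h0 hφ
  obtain ⟨E, hE⟩ : ∃ E : ℤ → ℤ → ℕ → ℂ, E = fun m k n => D4 w φ m (-m) k (-k) n -
    Pool.Agent.W745.RW.eps m (-m) k (-k) * D4 w φ 0 0 0 0 n := ⟨_, rfl⟩
  have nE : ∀ m k, Null (E m k) := fun m k => by
    have := DDr.even m (-m) k (-k) 0 (by ring)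
    rw [hE]
    simpa using this
  have nE2 : Null (Ev ρ (fun m => Ev ρ (E m) a) a) :=
    Ev_null hρ (fun m => Ev_null hρ (nE m) a) a
  have cw := fun m n => (H.bd m).co n
  refine nE2.congr fun n => ?_
  have hJ : ∀ m k n, J4 φ w w (g12 m + g34 k) n =
      ∫ z, (φ z : ℂ) * ((w m n z * w (-m) n z) * (w k n z * w (-k) n z)) := by
    intro m k n
    have e : (g12 m + g34 k : Z4) = (m, -m, k, -k) := by
      show ((m + 0, -m + 0, 0 + k, 0 + -k) : Z4) = _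
      simp only [add_zero, zero_add]
    rw [e]
    rfl
  have e1 := Ev_prod (ρ := ρ) hφ cw cw cw cw (D := J4 φ w w) (g := g12) (g' := g34) hJ a a n
  rw [← ha, ← e1, Ev_J2]
  -- the four point function
  have e2 : ∀ m k, J4 φ w w (g12 m + g34 k) n = E m k n + ((1 / 3 * D4 w φ 0 0 0 0 n) * 1 +
      ((2 / 3 * D4 w φ 0 0 0 0 n + I0) * sg m) * sg k +
      I0 * ((if m + k = 0 then 1 else 0) + if m + -k = 0 then 1 else 0)) := by
    intro m k
    have d1 : D4 w φ m (-m) k (-k) n = (∫ z, (φ z : ℂ) * F4 w m (-m) k (-k) n z) -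
      Pool.Agent.W745.RW.GG m (-m) k (-k) * I0 := rfl
    have d2 : J4 φ w w (g12 m + g34 k) n = ∫ z, (φ z : ℂ) * F4 w m (-m) k (-k) n z := by
      rw [hJ]
      congr 1; funext z; simp only [F4]; ring
    rw [d2, hE]
    beta_reduce
    rw [d1, eps_z, GG_z]
    ring
  obtain ⟨v0, hv0⟩ : ∃ v0 : ℂ, v0 = ((ev2 (ρ n) 0 F : ℝ) : ℂ) := ⟨_, rfl⟩
  obtain ⟨v1, hv1⟩ : ∃ v1 : ℂ, v1 = ((ev2 (ρ n) 4 F : ℝ) : ℂ) := ⟨_, rfl⟩
  have w0 : Ev ρ (fun m _ => sg m) a n = v0 := by rw [ha, Ev_sg_ps, hv0]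
  have w1 : Ev ρ (fun _ _ => 1) a n = v1 := by rw [ha, Ev_one_ps, hv1]
  have e3 : ∀ m, Ev ρ (fun k n => J4 φ w w (g12 m + g34 k) n) a n = Ev ρ (E m) a n +
      ((1 / 3 * D4 w φ 0 0 0 0 n * v1) * 1 + ((2 / 3 * D4 w φ 0 0 0 0 n + I0) * v0) * sg m +
      (2 * I0) * Ev ρ (fun k _ => if m + k = 0 then 1 else 0) a n) := by
    intro m
    have f1 : Ev ρ (fun k n => J4 φ w w (g12 m + g34 k) n) a n =
        Ev ρ (fun k n' => E m k n' + ((1 / 3 * D4 w φ 0 0 0 0 n) * 1 +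
      ((2 / 3 * D4 w φ 0 0 0 0 n + I0) * sg m) * sg k +
      I0 * ((if m + k = 0 then 1 else 0) + if m + -k = 0 then 1 else 0))) a n :=
      Ev_cg a n fun k => e2 m k
    rw [f1, Ev_D (D := fun k n' => E m k n'), Ev_D (D := fun k n' => (1 / 3 * D4 w φ 0 0 0 0 n) * 1 +
      ((2 / 3 * D4 w φ 0 0 0 0 n + I0) * sg m) * sg k),
      Ev_D (D := fun k n' => (1 / 3 * D4 w φ 0 0 0 0 n) * 1),
      Ev_smulD (D := fun k _ => 1), Ev_smulD (D := fun k _ => sg k),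
      Ev_smulD (D := fun k _ => (if m + k = 0 then 1 else 0) + if m + -k = 0 then 1 else 0),
      Ev_D (D := fun k _ => if m + k = 0 then 1 else 0), w0, w1]
    have f2 : Ev ρ (fun k _ => if m + -k = 0 then 1 else 0) a n =
        Ev ρ (fun k _ => if m + k = 0 then 1 else 0) a n := by
      rw [ha]
      exact Ev_inv (fun k _ => if m + k = 0 then 1 else 0) F n
    rw [f2]
    ring
  have e4 : Ev ρ (fun m n => Ev ρ (fun k n => J4 φ w w (g12 m + g34 k) n) a n) a n =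
      Ev ρ (fun m n => Ev ρ (E m) a n) a n + ((1 / 3 * D4 w φ 0 0 0 0 n * v1) * v1 +
      ((2 / 3 * D4 w φ 0 0 0 0 n + I0) * v0) * v0 + (2 * I0) * ct ρ (a * a) n) := by
    have f1 : Ev ρ (fun m n => Ev ρ (fun k n => J4 φ w w (g12 m + g34 k) n) a n) a n =
        Ev ρ (fun m n' => Ev ρ (E m) a n' +
      ((1 / 3 * D4 w φ 0 0 0 0 n * v1) * 1 + ((2 / 3 * D4 w φ 0 0 0 0 n + I0) * v0) * sg m +
      (2 * I0) * Ev ρ (fun k _ => if m + k = 0 then 1 else 0) a n)) a n := Ev_cg a n e3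
    rw [f1, Ev_D (D := fun m n' => Ev ρ (E m) a n'),
      Ev_D (D := fun m n' => (1 / 3 * D4 w φ 0 0 0 0 n * v1) * 1 +
        ((2 / 3 * D4 w φ 0 0 0 0 n + I0) * v0) * sg m),
      Ev_D (D := fun m n' => (1 / 3 * D4 w φ 0 0 0 0 n * v1) * 1),
      Ev_smulD (D := fun m _ => 1), Ev_smulD (D := fun m _ => sg m),
      Ev_smulD (D := fun m _ => Ev ρ (fun k _ => if m + k = 0 then 1 else 0) a n), w0, w1]
    unfold ct
    rw [Ev_pair]
    rfl
  have e5 : ct ρ (a * a) n = ((gp F (ρ n) : ℝ) : ℂ) := by rw [ha]; exact ct_ps F n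
  rw [e4, e5, ← hv0, ← hv1]
  push_cast
  ring

include H in
/-- the mean of an expression in one ladder -/
theorem fst1 {φ : ℂ → ℝ} (hφ : TF B φ) {C : ℝ} (hρ : ∀ n, |ρ n| ≤ C) (F : Polynomial A) :
    Null (fun n => (∫ z, (φ z : ℂ) * LM ρ w w (aeval ps F) n z) -
      ((ev2 (ρ n) 0 F : ℝ) : ℂ) * ((∫ z, φ z : ℝ) : ℂ)) := by
  set I0 : ℂ := ((∫ z, φ z : ℝ) : ℂ) with hI0
  obtain ⟨a, ha⟩ : ∃ a, a = aeval ps F := ⟨_, rfl⟩
  have cw := fun m n => (H.bd m).co n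
  have i0 : Integrable (fun z => (φ z : ℂ)) :=
    (hφ.1.continuous.integrable_of_hasCompactSupport hφ.2.1).ofReal
  have i1 : ∀ m n, Integrable (fun z => (φ z : ℂ) * (w m n z * w (-m) n z)) := fun m n =>
    TF.cint hφ ((cw m n).mul (cw (-m) n))
  have nE : ∀ m, Null (fun n => (∫ z, (φ z : ℂ) * (w m n z * w (-m) n z)) - sg m * I0) := by
    intro m
    refine ((H.two m (-m)).nul φ hφ).congr fun n => ?_
    have e : ∀ z, (φ z : ℂ) * (w m n z * w (-m) n z - CC m (-m)) =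
        (φ z : ℂ) * (w m n z * w (-m) n z) - sg m * (φ z : ℂ) := fun z => by
      rw [CC_self]; ring
    simp only [e]
    rw [integral_sub (i1 m n) (i0.const_mul _), integral_const_mul, hI0, integral_complex_ofReal]
  have n2 := Ev_null hρ nE a
  refine n2.congr fun n => ?_
  have e1 := (Ev_int (ρ := ρ) (g := fun z => (φ z : ℂ))
    (f := fun m z => w m n z * w (-m) n z) (fun m => i1 m n) a n).2
  have e2 : ∀ z, Ev ρ (fun m _ => w m n z * w (-m) n z) a n = LM ρ w w a n z := fun z => rfl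
  simp only [e2] at e1
  rw [← ha, ← e1]
  have f1 : Ev ρ (fun m n' => (∫ z, (φ z : ℂ) * (w m n' z * w (-m) n' z)) - sg m * I0) a n =
      Ev ρ (fun m _ => (∫ z, (φ z : ℂ) * (w m n z * w (-m) n z)) + (-I0) * sg m) a n := by
    have : Ev ρ (fun m n' => (∫ z, (φ z : ℂ) * (w m n' z * w (-m) n' z)) - sg m * I0) a n =
        Ev ρ (fun m _ => (∫ z, (φ z : ℂ) * (w m n z * w (-m) n z)) - sg m * I0) a n := rfl
    rw [this]
    exact Ev_cg a n fun m => by ring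
  rw [f1, Ev_D (D := fun m _ => (∫ z, (φ z : ℂ) * (w m n z * w (-m) n z))),
    Ev_smulD (D := fun m _ => sg m)]
  have f2 : Ev ρ (fun m _ => sg m) a n = ((ev2 (ρ n) 0 F : ℝ) : ℂ) := by rw [ha, Ev_sg_ps]
  rw [f2]
  ring

/-- the real value of an expression in one ladder, minus its mean -/
def XL (ρ : ℕ → ℝ) (w : ℤ → ℕ → ℂ → ℂ) (F : Polynomial A) (n : ℕ) (z : ℂ) : ℝ :=
  (LM ρ w w (aeval ps F) n z).re - ev2 (ρ n) 0 F

include H in
lemma XL_co (F : Polynomial A) (n : ℕ) : ContinuousOn (XL ρ w F n) B := by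
  have c2 := Complex.continuous_re.comp_continuousOn (LM_sm H H ρ (aeval ps F) n).continuousOn
  exact c2.sub continuousOn_const

/-- real integrals -/
lemma int_r {φ : ℂ → ℝ} (hφ : TF B φ) {X : ℂ → ℂ} (rX : ∀ z ∈ B, ((X z).re : ℂ) = X z) :
    ∫ z, (φ z : ℂ) * X z = ((∫ z, φ z * (X z).re : ℝ) : ℂ) := by
  rw [← integral_complex_ofReal]
  congr 1; funext z
  by_cases hz : z ∈ B
  · rw [ofReal_mul, rX z hz]
  · rw [TF.zero hφ hz]; simp

include H hBU in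
/-- **the variance** -/
theorem msc (h0 : EX B h w (w 0)) {φ : ℂ → ℝ} (hφ : TF B φ) {C : ℝ} (hρ : ∀ n, |ρ n| ≤ C)
    (F : Polynomial A) :
    Tendsto (fun n => (∫ z, φ z * XL ρ w F n z ^ 2) -
      (2 * gp F (ρ n) * (∫ z, φ z) + (D4 w φ 0 0 0 0 n).re *
        (1 / 3 * ev2 (ρ n) 4 F ^ 2 + 2 / 3 * ev2 (ρ n) 0 F ^ 2))) atTop (𝓝 0) := by
  have n1 := null_rep (msqg H hBU h0 hφ hρ F)
  have n2 := null_rep (fst1 H hφ hρ F)
  obtain ⟨C', hC'⟩ := poly_bd hρ (F.eval 0)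
  have ev0 : ∀ t, ev2 t 0 F = (F.eval 0).eval t := fun t => by
    rw [ev2, ← Polynomial.coeff_zero_eq_eval_zero, ← Polynomial.coeff_zero_eq_eval_zero,
      Polynomial.coeff_map]
    rfl
  have n3 : Tendsto (fun n => ev2 (ρ n) 0 F * (((∫ z, (φ z : ℂ) * LM ρ w w (aeval ps F) n z) -
      ((ev2 (ρ n) 0 F : ℝ) : ℂ) * ((∫ z, φ z : ℝ) : ℂ)).re)) atTop (𝓝 0) := by
    refine squeeze_zero_norm (a := fun n => C' * |(((∫ z, (φ z : ℂ) * LM ρ w w (aeval ps F) n z) -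
      ((ev2 (ρ n) 0 F : ℝ) : ℂ) * ((∫ z, φ z : ℝ) : ℂ)).re)|) (fun n => ?_) ?_
    · rw [Real.norm_eq_abs, abs_mul, ev0]
      exact mul_le_mul_of_nonneg_right (hC' n) (abs_nonneg _)
    · have := n2.abs.const_mul C'
      rw [abs_zero, mul_zero] at this
      exact this
  have n4 := n1.sub (n3.const_mul 2)
  rw [mul_zero, sub_zero] at n4
  refine n4.congr fun n => ?_
  set I0 : ℝ := ∫ z, φ z with hI0
  have rX : ∀ z ∈ B, (((LM ρ w w (aeval ps F) n z).re : ℝ) : ℂ) = LM ρ w w (aeval ps F) n z :=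
    fun z hz => LM_re H _ n hz
  have cL : ContinuousOn (fun z => (LM ρ w w (aeval ps F) n z).re) B :=
    Complex.continuous_re.comp_continuousOn (LM_sm H H ρ (aeval ps F) n).continuousOn
  have e1 : ∫ z, (φ z : ℂ) * (LM ρ w w (aeval ps F) n z * LM ρ w w (aeval ps F) n z) =
      ((∫ z, φ z * (LM ρ w w (aeval ps F) n z).re ^ 2 : ℝ) : ℂ) := by
    rw [int_r hφ (fun z hz => by
      rw [← rX z hz, ← ofReal_mul, ofReal_re])]
    congr 2; funext z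
    by_cases hz : z ∈ B
    · have := rX z hz
      obtain ⟨x, hx⟩ : ∃ x, x = (LM ρ w w (aeval ps F) n z).re := ⟨_, rfl⟩
      rw [← hx] at this
      rw [← hx, ← this, ← ofReal_mul, ofReal_re]
      ring
    · rw [TF.zero hφ hz]; simp
  have e2 := int_r hφ rX
  have i1 : Integrable (fun z => φ z * (LM ρ w w (aeval ps F) n z).re ^ 2) :=
    Pool.Agent.W311.RW.int_mul H.op hφ (cL.pow 2)
  have i2 : Integrable (fun z => φ z * (LM ρ w w (aeval ps F) n z).re) :=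
    Pool.Agent.W311.RW.int_mul H.op hφ cL
  have i3 : Integrable φ := hφ.1.continuous.integrable_of_hasCompactSupport hφ.2.1
  obtain ⟨v0, hv0⟩ : ∃ v0 : ℝ, v0 = ev2 (ρ n) 0 F := ⟨_, rfl⟩
  have e3 : ∫ z, φ z * XL ρ w F n z ^ 2 = (∫ z, φ z * (LM ρ w w (aeval ps F) n z).re ^ 2) -
      2 * v0 * (∫ z, φ z * (LM ρ w w (aeval ps F) n z).re) + v0 ^ 2 * I0 := by
    have i12 : Integrable (fun z => φ z * (LM ρ w w (aeval ps F) n z).re ^ 2 -
      2 * v0 * (φ z * (LM ρ w w (aeval ps F) n z).re)) := i1.sub (i2.const_mul _)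
    rw [hI0, ← integral_const_mul, ← integral_const_mul, ← integral_sub i1 (i2.const_mul _),
      ← integral_add i12 (i3.const_mul _)]
    congr 1; funext z
    simp only [XL, ← hv0]
    ring
  rw [e1, e2, e3, ← hv0]
  obtain ⟨d, hd⟩ : ∃ d : ℂ, d = D4 w φ 0 0 0 0 n := ⟨_, rfl⟩
  obtain ⟨v1, hv1⟩ : ∃ v1 : ℝ, v1 = ev2 (ρ n) 4 F := ⟨_, rfl⟩
  rw [← hd, ← hv1]
  have r1 : ((1 / 3 * d) * (v1 : ℂ) ^ 2).re = 1 / 3 * d.re * v1 ^ 2 := by
    have : (1 / 3 * d) * (v1 : ℂ) ^ 2 = ((1 / 3 * v1 ^ 2 : ℝ) : ℂ) * d := by push_cast; ring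
    rw [this, re_ofReal_mul]; ring
  have r2 : ((2 / 3 * d + (I0 : ℂ)) * (v0 : ℂ) ^ 2).re = (2 / 3 * d.re + I0) * v0 ^ 2 := by
    have : (2 / 3 * d + (I0 : ℂ)) * (v0 : ℂ) ^ 2 = ((2 / 3 * v0 ^ 2 : ℝ) : ℂ) * d +
      ((I0 * v0 ^ 2 : ℝ) : ℂ) := by push_cast; ring
    rw [this, add_re, re_ofReal_mul, ofReal_re]; ring
  rw [sub_re, add_re, add_re, r1, r2, ofReal_re, ofReal_re, sub_re, ← ofReal_mul, ofReal_re,
    ofReal_re]
  ring

end

end Pool.Agent.H25JM
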