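import Pool.Agent.H25JM.Lowb

/-!
# The polynomials of the lower bound
-/

set_option autoImplicit false
set_option linter.unusedSectionVars false

namespace Pool.Agent.H25JM

open Pool.Agent.K13.TP
open Polynomial

noncomputable section

/-- the polynomial `e = 1 + κ² (1 - x²)² (x + κ) (κ x + 1) h(x)` -/
def eP (h : Polynomial ℝ) : Polynomial A :=
  1 + C (X ^ 2) * (1 - Polynomial.X ^ 2) ^ 2 * (Polynomial.X + C X) * (C X * Polynomial.X + 1) *
    h.map C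

/-- the polynomial `P (4 - P) β(P)` -/
def bP (β : Polynomial ℝ) : Polynomial A := Polynomial.X * (4 - Polynomial.X) * β.map C

lemma aeval_four {Q : Type} [CommRing Q] [Algebra A Q] (x : Q) :
    aeval x (4 : Polynomial A) = 4 := map_ofNat _ 4

lemma alg_four {Q : Type} [CommRing Q] [Algebra A Q] : algebraMap A Q 4 = 4 := map_ofNat _ 4

/-- **the identity** -/
theorem polyId (h β γ : Polynomial ℝ) : ∃ δ : Polynomial A,
    PolyId (Finset.univ : Finset Bool) (eP h) (fun i => if i then bP β else bP 1)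
      (fun i => if i then bP γ else Polynomial.X * (4 - Polynomial.X) * δ) := by
  obtain ⟨K, hK⟩ : ∃ K : Polynomial A, K = (C (1 + X ^ 2) + 2 * C X * Polynomial.X) ^ 3 *
    h.map C := ⟨_, rfl⟩
  obtain ⟨D1, B1, h1⟩ := exDB K
  obtain ⟨D2, B2, h2⟩ := exDB (K ^ 2)
  refine ⟨-(C (C (1 / 256)) * (2 * D1.comp (C (C (1 / 4)) * Polynomial.X) +
    C (C (1 / 16) * X ^ 2) * Polynomial.X ^ 2 * B2.comp (C (C (1 / 4)) * Polynomial.X)) +
    (β.map C).comp (C (X ^ 2) * Polynomial.X) * γ.map C), ?_⟩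
  intro Q _ _ x y s hs hp
  obtain ⟨k, hk⟩ : ∃ k : Q, k = rr Q := ⟨_, rfl⟩
  have rX : algebraMap A Q X = k := hk.symm
  rw [← hk] at hs hp
  obtain ⟨a1, -⟩ := h1 Q x y s (by rw [← hk]; exact hs) (by rw [← hk]; exact hp)
  obtain ⟨-, a2⟩ := h2 Q x y s (by rw [← hk]; exact hs) (by rw [← hk]; exact hp)
  rw [map_pow, map_pow] at a2
  -- constants
  obtain ⟨hq, hhq⟩ : ∃ x : Q, x = algebraMap A Q (C (1 / 4)) := ⟨_, rfl⟩
  have hh4 : 4 * hq = 1 := by
    rw [hhq, ← alg_four (Q := Q), ← map_mul, ← map_one (algebraMap A Q)]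
    congr 1
    have : (4 : A) = C 4 := rfl
    rw [this, ← C_mul]
    norm_num
  have c16 : algebraMap A Q (C (1 / 16)) = hq ^ 2 := by
    rw [hhq, ← map_pow, ← C_pow]; norm_num
  have c256 : algebraMap A Q (C (1 / 256)) = hq ^ 4 := by
    rw [hhq, ← map_pow, ← C_pow]; norm_num
  -- the evaluation of `K`
  have eK : ∀ t : Q, aeval t K = (1 + k ^ 2 + 2 * k * t) ^ 3 * aeval t (h.map C) := by
    intro t
    rw [hK]
    simp only [map_mul, map_pow, map_add, aeval_C, aeval_X, map_one, rX]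
    rw [map_ofNat]
  have ee : ∀ t : Q, aeval t (eP h) = 1 + k ^ 2 * (1 - t ^ 2) ^ 2 * (t + k) * (k * t + 1) *
      aeval t (h.map C) := by
    intro t
    unfold eP
    simp only [map_mul, map_pow, map_add, map_sub, aeval_C, aeval_X, map_one, rX]
  have eb : ∀ (t : Q) (β : Polynomial ℝ), aeval t (bP β) = t * (4 - t) * aeval t (β.map C) := by
    intro t β
    unfold bP
    simp only [map_mul, map_sub, aeval_X, aeval_four]
  have qx : x ^ 2 + 2 * k * s * x + (1 + k ^ 2) * s - 1 = 0 := by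
    linear_combination x * hs - hp
  have qy : y ^ 2 + 2 * k * s * y + (1 + k ^ 2) * s - 1 = 0 := by
    linear_combination y * hs - hp
  obtain ⟨hx, hhx⟩ : ∃ t : Q, t = aeval x (h.map C) := ⟨_, rfl⟩
  obtain ⟨hy, hhy⟩ : ∃ t : Q, t = aeval y (h.map C) := ⟨_, rfl⟩
  -- on the curve
  have ex : aeval x (eP h) = 1 + k ^ 2 * s ^ 2 * (x + k * s) * aeval x K := by
    rw [ee, eK, ← hhx]
    have e1 : 1 - x ^ 2 = s * (1 + k ^ 2 + 2 * k * x) := by linear_combination -qx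
    have e2 : (x + k) * (k * x + 1) = (1 + k ^ 2 + 2 * k * x) * (x + k * s) := by
      linear_combination (-k) * qx
    rw [e1]
    linear_combination (k ^ 2 * (s * (1 + k ^ 2 + 2 * k * x)) ^ 2 * hx) * e2
  have ey : aeval y (eP h) = 1 + k ^ 2 * s ^ 2 * (y + k * s) * aeval y K := by
    rw [ee, eK, ← hhy]
    have e1 : 1 - y ^ 2 = s * (1 + k ^ 2 + 2 * k * y) := by linear_combination -qy
    have e2 : (y + k) * (k * y + 1) = (1 + k ^ 2 + 2 * k * y) * (y + k * s) := by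
      linear_combination (-k) * qy
    rw [e1]
    linear_combination (k ^ 2 * (s * (1 + k ^ 2 + 2 * k * y)) ^ 2 * hy) * e2
  obtain ⟨Kx, hKx⟩ : ∃ t : Q, t = aeval x K := ⟨_, rfl⟩
  obtain ⟨Ky, hKy⟩ : ∃ t : Q, t = aeval y K := ⟨_, rfl⟩
  obtain ⟨d, hd⟩ : ∃ t : Q, t = aeval s D1 := ⟨_, rfl⟩
  obtain ⟨b, hb⟩ : ∃ t : Q, t = aeval s B2 := ⟨_, rfl⟩
  rw [← hKx, ← hKy, ← hd] at a1
  rw [← hKx, ← hKy, ← hb] at a2
  rw [Fintype.sum_bool]
  simp only [if_true, Bool.false_eq_true, if_false]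
  rw [ex, ey, ← hk, ← hKx, ← hKy, eb, eb, eb, Polynomial.map_one, map_one]
  have ed : ∀ D : Polynomial A, aeval (4 * s) (D.comp (C (C (1 / 4)) * Polynomial.X)) =
      aeval s D := by
    intro D
    rw [Polynomial.aeval_comp, map_mul, aeval_C, aeval_X, ← hhq, ← mul_assoc, mul_comm hq 4, hh4,
      one_mul]
  have eβ : aeval (4 * s) ((β.map C).comp (C (X ^ 2) * Polynomial.X)) =
      aeval (4 * (k ^ 2 * s)) (β.map C) := by
    rw [Polynomial.aeval_comp, map_mul, aeval_C, aeval_X, map_pow, rX]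
    congr 2; ring
  have t2 : ∀ t : Q, aeval t (2 : Polynomial A) = 2 := fun t => map_ofNat _ 2
  obtain ⟨bb, hbb⟩ : ∃ F : Polynomial A, F = (β.map C).comp (C (X ^ 2) * Polynomial.X) := ⟨_, rfl⟩
  rw [← hbb] at eβ ⊢
  simp only [map_mul, map_neg, map_add, map_sub, map_pow, aeval_X, aeval_four, aeval_C, rX,
    c16, c256, ed, eβ, t2, ← hd, ← hb]
  have hy' : y = -(2 * k * s) - x := by linear_combination hs
  have e3 : (x + k * s) ^ 2 = (1 - s) * (1 - k ^ 2 * s) := by linear_combination qx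
  have e4 : y + k * s = -(x + k * s) := by linear_combination hs
  have e5 : x - y = 2 * (x + k * s) := by linear_combination -hs
  rw [e5] at a1
  rw [e4]
  have h4 : ∀ t : Q, 4 * hq * t = t := fun t => by rw [hh4, one_mul]
  obtain ⟨δ, hδ⟩ : ∃ t : Q, t = x + k * s := ⟨_, rfl⟩
  rw [← hδ] at a1 e3 ⊢
  -- e(x)² + e(y)²
  have key : (1 + k ^ 2 * s ^ 2 * δ * Kx) ^ 2 + (1 + k ^ 2 * s ^ 2 * -δ * Ky) ^ 2 =
      2 + 2 * k ^ 2 * s ^ 2 * ((1 - s) * (1 - k ^ 2 * s)) * (2 * d + k ^ 2 * s ^ 2 * b) := by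
    linear_combination (2 * k ^ 2 * s ^ 2 * δ) * a1 + (k ^ 4 * s ^ 4 * δ ^ 2) * a2 +
      (4 * k ^ 2 * s ^ 2 * d + 2 * k ^ 4 * s ^ 4 * b) * e3
  have hq2 : 16 * hq ^ 2 = 1 := by linear_combination (4 * hq + 1) * hh4
  have hq4 : 256 * hq ^ 4 = 1 := by linear_combination (16 * hq ^ 2 + 1) * hq2
  rw [key]
  linear_combination (-(2 * k ^ 2 * s ^ 2 * ((1 - s) * (1 - k ^ 2 * s)) * (2 * d))) * hq4 -
    (2 * k ^ 2 * s ^ 2 * ((1 - s) * (1 - k ^ 2 * s)) * (k ^ 2 * s ^ 2 * b)) *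
      ((16 * hq ^ 2) * hq4 + hq2)

end

end Pool.Agent.H25JM
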