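import Pool.Agent.H25JM.Red

/-!
# The quotient ring of the functional of two variables
-/

set_option autoImplicit false
open Filter Topology

namespace Pool.Agent.H25JM

open Pool.Agent.K13.TP
open Pool.Agent.W745.RW (Null)

noncomputable section

open Polynomial

/-- Laurent polynomials in two variables -/
abbrev R2 := AddMonoidAlgebra A (ℤ × ℤ)

variable {ρ : ℕ → ℝ} {D : ℤ × ℤ → ℕ → ℂ}

/-- the ideal of the elements all of whose multiples have null values -/
def NJ (ρ : ℕ → ℝ) (D : ℤ × ℤ → ℕ → ℂ) : Ideal R2 where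
  carrier := {x | ∀ y, Null (Ev ρ D (y * x))}
  add_mem' := fun {a b} ha hb y => by
    have := Tendsto.add (ha y) (hb y)
    rw [add_zero] at this
    refine this.congr fun n => ?_
    rw [mul_add, Ev_add]
  zero_mem' := fun y => by
    refine Tendsto.congr (fun n => ?_) tendsto_const_nhds
    rw [mul_zero, Ev_zero]
  smul_mem' := fun c x hx y => by
    have := hx (y * c)
    rw [mul_assoc] at this
    exact this

/-- monomials -/
def mm (i j : ℤ) : R2 := AddMonoidAlgebra.single (i, j) 1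

lemma mm_mul (a b a' b' : ℤ) : mm a b * mm a' b' = mm (a + a') (b + b') := by
  unfold mm
  rw [AddMonoidAlgebra.single_mul_single, one_mul]
  rfl

lemma mm_zero : mm 0 0 = 1 := rfl

lemma NJ_of {C : ℝ} (hρ : ∀ n, |ρ n| ≤ C) {x : R2} (h : ∀ i j, Null (Ev ρ D (mm i j * x))) :
    x ∈ NJ ρ D := by
  intro y
  induction y using AddMonoidAlgebra.induction_linear with
  | zero =>
    refine Tendsto.congr (fun n => ?_) tendsto_const_nhds
    rw [zero_mul, Ev_zero]
  | add y z h1 h2 =>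
    have := Tendsto.add h1 h2
    rw [add_zero] at this
    refine this.congr fun n => ?_
    rw [add_mul, Ev_add]
  | single m p =>
    obtain ⟨a, b⟩ := m
    obtain ⟨C', hC'⟩ := poly_bd hρ p
    refine (null_bd (h a b) hC').congr fun n => ?_
    have e : ∀ x : R2, Ev ρ D (AddMonoidAlgebra.single (a, b) p * x) n =
        ((p.eval (ρ n) : ℝ) : ℂ) * Ev ρ D (mm a b * x) n := by
      intro x
      induction x using AddMonoidAlgebra.induction_linear with
      | zero => rw [mul_zero, mul_zero, Ev_zero, mul_zero]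
      | add y z h1 h2 => rw [mul_add, mul_add, Ev_add, Ev_add, h1, h2]; ring
      | single k q =>
        unfold mm
        rw [AddMonoidAlgebra.single_mul_single, AddMonoidAlgebra.single_mul_single, Ev_single,
          Ev_single, one_mul, eval_mul]
        push_cast; ring
    rw [e]

lemma rr2 : rr R2 = AddMonoidAlgebra.single (0, 0) X := rfl

lemma Ev_mm (i j : ℤ) (n : ℕ) : Ev ρ D (mm i j) n = D (i, j) n := by
  unfold mm; rw [Ev_single]; simp

lemma Ev_rmm (i j : ℤ) (n : ℕ) : Ev ρ D (rr R2 * mm i j) n = (ρ n : ℂ) * D (i, j) n := by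
  rw [rr2]
  unfold mm
  rw [AddMonoidAlgebra.single_mul_single, Ev_single]
  simp

/-- **the quotient ring, in abstract form** -/
theorem exQ2 {C : ℝ} (hρ : ∀ n, |ρ n| ≤ C) (hT : ∀ i j : ℤ, Null (fun n => D (i + 1, j + 1) n +
      D (i, j) n + (ρ n : ℂ) * (D (i + 1, j) n + D (i, j + 1) n))) :
    ∃ (Q : Type) (_ : CommRing Q) (_ : Algebra A Q) (φ : R2 →ₐ[A] Q),
    φ (mm 1 0) * φ (mm (-1) 0) = 1 ∧ φ (mm 0 1) * φ (mm 0 (-1)) = 1 ∧
    φ (mm 1 0) * φ (mm 0 1) + 1 + rr Q * (φ (mm 1 0) + φ (mm 0 1)) = 0 ∧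
    ∀ x y, φ x = φ y → Null (fun n => Ev ρ D x n - Ev ρ D y n) := by
  refine ⟨R2 ⧸ NJ ρ D, inferInstance, inferInstance, Ideal.Quotient.mkₐ A (NJ ρ D), ?_, ?_, ?_, ?_⟩
  · rw [← map_mul, mm_mul]
    exact map_one _
  · rw [← map_mul, mm_mul]
    exact map_one _
  · have e : rr (R2 ⧸ NJ ρ D) = Ideal.Quotient.mkₐ A (NJ ρ D) (rr R2) :=
      ((Ideal.Quotient.mkₐ A (NJ ρ D)).commutes X).symm
    have e1 : (1 : R2 ⧸ NJ ρ D) = Ideal.Quotient.mkₐ A (NJ ρ D) 1 := (map_one _).symm
    rw [e, e1, ← map_mul, ← map_add, ← map_add, ← map_mul, ← map_add]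
    refine Ideal.Quotient.eq_zero_iff_mem.2 (NJ_of hρ fun i j => (hT i j).congr fun n => ?_)
    rw [show mm i j * (mm 1 0 * mm 0 1 + 1 + rr R2 * (mm 1 0 + mm 0 1)) =
      mm i j * mm 1 0 * mm 0 1 + mm i j + (rr R2 * (mm i j * mm 1 0) +
        rr R2 * (mm i j * mm 0 1)) by ring]
    simp only [mm_mul, Ev_add, Ev_mm, Ev_rmm, add_zero]
    ring
  · intro x y h
    have h1 := (Ideal.Quotient.eq.1 h) 1
    rw [one_mul] at h1
    exact h1.congr fun n => Ev_sub x y n

end

end Pool.Agent.H25JM
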