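import Pool.Agent.K13.TP.Mom
import Pool.Agent.R314.JN.Alg

/-!
# Reduction of the joint four-point functions of two ladders to a function of two variables
-/

set_option autoImplicit false
open Filter Topology

namespace Pool.Agent.H25JM

open Pool.Agent.K13.TP
open Pool.Agent.W745.RW (Null)
open Pool.Agent.R314.JN (aff nullS mem_nullS)

noncomputable section

section

variable {V : Type*} [AddCommGroup V] [Module ℝ V]

/-- independence of the first index -/
theorem c1V (r : ℤ → ℤ → ℤ → ℤ → V)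
    (s12 : ∀ a b c d, r a b c d = r b a c d) (s34 : ∀ a b c d, r a b c d = r a b d c)
    (cj : ∀ a b c d, a + b + c + d = 0 → r (-a) (-b) (-c) (-d) = r a b c d)
    (N : ∀ a b c d, r (a + 1) (b + 1) (c - 1) (d - 1) + r (a - 1) (b - 1) (c + 1) (d + 1) =
      (2 : ℝ) • r a b c d) (p q a : ℤ) :
    r a (a - p - q) (p - a) (q - a) = r 0 (0 - p - q) (p - 0) (q - 0) := by
  refine aff (f := fun a => r a (a - p - q) (p - a) (q - a)) (c := p + q) (fun a => ?_)
    (fun a => ?_) a
  · have := N a (a - p - q) (p - a) (q - a)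
    rw [← this]
    show r (a + 1) (a + 1 - p - q) (p - (a + 1)) (q - (a + 1)) +
      r (a - 1) (a - 1 - p - q) (p - (a - 1)) (q - (a - 1)) = _
    congr 2 <;> ring
  · have := cj a (a - p - q) (p - a) (q - a) (by ring)
    show r (p + q - a) (p + q - a - p - q) (p - (p + q - a)) (q - (p + q - a)) = _
    rw [← this, s12 (-a), s34 (-(a - p - q))]
    congr 1 <;> ring

end

/-- the reduction -/
theorem redN (r : ℤ → ℤ → ℤ → ℤ → ℕ → ℝ)
    (s12 : ∀ a b c d, r a b c d = r b a c d) (s34 : ∀ a b c d, r a b c d = r a b d c)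
    (cj : ∀ a b c d, a + b + c + d = 0 → r (-a) (-b) (-c) (-d) = r a b c d)
    (N : ∀ a b c d, Tendsto (fun n => r (a + 1) (b + 1) (c - 1) (d - 1) n +
      r (a - 1) (b - 1) (c + 1) (d + 1) n - 2 * r a b c d n) atTop (𝓝 0))
    (a b c d : ℤ) (h : a + b + c + d = 0) :
    Tendsto (fun n => r a b c d n - r 0 (-(a + c) - (a + d)) (a + c) (a + d) n) atTop (𝓝 0) := by
  have key := c1V (V := (ℕ → ℝ) ⧸ nullS) (fun a b c d => nullS.mkQ (r a b c d))
    (fun a b c d => by simp only [s12 a b c d]) (fun a b c d => by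
      show nullS.mkQ (r a b c d) = nullS.mkQ (r a b d c)
      rw [s34 a b c d])
    (fun a b c d h => by
      show nullS.mkQ (r (-a) (-b) (-c) (-d)) = nullS.mkQ (r a b c d)
      rw [cj a b c d h])
    (fun a b c d => by
      show nullS.mkQ (r (a + 1) (b + 1) (c - 1) (d - 1)) +
        nullS.mkQ (r (a - 1) (b - 1) (c + 1) (d + 1)) = (2 : ℝ) • nullS.mkQ (r a b c d)
      rw [← map_add, ← map_smul, ← sub_eq_zero, ← map_sub]
      exact (Submodule.Quotient.mk_eq_zero _).2 (N a b c d)) (a + c) (a + d) a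
  have e1 : a - (a + c) - (a + d) = b := by omega
  rw [e1, show a + c - a = c by ring, show a + d - a = d by ring, sub_zero, sub_zero, zero_sub,
    ← sub_eq_zero, ← map_sub] at key
  exact (Submodule.Quotient.mk_eq_zero _).1 key

/-- real joint four-point functions -/
structure Rel2 (ρ : ℕ → ℝ) (r : ℤ → ℤ → ℤ → ℤ → ℕ → ℝ) : Prop where
  bd : ∃ C, ∀ n, |ρ n| ≤ C
  s12 : ∀ a b c d, r a b c d = r b a c d
  s34 : ∀ a b c d, r a b c d = r a b d c
  cj : ∀ a b c d, a + b + c + d = 0 → r (-a) (-b) (-c) (-d) = r a b c d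
  N : ∀ a b c d, Tendsto (fun n => r (a + 1) (b + 1) (c - 1) (d - 1) n +
      r (a - 1) (b - 1) (c + 1) (d + 1) n - 2 * r a b c d n) atTop (𝓝 0)
  T : ∀ a b c d, Tendsto (fun n => r (a + 1) b c d n + r a (b + 1) c d n +
      ρ n * (r a b (c + 1) d n + r a b c (d + 1) n)) atTop (𝓝 0)

/-- the function of two variables -/
def FF (r : ℤ → ℤ → ℤ → ℤ → ℕ → ℝ) (m : ℤ × ℤ) (n : ℕ) : ℂ :=
  ((r 0 (-m.1 - m.2) m.1 m.2 n : ℝ) : ℂ)

variable {ρ : ℕ → ℝ} {r : ℤ → ℤ → ℤ → ℤ → ℕ → ℝ}

lemma null_re {a : ℕ → ℝ} (h : Tendsto a atTop (𝓝 0)) : Null (fun n => (a n : ℂ)) := by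
  have := (Complex.continuous_ofReal.tendsto 0).comp h
  rw [Complex.ofReal_zero] at this
  exact this

lemma Rel2.red (R : Rel2 ρ r) (a b c d : ℤ) (h : a + b + c + d = 0) :
    Null (fun n => (r a b c d n : ℂ) - FF r (a + c, a + d) n) := by
  have := null_re (redN r R.s12 R.s34 R.cj R.N a b c d h)
  refine this.congr fun n => ?_
  simp only [FF]
  push_cast
  ring

lemma Rel2.sw (_R : Rel2 ρ r) (i j : ℤ) (n : ℕ) : FF r (i, j) n = FF r (j, i) n := by
  simp only [FF]
  rw [_R.s34 0 (-i - j) i j, show -i - j = -j - i by ring]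

/-- the relation of the function of two variables -/
lemma Rel2.T2 (R : Rel2 ρ r) (i j : ℤ) : Null (fun n => FF r (i + 1, j + 1) n + FF r (i, j) n +
    (ρ n : ℂ) * (FF r (i + 1, j) n + FF r (i, j + 1) n)) := by
  have h1 := null_re (R.T 0 (-i - j - 1) i j)
  have h2 := R.red (0 + 1) (-i - j - 1) i j (by ring)
  have h3 := Tendsto.sub h1 h2
  rw [sub_zero] at h3
  refine h3.congr fun n => ?_
  simp only [FF]
  rw [show 0 + 1 + i = i + 1 by ring, show 0 + 1 + j = j + 1 by ring,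
    show -i - j - 1 + 1 = -i - j by ring, show -(i + 1) - j = -i - j - 1 by ring,
    show -i - (j + 1) = -i - j - 1 by ring]
  push_cast
  ring

end

end Pool.Agent.H25JM
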