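import Pool.Agent.H25JM.Quo
import Pool.Agent.K13.TP.Sym

/-!
# The decomposition of the functional of two variables
-/

set_option autoImplicit false
open Filter Topology

namespace Pool.Agent.H25JM

open Pool.Agent.K13.TP
open Pool.Agent.W745.RW (Null)

noncomputable section

open Polynomial

/-- difference quotients and symmetrisations of a polynomial at the two points `x, y` with
`x + y = -2 κ s`, `x y = (1 + κ²) s - 1` -/
theorem exDB (K : Polynomial A) : ∃ DK BK : Polynomial A, ∀ (Q : Type) [CommRing Q] [Algebra A Q]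
    (x y s : Q), x + y = -(2 * rr Q * s) → x * y = (1 + rr Q ^ 2) * s - 1 →
    aeval x K - aeval y K = (x - y) * aeval s DK ∧
    aeval x K + aeval y K = 2 * aeval s BK := by
  induction K using Polynomial.induction_on with
  | C c =>
    refine ⟨0, C c, fun Q _ _ x y s h1 h2 => ⟨?_, ?_⟩⟩
    · simp
    · simp only [aeval_C]; ring
  | add K L hK hL =>
    obtain ⟨D1, B1, h1⟩ := hK
    obtain ⟨D2, B2, h2⟩ := hL
    refine ⟨D1 + D2, B1 + B2, fun Q _ _ x y s e1 e2 => ?_⟩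
    obtain ⟨a1, a2⟩ := h1 Q x y s e1 e2
    obtain ⟨a3, a4⟩ := h2 Q x y s e1 e2
    simp only [map_add]
    constructor
    · linear_combination a1 + a3
    · linear_combination a2 + a4
  | monomial n c h =>
    obtain ⟨D1, B1, h1⟩ := h
    refine ⟨-(C X * Polynomial.X * D1) + B1, -(C X * Polynomial.X * B1) +
      (C (X ^ 2) * Polynomial.X ^ 2 - C (1 + X ^ 2) * Polynomial.X + 1) * D1,
      fun Q _ _ x y s e1 e2 => ?_⟩
    obtain ⟨a1, a2⟩ := h1 Q x y s e1 e2
    obtain ⟨u, hu⟩ : ∃ u, u = aeval x (C c * Polynomial.X ^ n) := ⟨_, rfl⟩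
    obtain ⟨v, hv⟩ : ∃ v, v = aeval y (C c * Polynomial.X ^ n) := ⟨_, rfl⟩
    rw [← hu, ← hv] at a1 a2
    have ex : aeval x (C c * Polynomial.X ^ (n + 1)) = x * u := by
      rw [hu, pow_succ, ← mul_assoc, map_mul, aeval_X]; ring
    have ey : aeval y (C c * Polynomial.X ^ (n + 1)) = y * v := by
      rw [hv, pow_succ, ← mul_assoc, map_mul, aeval_X]; ring
    obtain ⟨hf, hhf⟩ : ∃ x : Q, x = algebraMap A Q (C (1 / 2)) := ⟨_, rfl⟩
    have hh : 2 * hf = 1 := by
      have : (2 : Q) = algebraMap A Q 2 := (map_ofNat _ 2).symm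
      rw [hhf, this, ← map_mul, ← map_one (algebraMap A Q)]
      congr 1
      have : (2 : A) = C 2 := rfl
      rw [this, ← C_mul]
      norm_num
    have rX : algebraMap A Q X = rr Q := rfl
    rw [ex, ey]
    simp only [map_add, map_mul, map_neg, map_sub, map_pow, map_one, aeval_C, aeval_X, rX]
    set d := aeval s D1 with hd
    set b := aeval s B1 with hb
    constructor
    · -- x u - y v
      have h2 : 2 * (x * u - y * v) = 2 * ((x - y) * (-(rr Q * s * d) + b)) := by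
        linear_combination (x + y) * a1 + (x - y) * a2 + ((x - y) * d) * e1
      calc x * u - y * v = hf * (2 * (x * u - y * v)) := by
            rw [← mul_assoc, mul_comm hf 2, hh, one_mul]
        _ = hf * (2 * ((x - y) * (-(rr Q * s * d) + b))) := by rw [h2]
        _ = _ := by rw [← mul_assoc, mul_comm hf 2, hh, one_mul]
    · have h2 : 2 * (x * u + y * v) = 2 * (2 * (-(rr Q * s * b) +
          (rr Q ^ 2 * s ^ 2 - (1 + rr Q ^ 2) * s + 1) * d)) := by
        have e3 : (x - y) ^ 2 = 4 * (rr Q ^ 2 * s ^ 2 - (1 + rr Q ^ 2) * s + 1) := by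
          linear_combination (x + y - 2 * rr Q * s) * e1 - 4 * e2
        linear_combination (x + y) * a2 + (x - y) * a1 + (2 * b) * e1 + d * e3
      calc x * u + y * v = hf * (2 * (x * u + y * v)) := by
            rw [← mul_assoc, mul_comm hf 2, hh, one_mul]
        _ = hf * (2 * (2 * (-(rr Q * s * b) +
          (rr Q ^ 2 * s ^ 2 - (1 + rr Q ^ 2) * s + 1) * d))) := by rw [h2]
        _ = _ := by rw [← mul_assoc, mul_comm hf 2, hh, one_mul]

/-- exponents -/
def kx : ℤ →+ ℤ × ℤ where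
  toFun m := (0, m)
  map_zero' := rfl
  map_add' _ _ := by simp
/-- exponents -/
def kx' : ℤ →+ ℤ × ℤ where
  toFun m := (m, 0)
  map_zero' := rfl
  map_add' _ _ := by simp
/-- exponents -/
def kn : ℤ →+ ℤ × ℤ where
  toFun m := (0, -m)
  map_zero' := by simp
  map_add' a b := by simp [add_comm]
/-- exponents -/
def kz : ℤ →+ ℤ × ℤ where
  toFun m := (m, m)
  map_zero' := rfl
  map_add' _ _ := rfl
/-- exponents -/
def kw : ℤ →+ ℤ × ℤ where
  toFun m := (m, -m)
  map_zero' := by simp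
  map_add' a b := by simp [add_comm]

/-- the induced homomorphism -/
abbrev JK {G : Type*} [AddMonoid G] (g : G →+ ℤ × ℤ) : AddMonoidAlgebra A G →ₐ[A] R2 :=
  AddMonoidAlgebra.mapDomainAlgHom A A g

lemma JK_single {G : Type*} [AddMonoid G] (g : G →+ ℤ × ℤ) (m : G) (p : A) :
    JK g (AddMonoidAlgebra.single m p) = AddMonoidAlgebra.single (g m) p := by
  show AddMonoidAlgebra.mapDomain g _ = _
  rw [AddMonoidAlgebra.mapDomain_single]

lemma Ev_JK {G : Type*} [AddMonoid G] (g : G →+ ℤ × ℤ) {ρ : ℕ → ℝ} (D : ℤ × ℤ → ℕ → ℂ)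
    (x : AddMonoidAlgebra A G) (n : ℕ) : Ev ρ D (JK g x) n = Ev ρ (fun m => D (g m)) x n :=
  Ev_map g D x n

/-- the cosine -/
def cx : R1 := algebraMap A R1 (C (1 / 2)) * (tt + tt')

lemma JK_t (g : ℤ →+ ℤ × ℤ) : JK g tt = mm (g 1).1 (g 1).2 := by
  unfold tt mm; rw [JK_single]
lemma JK_t' (g : ℤ →+ ℤ × ℤ) : JK g tt' = mm (g (-1)).1 (g (-1)).2 := by
  unfold tt' mm; rw [JK_single]

lemma JK_cx (g : ℤ →+ ℤ × ℤ) : JK g cx = algebraMap A R2 (C (1 / 2)) *
    (mm (g 1).1 (g 1).2 + mm (g (-1)).1 (g (-1)).2) := by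
  unfold cx
  rw [map_mul, map_add, JK_t, JK_t', AlgHom.commutes]

lemma JK_ps (g : ℤ →+ ℤ × ℤ) : JK g ps =
    2 + (mm (g 1).1 (g 1).2 + mm (g (-1)).1 (g (-1)).2) := by
  unfold ps
  have h2 : JK g 2 = 2 := map_ofNat (JK g) 2
  unfold PP
  rw [mul_one, mul_one, map_add, map_add, JK_t, JK_t', h2]

/-- the polynomial `e` at the cosine -/
def pe (e : Polynomial A) : R1 := aeval cx e
/-- the polynomial `b` at four times the square of the cosine of half the angle -/
def pb (b : Polynomial A) : R1 := aeval ps b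

lemma JK_pe (g : ℤ →+ ℤ × ℤ) (e : Polynomial A) : JK g (pe e) = aeval (JK g cx) e :=
  (Polynomial.aeval_algHom_apply (JK g) cx e).symm
lemma JK_pb (g : ℤ →+ ℤ × ℤ) (e : Polynomial A) : JK g (pb e) = aeval (JK g ps) e :=
  (Polynomial.aeval_algHom_apply (JK g) ps e).symm

lemma al_ev {Q Q' : Type*} [CommRing Q] [Algebra A Q] [CommRing Q'] [Algebra A Q']
    (φ : Q →ₐ[A] Q') (x : Q) (F : Polynomial A) : φ (aeval x F) = aeval (φ x) F :=
  (Polynomial.aeval_algHom_apply φ x F).symm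

/-- **The decomposition.** -/
theorem main2 {ρ : ℕ → ℝ} {r : ℤ → ℤ → ℤ → ℤ → ℕ → ℝ} (R : Rel2 ρ r) {ι : Type} (S : Finset ι)
    (e : Polynomial A) (b c : ι → Polynomial A)
    (hid : ∀ (Q : Type) [CommRing Q] [Algebra A Q] (x y s : Q), x + y = -(2 * rr Q * s) →
      x * y = (1 + rr Q ^ 2) * s - 1 → aeval x e ^ 2 + aeval y e ^ 2 +
        2 * ∑ i ∈ S, aeval (4 * (rr Q ^ 2 * s)) (b i) * aeval (4 * s) (c i) = 2) :
    Null (fun n => FF r (0, 0) n - Ev ρ (FF r) (JK kx (pe e ^ 2)) n -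
      ∑ i ∈ S, Ev ρ (FF r) (JK kz (pb (b i)) * JK kw (pb (c i))) n) := by
  obtain ⟨C0, hC0⟩ := R.bd
  obtain ⟨Q, iQ, iA, φ, h1, h2, h3, hφ⟩ := exQ2 (D := FF r) hC0 R.T2
  set a := φ (mm 1 0) with ha
  set a' := φ (mm (-1) 0) with ha'
  set β := φ (mm 0 1) with hβ
  set β' := φ (mm 0 (-1)) with hβ'
  set κ := rr Q with hκ
  obtain ⟨hf, hhf⟩ : ∃ x : Q, x = algebraMap A Q (C (1 / 2)) := ⟨_, rfl⟩
  obtain ⟨hq, hhq⟩ : ∃ x : Q, x = algebraMap A Q (C (1 / 4)) := ⟨_, rfl⟩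
  have hh : 2 * hf = 1 := by
    have : (2 : Q) = algebraMap A Q 2 := (map_ofNat _ 2).symm
    rw [hhf, this, ← map_mul, ← map_one (algebraMap A Q)]
    congr 1
    have : (2 : A) = C 2 := rfl
    rw [this, ← C_mul]
    norm_num
  have hh4 : 4 * hq = 1 := by
    have : (4 : Q) = algebraMap A Q 4 := (map_ofNat _ 4).symm
    rw [hhq, this, ← map_mul, ← map_one (algebraMap A Q)]
    congr 1
    have : (4 : A) = C 4 := rfl
    rw [this, ← C_mul]
    norm_num
  have hqf : hq = hf ^ 2 := by linear_combination (-hq * (2 * hf + 1)) * hh + (hf ^ 2) * hh4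
  have m1 : φ (mm 1 1) = a * β := by
    rw [ha, hβ, ← map_mul, mm_mul]; norm_num
  have m2 : φ (mm (-1) (-1)) = a' * β' := by
    rw [ha', hβ', ← map_mul, mm_mul]; norm_num
  have m3 : φ (mm 1 (-1)) = a * β' := by
    rw [ha, hβ', ← map_mul, mm_mul]; norm_num
  have m4 : φ (mm (-1) 1) = a' * β := by
    rw [ha', hβ, ← map_mul, mm_mul]; norm_num
  obtain ⟨x, hx⟩ : ∃ x, x = φ (JK kx cx) := ⟨_, rfl⟩
  obtain ⟨y, hy⟩ : ∃ y, y = φ (JK kx' cx) := ⟨_, rfl⟩
  obtain ⟨s, hs⟩ : ∃ s, s = hq * φ (JK kw ps) := ⟨_, rfl⟩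
  obtain ⟨z, hz⟩ : ∃ z, z = hq * φ (JK kz ps) := ⟨_, rfl⟩
  have hs4 : φ (JK kw ps) = 4 * s := by rw [hs, ← mul_assoc, hh4, one_mul]
  have hz4 : φ (JK kz ps) = 4 * z := by rw [hz, ← mul_assoc, hh4, one_mul]
  have two : φ 2 = 2 := map_ofNat φ 2
  have ex : x = hf * (β + β') := by
    rw [hx, JK_cx, map_mul, AlgHom.commutes, map_add, hhf]; rfl
  have ey : y = hf * (a + a') := by
    rw [hy, JK_cx, map_mul, AlgHom.commutes, map_add, hhf]; rfl
  have es : s = hq * (2 + (a * β' + a' * β)) := by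
    rw [hs, JK_ps, map_add, map_add, two, ← m3, ← m4]
    rfl
  have ez : z = hq * (2 + (a * β + a' * β')) := by
    rw [hz, JK_ps, map_add, map_add, two, ← m1, ← m2]
    rfl
  -- relations
  have h3' : a' * β' + 1 + κ * (a' + β') = 0 := by
    linear_combination (a' * β') * h3 - (β * β') * h1 - h2 - κ * β' * h1 - κ * a' * h2
  have q1 : x + y = -(2 * κ * s) := by
    have e0 : a + a' + β + β' + κ * (2 + (a * β' + a' * β)) = 0 := by
      linear_combination (a' + β') * h3 - (β + κ) * h1 - (a + κ) * h2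
    rw [ex, ey, es, hqf]
    linear_combination hf * e0 + (hf * κ * (2 + (a * β' + a' * β))) * hh
  have q2 : z = κ ^ 2 * s := by
    have e0 : 2 + (a * β + a' * β') = κ ^ 2 * (2 + (a * β' + a' * β)) := by
      linear_combination (a * β + 1) * h3' - κ * (a' + β') * h3 - (β * β') * h1 - h2 +
        κ ^ 2 * h1 + κ ^ 2 * h2
    rw [ez, es, e0]
    ring
  have q3 : x * y = (1 + κ ^ 2) * s - 1 := by
    have e0 : (β + β') * (a + a') = (2 + (a * β + a' * β')) + (2 + (a * β' + a' * β)) - 4 := by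
      ring
    have e1 : x * y = z + s - 1 := by
      rw [ex, ey, es, ez, hqf]
      linear_combination (hf ^ 2) * e0 - (2 * hf + 1) * hh
    rw [e1, q2]; ring
  have key := hid Q x y s q1 q3
  obtain ⟨X0, hX0⟩ : ∃ X0, X0 = JK kx (pe e ^ 2) := ⟨_, rfl⟩
  obtain ⟨Y0, hY0⟩ : ∃ X0, X0 = JK kx' (pe e ^ 2) := ⟨_, rfl⟩
  have pX : φ X0 = aeval x e ^ 2 := by
    rw [hX0, map_pow, map_pow, JK_pe, al_ev, ← hx]
  have pY : φ Y0 = aeval y e ^ 2 := by
    rw [hY0, map_pow, map_pow, JK_pe, al_ev, ← hy]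
  have pW : ∀ i, φ (JK kz (pb (b i)) * JK kw (pb (c i))) =
      aeval (4 * (κ ^ 2 * s)) (b i) * aeval (4 * s) (c i) := fun i => by
    rw [map_mul, JK_pb, JK_pb, al_ev, al_ev, hs4, hz4, q2]
  have key2 : φ (X0 + Y0 + 2 * ∑ i ∈ S, JK kz (pb (b i)) * JK kw (pb (c i))) = φ (1 + 1) := by
    rw [map_add, map_add, map_mul, map_sum, map_add, map_one, two, pX, pY]
    simp only [pW]
    rw [key]; norm_num
  have n1 := hφ _ _ key2
  have sw : ∀ n, Ev ρ (FF r) Y0 n = Ev ρ (FF r) X0 n := fun n => by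
    rw [hX0, hY0, Ev_JK, Ev_JK]
    congr 1
    funext m n
    exact R.sw m 0 n
  have n2 := null_bd (c := fun _ => -(1 / 2 : ℝ)) n1 (C := 1) fun n => by norm_num [abs_of_pos]
  refine n2.congr fun n => ?_
  have e2 : Ev ρ (FF r) (2 * ∑ i ∈ S, JK kz (pb (b i)) * JK kw (pb (c i))) n =
      2 * ∑ i ∈ S, Ev ρ (FF r) (JK kz (pb (b i)) * JK kw (pb (c i))) n := by
    have e3 : ∀ T : Finset ι, Ev ρ (FF r) (∑ i ∈ T, JK kz (pb (b i)) * JK kw (pb (c i))) n =
        ∑ i ∈ T, Ev ρ (FF r) (JK kz (pb (b i)) * JK kw (pb (c i))) n := by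
      classical
      intro T
      induction T using Finset.induction_on with
      | empty => rw [Finset.sum_empty, Finset.sum_empty, Ev_zero]
      | insert i T hi ih => rw [Finset.sum_insert hi, Finset.sum_insert hi, Ev_add, ih]
    rw [two_mul, Ev_add, e3]; ring
  have e1 : Ev ρ (FF r) 1 n = FF r (0, 0) n := by rw [← mm_zero, Ev_mm]
  rw [← hX0, Ev_add, Ev_add, Ev_add, e1, sw, e2]
  push_cast
  ring

end

end Pool.Agent.H25JM
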