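import Pool.Agent.H25JM.App

/-!
# The targets of the approximation
-/

set_option autoImplicit false
set_option linter.unusedSectionVars false
open MeasureTheory Filter Topology
open scoped Real

namespace Pool.Agent.H25JM

open Pool.Agent.K13.TP

noncomputable section

/-- truncation to `[0, 1]` -/
def cl (x : ℝ) : ℝ := max 0 (min 1 x)

lemma cl_co : Continuous cl := continuous_const.max (continuous_const.min continuous_id)
lemma cl_nn (x : ℝ) : 0 ≤ cl x := le_max_left _ _
lemma cl_le (x : ℝ) : cl x ≤ 1 := max_le zero_le_one (min_le_left _ _)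
lemma cl_id {x : ℝ} (h0 : 0 ≤ x) (h1 : x ≤ 1) : cl x = x := by
  unfold cl; rw [min_eq_right h1, max_eq_right h0]
lemma cl_one {x : ℝ} (h : 1 ≤ x) : cl x = 1 := by
  unfold cl; rw [min_eq_left h, max_eq_right zero_le_one]
lemma cl_zero {x : ℝ} (h : x ≤ 0) : cl x = 0 := by
  unfold cl
  exact max_eq_left ((min_le_right _ _).trans h)

/-- the cutoff near the endpoints of `[0, 1]` -/
def ki (N s : ℝ) : ℝ := max (cl (2 - N * cl s)) (cl (2 - N * (1 - cl s)))

lemma ki_co (N : ℝ) : Continuous (ki N) := by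
  have := cl_co
  unfold ki
  exact (this.comp (continuous_const.sub (continuous_const.mul this))).max
    (this.comp (continuous_const.sub (continuous_const.mul (continuous_const.sub this))))

lemma ki_nn (N s : ℝ) : 0 ≤ ki N s := (cl_nn _).trans (le_max_left _ _)
lemma ki_le (N s : ℝ) : ki N s ≤ 1 := max_le (cl_le _) (cl_le _)

lemma ki_one {N s : ℝ} (h : N * cl s ≤ 1 ∨ N * (1 - cl s) ≤ 1) : ki N s = 1 := by
  refine le_antisymm (ki_le N s) ?_
  unfold ki
  rcases h with h | h
  · rw [cl_one (x := 2 - N * cl s) (by linarith)]; exact le_max_left _ _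
  · rw [cl_one (x := 2 - N * (1 - cl s)) (by linarith)]; exact le_max_right _ _

/-- the derivative of the angle -/
def rs (k s : ℝ) : ℝ := k * √(1 - cl s) / √(1 - k ^ 2 * cl s)

section

variable {k : ℝ} (hk0 : 0 < k) (hk1 : k < 1)

include hk0 hk1 in
lemma den_pos (s : ℝ) : 0 < 1 - k ^ 2 * cl s := by
  have h1 := cl_nn s
  have h2 := cl_le s
  have h3 : k ^ 2 < 1 := by nlinarith
  nlinarith

include hk0 hk1 in
lemma rs_co : Continuous (rs k) := by
  have := cl_co
  unfold rs
  refine (continuous_const.mul (Real.continuous_sqrt.comp (continuous_const.sub this))).div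
    (Real.continuous_sqrt.comp (continuous_const.sub (continuous_const.mul this))) fun s => ?_
  exact (Real.sqrt_pos.2 (den_pos hk0 hk1 s)).ne'

include hk0 in
lemma rs_nn (s : ℝ) : 0 ≤ rs k s := by
  unfold rs; positivity

include hk0 hk1 in
lemma rs_le (s : ℝ) : rs k s ≤ k := by
  unfold rs
  have h0 := den_pos hk0 hk1 s
  have h1 := cl_nn s
  have h3 : k ^ 2 < 1 := by nlinarith
  rw [div_le_iff₀ (Real.sqrt_pos.2 h0)]
  refine mul_le_mul_of_nonneg_left (Real.sqrt_le_sqrt ?_) hk0.le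
  nlinarith

end

/-- the weight of the square -/
def ww (k N s : ℝ) : ℝ := max (ki N s) (cl (N * (2 * √(rs k s) - (1 - rs k s))))

section

variable {k : ℝ} (hk0 : 0 < k) (hk1 : k < 1)

include hk0 hk1 in
lemma ww_co (N : ℝ) : Continuous (ww k N) := by
  have := rs_co hk0 hk1
  unfold ww
  exact (ki_co N).max (cl_co.comp (continuous_const.mul
    ((continuous_const.mul (Real.continuous_sqrt.comp this)).sub (continuous_const.sub this))))

lemma ww_nn (N s : ℝ) : 0 ≤ ww k N s := (ki_nn N s).trans (le_max_left _ _)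
lemma ww_le (N s : ℝ) : ww k N s ≤ 1 := max_le (ki_le _ _) (cl_le _)
lemma ki_ww (N s : ℝ) : ki N s ≤ ww k N s := le_max_left _ _
lemma ww_one {N s : ℝ} (h : ki N s = 1) : ww k N s = 1 :=
  le_antisymm (ww_le N s) (h ▸ ki_ww N s)

/-- the coordinate `s` of a point of `[-1, 1]` -/
def sx (k x : ℝ) : ℝ := (1 - x ^ 2) / max ((1 - k) ^ 2) (1 + k ^ 2 + 2 * k * x)

include hk1 in
lemma sx_pos (x : ℝ) : 0 < max ((1 - k) ^ 2) (1 + k ^ 2 + 2 * k * x) := by
  refine lt_max_of_lt_left ?_
  have : 0 < 1 - k := by linarith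
  positivity

include hk1 in
lemma sx_co : Continuous (sx k) := by
  unfold sx
  refine (continuous_const.sub (continuous_id.pow 2)).div (continuous_const.max (by fun_prop))
    fun x => (sx_pos hk1 x).ne'

include hk0 hk1 in
lemma sx_eq {x s : ℝ} (hx : -1 ≤ x) (h : 1 - x ^ 2 = s * (1 + k ^ 2 + 2 * k * x)) :
    sx k x = s := by
  have h1 : (1 - k) ^ 2 ≤ 1 + k ^ 2 + 2 * k * x := by nlinarith
  have h2 := sx_pos hk1 x
  unfold sx
  rw [max_eq_right h1] at h2 ⊢
  rw [h]; exact mul_div_cancel_right₀ s h2.ne'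

/-- the target for the mixed expression -/
def EE (k N x : ℝ) : ℝ :=
  if -k ≤ x then √(ki N (sx k x)) else √(2 * ww k N (sx k x) - ki N (sx k x))

include hk0 hk1 in
lemma sx_k : sx k (-k) = 1 := sx_eq hk0 hk1 (by linarith) (by ring)

lemma ki_1 (N : ℝ) : ki N 1 = 1 := ki_one (Or.inr (by rw [cl_one le_rfl]; norm_num))
lemma ki_0 (N : ℝ) : ki N 0 = 1 := ki_one (Or.inl (by rw [cl_zero le_rfl]; norm_num))

include hk0 hk1 in
lemma EE_co (N : ℝ) : Continuous (EE k N) := by
  have h1 := sx_co hk1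
  unfold EE
  refine Continuous.if_le (Real.continuous_sqrt.comp ((ki_co N).comp h1))
    (Real.continuous_sqrt.comp ((continuous_const.mul ((ww_co hk0 hk1 N).comp h1)).sub
      ((ki_co N).comp h1))) continuous_const continuous_id fun x hx => ?_
  rw [← hx, sx_k hk0 hk1, ki_1, ww_one (ki_1 N)]
  norm_num

lemma EE_hi {N x : ℝ} (hx : -k ≤ x) : EE k N x ^ 2 = ki N (sx k x) := by
  unfold EE
  rw [if_pos hx, Real.sq_sqrt (ki_nn _ _)]

include hk0 hk1 in
lemma EE_lo {N x : ℝ} (hx : x ≤ -k) :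
    EE k N x ^ 2 = 2 * ww k N (sx k x) - ki N (sx k x) := by
  rcases hx.eq_or_lt with h | h
  · rw [EE_hi h.ge, h, sx_k hk0 hk1, ki_1, ww_one (ki_1 N)]
    norm_num
  · unfold EE
    rw [if_neg (not_le.2 h), Real.sq_sqrt]
    have h1 := ki_ww (k := k) N (sx k x)
    have h2 := ww_nn (k := k) N (sx k x)
    linarith

include hk0 hk1 in
lemma EE_one {N x : ℝ} (h : ki N (sx k x) = 1) : EE k N x = 1 := by
  unfold EE
  rw [ww_one h, h]
  norm_num

/-- the fourth root -/
def gg (k η s : ℝ) : ℝ := √(√(rs k s + η))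

include hk0 hk1 in
lemma gg_co (η : ℝ) : Continuous (gg k η) := by
  unfold gg
  exact Real.continuous_sqrt.comp (Real.continuous_sqrt.comp ((rs_co hk0 hk1).add continuous_const))

include hk0 in
lemma gg_pos {η : ℝ} (hη : 0 < η) (s : ℝ) : 0 < gg k η s := by
  have := rs_nn hk0 s
  unfold gg
  exact Real.sqrt_pos.2 (Real.sqrt_pos.2 (by linarith))

/-- the target for the first factor -/
def Bt (k η N P : ℝ) : ℝ := √(1 - ww k N (P / (4 * k ^ 2))) / gg k η (P / (4 * k ^ 2))
/-- the target for the second factor -/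
def Ct (k η N S : ℝ) : ℝ := √(1 - ww k N (S / 4)) * gg k η (S / 4)

lemma near {N : ℝ} {F : ℝ → ℝ} (hF : Continuous F) {x : ℝ} (h : cl (F x) = 0 ∨ cl (F x) = 1) :
    ∀ᶠ y in 𝓝 x, ki N (F y) = 1 := by
  have c1 : Continuous fun y => N * cl (F y) := continuous_const.mul (cl_co.comp hF)
  have c2 : Continuous fun y => N * (1 - cl (F y)) :=
    continuous_const.mul (continuous_const.sub (cl_co.comp hF))
  rcases h with h | h
  · have := (c1.tendsto x).eventually (gt_mem_nhds (show N * cl (F x) < 1 by rw [h]; norm_num))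
    exact this.mono fun y hy => ki_one (Or.inl hy.le)
  · have := (c2.tendsto x).eventually (gt_mem_nhds (show N * (1 - cl (F x)) < 1 by
      rw [h]; norm_num))
    exact this.mono fun y hy => ki_one (Or.inr hy.le)

include hk0 hk1 in
lemma crv {s w : ℝ} (hs0 : 0 ≤ s) (hs1 : s ≤ 1) (w0 : 0 ≤ w)
    (hw2 : w ^ 2 = (1 - s) * (1 - k ^ 2 * s)) :
    (-k ≤ -(k * s) + w ∧ sx k (-(k * s) + w) = s) ∧
      (-(k * s) - w ≤ -k ∧ sx k (-(k * s) - w) = s) := by
  obtain ⟨x, ex⟩ : ∃ x, x = -(k * s) + w := ⟨_, rfl⟩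
  obtain ⟨y, ey⟩ : ∃ y, y = -(k * s) - w := ⟨_, rfl⟩
  rw [← ex, ← ey]
  have hw1 : w ≤ 1 - k * s := by
    have h : w ^ 2 ≤ (1 - k * s) ^ 2 := by
      rw [hw2]; nlinarith [mul_nonneg hs0 (sq_nonneg (1 - k))]
    have h2 : 0 ≤ 1 - k * s := by nlinarith
    exact abs_le_of_sq_le_sq' h h2 |>.2
  have qx : 1 - x ^ 2 = s * (1 + k ^ 2 + 2 * k * x) := by
    rw [ex]; linear_combination -hw2
  have qy : 1 - y ^ 2 = s * (1 + k ^ 2 + 2 * k * y) := by
    rw [ey]; linear_combination -hw2
  have mx : -1 ≤ x := by rw [ex]; nlinarith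
  have my : -1 ≤ y := by rw [ey]; linarith
  have kx : -k ≤ x := by rw [ex]; nlinarith
  have ky : y ≤ -k := by
    have h1 : (y + k) * (k * y + 1) = -((1 + k ^ 2 + 2 * k * y) * w) := by
      rw [ey]; linear_combination (-k) * hw2
    have h2 : 0 < k * y + 1 := by nlinarith
    have h3 : 0 ≤ (1 + k ^ 2 + 2 * k * y) * w := by
      refine mul_nonneg ?_ w0
      nlinarith [sq_nonneg (1 - k)]
    by_contra hc
    push Not at hc
    nlinarith [mul_pos (by linarith : 0 < y + k) h2]
  exact ⟨⟨kx, sx_eq hk0 hk1 mx qx⟩, ky, sx_eq hk0 hk1 my qy⟩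

lemma Ct_sq {η N s : ℝ} : Ct k η N (4 * s) ^ 2 = (1 - ww k N s) * √(rs k s + η) := by
  unfold Ct gg
  rw [show 4 * s / 4 = s by ring, mul_pow, Real.sq_sqrt (Real.sqrt_nonneg _),
    Real.sq_sqrt (by linarith [ww_le (k := k) N s])]

include hk0 in
lemma Bt_sq {η N s : ℝ} : Bt k η N (4 * (k ^ 2 * s)) ^ 2 =
    (1 - ww k N s) / √(rs k s + η) := by
  unfold Bt gg
  rw [show 4 * (k ^ 2 * s) / (4 * k ^ 2) = s by field_simp, div_pow,
    Real.sq_sqrt (Real.sqrt_nonneg _), Real.sq_sqrt (by linarith [ww_le (k := k) N s])]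

include hk0 in
lemma Bt_zero {η N P : ℝ} (h : 4 * k ^ 2 ≤ P) : Bt k η N P = 0 := by
  have h1 : 1 ≤ P / (4 * k ^ 2) := by rw [le_div_iff₀ (by positivity)]; linarith
  have h2 : ki N (P / (4 * k ^ 2)) = 1 := ki_one (Or.inr (by rw [cl_one h1]; norm_num))
  unfold Bt
  rw [ww_one h2]; simp

include hk0 hk1 in
/-- **the targets** -/
theorem tgt {η N : ℝ} (hη : 0 < η) : Tgt k (EE k N) (Bt k η N) (Ct k η N) where
  cE := EE_co hk0 hk1 N
  cB := by
    unfold Bt
    have c : Continuous fun P : ℝ => P / (4 * k ^ 2) := continuous_id.div_const _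
    exact (Real.continuous_sqrt.comp (continuous_const.sub ((ww_co hk0 hk1 N).comp c))).div
      ((gg_co hk0 hk1 η).comp c) fun P => (gg_pos hk0 hη _).ne'
  cC := by
    unfold Ct
    have c : Continuous fun P : ℝ => P / 4 := continuous_id.div_const _
    exact (Real.continuous_sqrt.comp (continuous_const.sub ((ww_co hk0 hk1 N).comp c))).mul
      ((gg_co hk0 hk1 η).comp c)
  E1 := fun x hx h0 => by
    refine (near (N := N) (sx_co hk1) (x := x) ?_).mono fun y hy => EE_one hk0 hk1 hy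
    unfold DD at h0
    have h1 : k * x + 1 ≠ 0 := by nlinarith [hx.1]
    have h2 : k ^ 2 ≠ 0 := by positivity
    rcases mul_eq_zero.1 h0 with h0 | h0
    · rcases mul_eq_zero.1 h0 with h0 | h0
      · rcases mul_eq_zero.1 h0 with h0 | h0
        · exact absurd h0 h2
        · left
          have h3 : 1 - x ^ 2 = 0 := pow_eq_zero_iff two_ne_zero |>.1 h0
          have h4 : sx k x = 0 := by unfold sx; rw [h3, zero_div]
          rw [h4]; exact cl_zero le_rfl
      · right
        have h3 : x = -k := by linarith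
        rw [h3, sx_k hk0 hk1]; exact cl_one le_rfl
    · exact absurd h0 h1
  B1 := fun x hx h0 => by
    have c : Continuous fun P : ℝ => P / (4 * k ^ 2) := continuous_id.div_const _
    refine (near (N := N) c (x := x) ?_).mono fun y hy => by
      unfold Bt; rw [ww_one hy]; simp
    rcases mul_eq_zero.1 h0 with h0 | h0
    · left; rw [h0, zero_div]; exact cl_zero le_rfl
    · right
      have h3 : x = 4 := by linarith
      refine cl_one ?_
      rw [h3, le_div_iff₀ (by positivity)]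
      nlinarith
  C1 := fun x hx h0 => by
    have c : Continuous fun P : ℝ => P / 4 := continuous_id.div_const _
    refine (near (N := N) c (x := x) ?_).mono fun y hy => by
      unfold Ct; rw [ww_one hy]; simp
    rcases mul_eq_zero.1 h0 with h0 | h0
    · left; rw [h0, zero_div]; exact cl_zero le_rfl
    · right
      have h3 : x = 4 := by linarith
      rw [h3]; exact cl_one (by norm_num)
  id := fun x y w s hs0 hs1 w0 ex ey hw2 => by
    obtain ⟨⟨kx, e3⟩, ky, e4⟩ := crv hk0 hk1 hs0 hs1 w0 hw2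
    rw [← ex] at kx e3
    rw [← ey] at ky e4
    rw [EE_hi kx, EE_lo hk0 hk1 ky, e3, e4]
    have e1 : 4 * (k ^ 2 * s) / (4 * k ^ 2) = s := by field_simp
    have e2 : 4 * s / 4 = s := by ring
    unfold Bt Ct
    rw [e1, e2]
    have g := (gg_pos hk0 hη s).ne'
    have h1 : √(1 - ww k N s) / gg k η s * (√(1 - ww k N s) * gg k η s) = 1 - ww k N s := by
      have := Real.mul_self_sqrt (show 0 ≤ 1 - ww k N s by linarith [ww_le (k := k) N s])
      field_simp
      linarith [this]
    rw [h1]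
    ring

end

end

end Pool.Agent.H25JM
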