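import Pool.Agent.H25JM.Upb
import Pool.Agent.H25JM.App

/-!
# Approximation of the symbols by polynomials: the upper bound
-/

set_option autoImplicit false
set_option linter.unusedSectionVars false
open MeasureTheory Filter Topology
open scoped Real

namespace Pool.Agent.H25JM

open Pool.Agent.K13.TP

noncomputable section

lemma PolyIdU.real {ι : Type} {S : Finset ι} {U : Polynomial A} {b c : ι → Polynomial A}
    (h : PolyIdU S U b c) (k x y s : ℝ) (h1 : x + y = -(2 * k * s))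
    (h2 : x * y = (1 + k ^ 2) * s - 1) :
    (1 - x ^ 2) * ev2 k x U ^ 2 + (1 - y ^ 2) * ev2 k y U ^ 2 +
      2 * ∑ i ∈ S, ev2 k (4 * (k ^ 2 * s)) (b i) * ev2 k (4 * s) (c i) = 2 := by
  let _ := algR k
  have hr := rr_R k
  have := h ℝ x y s (by rw [hr]; exact h1) (by rw [hr]; exact h2)
  rw [hr] at this
  simp only [← aeval_ev2]
  exact this

/-- the identity can always be completed -/
theorem polyIdU (U b1 b2 c1 c2 : Polynomial A) : ∃ R : Polynomial A,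
    PolyIdU (Finset.univ : Finset (Fin 3)) U ![b1, b2, 1] ![c1, c2, R] := by
  obtain ⟨D1, B1, h1⟩ := exDB (wU U)
  refine ⟨1 - B1.comp (Polynomial.C (Polynomial.C (1 / 4)) * Polynomial.X) -
    b1.comp (Polynomial.C (Polynomial.X ^ 2) * Polynomial.X) * c1 -
    b2.comp (Polynomial.C (Polynomial.X ^ 2) * Polynomial.X) * c2, ?_⟩
  intro Q _ _ x y s hs hp
  obtain ⟨-, a1⟩ := h1 Q x y s hs hp
  have e : ∀ t : Q, Polynomial.aeval t (wU U) = (1 - t ^ 2) * Polynomial.aeval t U ^ 2 := fun t => by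
    unfold wU
    rw [map_mul, map_sub, map_pow, map_pow, map_one, Polynomial.aeval_X]
  rw [e, e] at a1
  obtain ⟨k, hk⟩ : ∃ k : Q, k = rr Q := ⟨_, rfl⟩
  have rX : algebraMap A Q Polynomial.X = k := hk.symm
  obtain ⟨hq, hhq⟩ : ∃ x : Q, x = algebraMap A Q (Polynomial.C (1 / 4)) := ⟨_, rfl⟩
  have hh4 : 4 * hq = 1 := by
    rw [hhq, ← alg_four (Q := Q), ← map_mul, ← map_one (algebraMap A Q)]
    congr 1
    have : (4 : A) = Polynomial.C 4 := rfl
    rw [this, ← Polynomial.C_mul]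
    norm_num
  have ed : ∀ D : Polynomial A, Polynomial.aeval (4 * s)
      (D.comp (Polynomial.C (Polynomial.C (1 / 4)) * Polynomial.X)) = Polynomial.aeval s D := by
    intro D
    rw [Polynomial.aeval_comp, map_mul, Polynomial.aeval_C, Polynomial.aeval_X, ← hhq, ← mul_assoc,
      mul_comm hq 4, hh4, one_mul]
  have eβ : ∀ D : Polynomial A, Polynomial.aeval (4 * s)
      (D.comp (Polynomial.C (Polynomial.X ^ 2) * Polynomial.X)) =
      Polynomial.aeval (4 * (k ^ 2 * s)) D := by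
    intro D
    rw [Polynomial.aeval_comp, map_mul, Polynomial.aeval_C, Polynomial.aeval_X, map_pow, rX]
    congr 2; ring
  rw [Fin.sum_univ_three, ← hk]
  simp only [Matrix.cons_val_zero, Matrix.cons_val_one, Matrix.cons_val]
  rw [map_sub, map_sub, map_sub, map_mul, map_mul, map_one, map_one, ed, eβ, eβ]
  linear_combination a1

/-- approximation of a function which vanishes at the endpoints -/
lemma app0 {f : ℝ → ℝ} {a b : ℝ} (hab : a < b) (hf : Continuous f) (fa : f a = 0) (fb : f b = 0)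
    {η : ℝ} (hη : 0 < η) : ∃ p : Polynomial ℝ, p.eval a = 0 ∧ p.eval b = 0 ∧
      ∀ x ∈ Set.Icc a b, |p.eval x - f x| ≤ η := by
  obtain ⟨p, hp⟩ := exists_polynomial_near_of_continuousOn a b f hf.continuousOn (η / 3)
    (by positivity)
  have ha := hp a ⟨le_rfl, hab.le⟩
  have hb := hp b ⟨hab.le, le_rfl⟩
  rw [fa, sub_zero] at ha
  rw [fb, sub_zero] at hb
  have d : 0 < b - a := by linarith
  refine ⟨p - Polynomial.C (p.eval a / (b - a)) * (Polynomial.C b - Polynomial.X) -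
    Polynomial.C (p.eval b / (b - a)) * (Polynomial.X - Polynomial.C a), ?_, ?_, fun x hx => ?_⟩
  · simp only [Polynomial.eval_sub, Polynomial.eval_mul, Polynomial.eval_C, Polynomial.eval_X,
      sub_self, mul_zero, sub_zero]
    rw [div_mul_cancel₀ _ d.ne', sub_self]
  · simp only [Polynomial.eval_sub, Polynomial.eval_mul, Polynomial.eval_C, Polynomial.eval_X,
      sub_self, mul_zero, sub_zero]
    rw [div_mul_cancel₀ _ d.ne', sub_self]
  · simp only [Polynomial.eval_sub, Polynomial.eval_mul, Polynomial.eval_C, Polynomial.eval_X]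
    have h1 := (hp x hx).le
    have h2 : |p.eval a / (b - a) * (b - x)| ≤ η / 3 := by
      rw [abs_mul, abs_div, abs_of_pos d, abs_of_nonneg (by linarith [hx.2] : 0 ≤ b - x),
        div_mul_eq_mul_div, div_le_iff₀ d]
      exact mul_le_mul ha.le (by linarith [hx.1]) (by linarith [hx.2]) (by positivity)
    have h3 : |p.eval b / (b - a) * (x - a)| ≤ η / 3 := by
      rw [abs_mul, abs_div, abs_of_pos d, abs_of_nonneg (by linarith [hx.1] : 0 ≤ x - a),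
        div_mul_eq_mul_div, div_le_iff₀ d]
      exact mul_le_mul hb.le (by linarith [hx.2]) (by linarith [hx.1]) (by positivity)
    obtain ⟨u, hu⟩ : ∃ u, u = p.eval a / (b - a) * (b - x) := ⟨_, rfl⟩
    obtain ⟨v, hv⟩ : ∃ v, v = p.eval b / (b - a) * (x - a) := ⟨_, rfl⟩
    rw [← hu] at h2 ⊢
    rw [← hv] at h3 ⊢
    rw [abs_le] at h1 h2 h3 ⊢
    constructor <;> linarith [h1.1, h1.2, h2.1, h2.2, h3.1, h3.2]

/-- the targets of the approximation -/
structure TgtU (k : ℝ) (N : ℕ) (U B C : ℝ → ℝ) : Prop where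
  cU : Continuous U
  cB : Continuous B
  cC : Continuous C
  B0 : B 0 = 0
  B4 : B 4 = 0
  C0 : C 0 = 0
  C4 : C 4 = 0
  id : ∀ x y w s, 0 ≤ s → s ≤ 1 → 0 ≤ w → x = -(k * s) + w → y = -(k * s) - w →
    w ^ 2 = (1 - s) * (1 - k ^ 2 * s) → (1 - x ^ 2) * U x ^ 2 + (1 - y ^ 2) * U y ^ 2 +
      2 * (B (4 * (k ^ 2 * s)) * C (4 * s) + (1 - k ^ 2 * s) ^ N * (1 - s) ^ N) = 2

/-- the polynomial `(1 - P/4)^N` -/
def qN (N : ℕ) : Polynomial A := ((1 - Polynomial.C (1 / 4) * Polynomial.X) ^ N : Polynomial ℝ).map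
  Polynomial.C

lemma ev2_qN (N : ℕ) (t x : ℝ) : ev2 t x (qN N) = (1 - x / 4) ^ N := by
  unfold qN
  rw [ev2_map]
  simp only [Polynomial.eval_pow, Polynomial.eval_sub, Polynomial.eval_one, Polynomial.eval_mul,
    Polynomial.eval_C, Polynomial.eval_X]
  congr 1; ring

lemma ev2_1 (t x : ℝ) : ev2 t x 1 = 1 := by simp [ev2]

lemma pr1 {a b A' B' M η : ℝ} (h1 : |a - A'| ≤ η) (h2 : |b - B'| ≤ η) (hA : |A'| ≤ M)
    (hB : |B'| ≤ M) : |a * b - A' * B'| ≤ η * (2 * M + η) := by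
  have e : a * b - A' * B' = (a - A') * (B' + (b - B')) + A' * (b - B') := by ring
  have η0 : 0 ≤ η := (abs_nonneg _).trans h1
  have M0 : 0 ≤ M := (abs_nonneg _).trans hA
  rw [e]
  refine (abs_add_le _ _).trans ?_
  rw [abs_mul, abs_mul]
  have t1 : |B' + (b - B')| ≤ M + η := (abs_add_le _ _).trans (by linarith)
  have t2 : |a - A'| * |B' + (b - B')| ≤ η * (M + η) := mul_le_mul h1 t1 (abs_nonneg _) η0
  have t3 : |A'| * |b - B'| ≤ M * η := mul_le_mul hA h2 (abs_nonneg _) M0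
  linarith

lemma fin1U {x y X1 Y1 Z1 d Rv δ : ℝ} (mx : x ∈ Set.Icc (-1 : ℝ) 1) (my : y ∈ Set.Icc (-1 : ℝ) 1)
    (key : Rv = -(1 / 2 * ((1 - x ^ 2) * X1)) - 1 / 2 * ((1 - y ^ 2) * Y1) - Z1)
    (u1 : |X1| ≤ d) (u2 : |Y1| ≤ d) (v1 : |Z1| ≤ d) (hd : 2 * d < δ) : |Rv| ≤ δ := by
  have x0 : 0 ≤ 1 - x ^ 2 ∧ 1 - x ^ 2 ≤ 1 :=
    ⟨by nlinarith [mx.1, mx.2], by nlinarith [sq_nonneg x]⟩
  have y0 : 0 ≤ 1 - y ^ 2 ∧ 1 - y ^ 2 ≤ 1 :=
    ⟨by nlinarith [my.1, my.2], by nlinarith [sq_nonneg y]⟩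
  have t1 : |(1 - x ^ 2) * X1| ≤ d := by
    rw [abs_mul, abs_of_nonneg x0.1]
    exact (mul_le_of_le_one_left (abs_nonneg _) x0.2).trans u1
  have t2 : |(1 - y ^ 2) * Y1| ≤ d := by
    rw [abs_mul, abs_of_nonneg y0.1]
    exact (mul_le_of_le_one_left (abs_nonneg _) y0.2).trans u2
  rw [key]
  rw [abs_le] at t1 t2 v1 ⊢
  constructor <;> linarith [t1.1, t1.2, t2.1, t2.2, v1.1, v1.2]

/-- **the approximation** -/
theorem approxU {k : ℝ} (hk0 : 0 < k) (hk1 : k < 1) {N : ℕ} {Us B C : ℝ → ℝ}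
    (T : TgtU k N Us B C) {δ : ℝ} (hδ : 0 < δ) : ∃ (U b1 c1 R : Polynomial A),
      PolyIdU (Finset.univ : Finset (Fin 3)) U ![b1, qN N, 1] ![c1, qN N, R] ∧
      (∀ t, ev2 t 0 b1 = 0) ∧ (∀ t, ev2 t 4 b1 = 0) ∧ (∀ t, ev2 t 0 c1 = 0) ∧
      (∀ t, ev2 t 4 c1 = 0) ∧
      gs U k ≤ ms (fun θ => Real.sin θ * Us (Real.cos θ)) + δ ∧
      gp b1 k ≤ ms (fun θ => B (2 + 2 * Real.cos θ)) + δ ∧
      gp c1 k ≤ ms (fun θ => C (2 + 2 * Real.cos θ)) + δ ∧
      (∀ x ∈ Set.Icc (0 : ℝ) 4, |ev2 k x R| ≤ δ) := by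
  obtain ⟨M1, hM1⟩ := isCompact_Icc.exists_bound_of_continuousOn
    (s := Set.Icc (-1 : ℝ) 1) T.cU.continuousOn
  obtain ⟨M2, hM2⟩ := isCompact_Icc.exists_bound_of_continuousOn
    (s := Set.Icc (0 : ℝ) 4) T.cB.continuousOn
  obtain ⟨M3, hM3⟩ := isCompact_Icc.exists_bound_of_continuousOn
    (s := Set.Icc (0 : ℝ) 4) T.cC.continuousOn
  obtain ⟨M, hM⟩ : ∃ M, M = |M1| + |M2| + |M3| + 1 := ⟨_, rfl⟩
  have M0 : 0 < M := by rw [hM]; positivity
  have bU : ∀ x ∈ Set.Icc (-1 : ℝ) 1, |Us x| ≤ M := fun x hx => by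
    have h1 := hM1 x hx
    rw [Real.norm_eq_abs] at h1
    rw [hM]
    linarith [le_abs_self M1, abs_nonneg M2, abs_nonneg M3]
  have bB : ∀ x ∈ Set.Icc (0 : ℝ) 4, |B x| ≤ M := fun x hx => by
    have h1 := hM2 x hx
    rw [Real.norm_eq_abs] at h1
    rw [hM]
    linarith [le_abs_self M2, abs_nonneg M1, abs_nonneg M3]
  have bC : ∀ x ∈ Set.Icc (0 : ℝ) 4, |C x| ≤ M := fun x hx => by
    have h1 := hM3 x hx
    rw [Real.norm_eq_abs] at h1
    rw [hM]
    linarith [le_abs_self M3, abs_nonneg M1, abs_nonneg M2]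
  obtain ⟨η, hη0, hη⟩ : ∃ η : ℝ, 0 < η ∧ 2 * (η * (2 * M + η)) < δ := by
    have hc : Continuous (fun η : ℝ => 2 * (η * (2 * M + η))) := by fun_prop
    have h1 := (hc.tendsto 0).eventually (gt_mem_nhds (show 2 * (0 * (2 * M + 0)) < δ by simpa using hδ))
    have h2 : ∀ᶠ δ : ℝ in 𝓝[>] 0, 0 < δ := eventually_mem_nhdsWithin
    obtain ⟨δ, h4, h6⟩ := ((h2.and (eventually_nhdsWithin_of_eventually_nhds h1))).exists
    exact ⟨δ, h4, h6⟩
  have ηM : 0 ≤ η * (2 * M + η) := by positivity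
  obtain ⟨u, hu⟩ := exists_polynomial_near_of_continuousOn (-1) 1 Us T.cU.continuousOn η hη0
  obtain ⟨β, β0, β4, hβ⟩ := app0 (a := 0) (b := 4) (by norm_num) T.cB T.B0 T.B4 hη0
  obtain ⟨γ, γ0, γ4, hγ⟩ := app0 (a := 0) (b := 4) (by norm_num) T.cC T.C0 T.C4 hη0
  obtain ⟨R, hR⟩ := polyIdU (u.map Polynomial.C) (β.map Polynomial.C) (qN N) (γ.map Polynomial.C)
    (qN N)
  have dU : ∀ x ∈ Set.Icc (-1 : ℝ) 1, |ev2 k x (u.map Polynomial.C) ^ 2 - Us x ^ 2| ≤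
      η * (2 * M + η) := by
    intro x hx
    rw [ev2_map]
    exact sqd (hu x hx).le (bU x hx)
  refine ⟨u.map Polynomial.C, β.map Polynomial.C, γ.map Polynomial.C, R, hR,
    fun t => by rw [ev2_map]; exact β0, fun t => by rw [ev2_map]; exact β4,
    fun t => by rw [ev2_map]; exact γ0, fun t => by rw [ev2_map]; exact γ4, ?_, ?_, ?_, ?_⟩
  · have e : gs (u.map Polynomial.C) k = ms (fun θ => Real.sin θ * ev2 k (Real.cos θ)
      (u.map Polynomial.C)) := rfl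
    rw [e]
    refine ms_cmp (Real.continuous_sin.mul ((ev2_co k _).comp Real.continuous_cos))
      (Real.continuous_sin.mul (T.cU.comp Real.continuous_cos)) fun θ => ?_
    have h1 := (abs_le.1 (dU _ (cos_mem θ))).2
    have h2 : Real.sin θ ^ 2 ≤ 1 := Real.sin_sq_le_one θ
    have h3 := sq_nonneg (Real.sin θ)
    show (Real.sin θ * ev2 k (Real.cos θ) (u.map Polynomial.C)) ^ 2 ≤
      (Real.sin θ * Us (Real.cos θ)) ^ 2 + δ
    rw [mul_pow, mul_pow]
    have h4 := mul_le_mul_of_nonneg_left h1 h3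
    have h5 := mul_le_of_le_one_left ηM h2
    linarith
  · rw [gp_ms]
    refine ms_cmp ((ev2_co k _).comp (by fun_prop)) (T.cB.comp (by fun_prop)) fun θ => ?_
    have m := cos_mem4 θ
    have h2 := (abs_le.1 (sqd (hβ _ m) (bB _ m))).2
    simp only [Function.comp_def]
    rw [ev2_map]
    linarith
  · rw [gp_ms]
    refine ms_cmp ((ev2_co k _).comp (by fun_prop)) (T.cC.comp (by fun_prop)) fun θ => ?_
    have m := cos_mem4 θ
    have h2 := (abs_le.1 (sqd (hγ _ m) (bC _ m))).2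
    simp only [Function.comp_def]
    rw [ev2_map]
    linarith
  · intro X hX
    obtain ⟨s, hs⟩ : ∃ s, s = X / 4 := ⟨_, rfl⟩
    have eX : X = 4 * s := by rw [hs]; ring
    have hs0 : 0 ≤ s := by rw [hs]; linarith [hX.1]
    have hs1 : s ≤ 1 := by rw [hs]; linarith [hX.2]
    rw [eX]
    obtain ⟨x, y, w, w0, w1, ex, ey, p1, p2, mx, my, qx, qy, rx, ry, hw2⟩ :=
      curve hk0 hk1 hs0 hs1
    have i1 := hR.real k x y s p1 p2
    have i2 := T.id x y w s hs0 hs1 w0 ex ey hw2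
    rw [Fin.sum_univ_three] at i1
    simp only [Matrix.cons_val_zero, Matrix.cons_val_one, Matrix.cons_val] at i1
    rw [ev2_qN, ev2_qN, ev2_1, one_mul, show 1 - 4 * (k ^ 2 * s) / 4 = 1 - k ^ 2 * s by ring,
      show 1 - 4 * s / 4 = 1 - s by ring] at i1
    have mB := (cst4 hk0 hk1 hs0 hs1).2.2
    have mC : 4 * s ∈ Set.Icc (0 : ℝ) 4 := ⟨by linarith, by linarith⟩
    have v1 := pr1 (hβ _ mB) (hγ _ mC) (bB _ mB) (bC _ mC)
    rw [ev2_map k _ β, ev2_map k _ γ] at i1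
    have u1 := dU x mx
    have u2 := dU y my
    obtain ⟨X1, hX1⟩ : ∃ a, a = ev2 k x (u.map Polynomial.C) ^ 2 - Us x ^ 2 := ⟨_, rfl⟩
    obtain ⟨Y1, hY1⟩ : ∃ a, a = ev2 k y (u.map Polynomial.C) ^ 2 - Us y ^ 2 := ⟨_, rfl⟩
    obtain ⟨Z1, hZ1⟩ : ∃ a, a = β.eval (4 * (k ^ 2 * s)) * γ.eval (4 * s) -
      B (4 * (k ^ 2 * s)) * C (4 * s) := ⟨_, rfl⟩
    rw [← hX1] at u1
    rw [← hY1] at u2
    rw [← hZ1] at v1
    refine fin1U mx my ?_ u1 u2 v1 hη
    rw [hX1, hY1, hZ1]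
    linear_combination (1 / 2) * i1 - (1 / 2) * i2

end

end Pool.Agent.H25JM
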