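import Pool.Agent.H25JM.UTg

/-!
# The cost of the targets: the upper bound
-/

set_option autoImplicit false
set_option linter.unusedSectionVars false
open MeasureTheory Filter Topology
open scoped Real

namespace Pool.Agent.H25JM

open Pool.Agent.K13.TP

noncomputable section

/-- the pointwise bound -/
lemma ptwU {r χ τ η N : ℝ} (hr0 : 0 ≤ r) (hη : 0 < η) (hN : 0 < N)
    (hχ0 : 0 ≤ χ) (hχ1 : χ ≤ 1) (hτ0 : 0 ≤ τ) (hr1 : r ≤ 1) {a : ℝ}
    (ha : a = max χ (min (cl (N * (2 * √r - (1 - r)))) (1 - τ))) :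
    1 / 2 * (χ * (r + 1) + (2 * a - χ) * (1 - r)) +
      ((1 - a) / √(r + η) * r + (1 - a) * √(r + η)) ≤
      min (1 - r) (2 * √r) + (χ + 2 * τ + (2 * √η + 1 / N)) := by
  have a0 : 0 ≤ a := by rw [ha]; exact hχ0.trans (le_max_left _ _)
  have a1 : a ≤ 1 := by rw [ha]; exact max_le hχ1 ((min_le_left _ _).trans (cl_le _))
  obtain ⟨q, hq⟩ : ∃ q, q = √(r + η) := ⟨_, rfl⟩
  have q0 : 0 < q := by rw [hq]; exact Real.sqrt_pos.2 (by linarith)
  have q2 : q ^ 2 = r + η := by rw [hq, Real.sq_sqrt (by linarith)]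
  have q1 : q ≤ √r + √η := by
    rw [hq]
    refine Real.sqrt_le_iff.2 ⟨by positivity, ?_⟩
    have h1 := Real.sq_sqrt hr0
    have h2 := Real.sq_sqrt hη.le
    have h3 : 0 ≤ √r * √η := by positivity
    nlinarith
  rw [← hq]
  have b1 : (1 - a) / q * r + (1 - a) * q ≤ (1 - a) * (2 * √r) + 2 * √η := by
    have h1 : r / q ≤ q := by rw [div_le_iff₀ q0]; nlinarith
    have h2 : (1 - a) / q * r = (1 - a) * (r / q) := by ring
    rw [h2]
    have h3 : (1 - a) * (r / q) ≤ (1 - a) * q := mul_le_mul_of_nonneg_left h1 (by linarith)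
    have h4 : (1 - a) * q ≤ (1 - a) * (√r + √η) := mul_le_mul_of_nonneg_left q1 (by linarith)
    have h5 : (1 - a) * √η ≤ √η := mul_le_of_le_one_left (Real.sqrt_nonneg _) (by linarith)
    nlinarith
  have hi : 0 < 1 / N := by positivity
  have sη := Real.sqrt_nonneg η
  have sr := Real.sqrt_nonneg r
  have sr1 : √r ≤ 1 := Real.sqrt_le_one.2 hr1
  obtain ⟨p, hp⟩ : ∃ p, p = √r := ⟨_, rfl⟩
  rw [← hp] at ha b1 sr sr1 ⊢
  have h5 : χ * r ≤ χ := mul_le_of_le_one_right hχ0 hr1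
  rcases le_total (2 * p) (1 - r) with h | h
  · have h1 : cl (N * (2 * p - (1 - r))) = 0 := cl_zero (by nlinarith)
    rw [h1] at ha
    have h2 : min 0 (1 - τ) ≤ 0 := min_le_left _ _
    have h3 : a = χ := by rw [ha]; exact max_eq_left (h2.trans hχ0)
    rw [min_eq_right h, h3]
    rw [h3] at b1
    nlinarith
  · rw [min_eq_left h]
    obtain ⟨z, hz⟩ : ∃ z, z = 2 * p - (1 - r) := ⟨_, rfl⟩
    have z0 : 0 ≤ z := by linarith
    have z2 : z ≤ 2 := by linarith
    rw [← hz] at ha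
    have h6 : min (cl (N * z)) (1 - τ) ≤ a := by rw [ha]; exact le_max_right _ _
    have h2 : (1 - a) * z ≤ 1 / N + 2 * τ := by
      rcases le_total (cl (N * z)) (1 - τ) with h7 | h7
      · rw [min_eq_left h7] at h6
        rcases le_total (N * z) 1 with h3 | h3
        · have h4 : z ≤ 1 / N := by rw [le_div_iff₀ hN]; linarith
          nlinarith
        · have h4 : a = 1 := by
            refine le_antisymm a1 ?_
            rw [cl_one h3] at h6
            exact h6
          rw [h4, sub_self, zero_mul]; positivity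
      · rw [min_eq_right h7] at h6
        have h8 : (1 - a) * z ≤ τ * 2 := by
          have h9 : 1 - a ≤ τ := by linarith
          exact mul_le_mul h9 z2 z0 hτ0
        linarith
    nlinarith

section

variable {k : ℝ} (hk0 : 0 < k) (hk1 : k < 1)

include hk0 hk1 in
lemma k1_c2 (N : ℝ) : Continuous fun v => k1 N (Real.cos v ^ 2) :=
  (k1_co N).comp (by fun_prop)
include hk0 hk1 in
lemma k0_c2 (N : ℝ) : Continuous fun v => k0 N (Real.cos v ^ 2) :=
  (k0_co N).comp (by fun_prop)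
include hk0 hk1 in
lemma aa_c2 (N : ℝ) : Continuous fun v => aa k N (Real.cos v ^ 2) :=
  (aa_co hk0 hk1 N).comp (by fun_prop)

include hk0 hk1 in
lemma ptV {v : ℝ} (h0 : 0 ≤ v) (h1 : v ≤ π / 2) (M : ℝ) (N : ℕ) :
    Vt k M N (Real.cos (π - UU k v - v)) =
      k1 M (Real.cos v ^ 2) * (1 - mN k N (Real.cos v ^ 2)) ∧
    Vt k M N (Real.cos (π - UU k v + v)) =
      (2 * aa k M (Real.cos v ^ 2) - k1 M (Real.cos v ^ 2)) * (1 - mN k N (Real.cos v ^ 2)) := by
  obtain ⟨u1, u2⟩ := UU_cos hk0 hk1 v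
  have hd := dp hk0 hk1 v
  obtain ⟨w, hw⟩ : ∃ w, w = Real.sin v * √(1 - k ^ 2 * Real.cos v ^ 2) := ⟨_, rfl⟩
  have e1 : Real.cos (π - UU k v - v) = -(k * Real.cos v ^ 2) + w := by
    rw [show π - UU k v - v = π - (UU k v + v) by ring, Real.cos_pi_sub, Real.cos_add, u1, u2, hw]
    ring
  have e2 : Real.cos (π - UU k v + v) = -(k * Real.cos v ^ 2) - w := by
    rw [show π - UU k v + v = π - (UU k v - v) by ring, Real.cos_pi_sub, Real.cos_sub, u1, u2, hw]
    ring
  have w0 : 0 ≤ w := by rw [hw]; exact mul_nonneg (sin_nn h0 h1) (Real.sqrt_nonneg _)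
  have w2 : w ^ 2 = (1 - Real.cos v ^ 2) * (1 - k ^ 2 * Real.cos v ^ 2) := by
    rw [hw, mul_pow, Real.sq_sqrt hd.le, Real.sin_sq]
  obtain ⟨⟨a1, a2⟩, a3, a4⟩ := crv hk0 hk1 (cos2_0 v) (cos2_1 v) w0 w2
  rw [e1, e2, Vt_hi a1, Vt_lo hk0 hk1 a3, a2, a4]
  exact ⟨rfl, rfl⟩

include hk0 hk1 in
lemma costS {M : ℝ} (hM : 3 ≤ M) (N : ℕ) :
    ms (fun θ => Real.sin θ * Ut k M N (Real.cos θ)) ≤
    1 / π * ((∫ v in (0 : ℝ)..(π / 2), k1 M (Real.cos v ^ 2) * (RR k v + 1)) +
      ∫ v in (0 : ℝ)..(π / 2), (2 * aa k M (Real.cos v ^ 2) - k1 M (Real.cos v ^ 2)) *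
        (1 - RR k v)) := by
  have hp := Real.pi_pos
  have cU := Ut_co hk0 hk1 hM N
  have cF : Continuous fun x : ℝ => √(1 - x ^ 2) * Ut k M N x :=
    (Real.continuous_sqrt.comp (continuous_const.sub (continuous_id.pow 2))).mul cU
  have sq : ∀ x ∈ Set.Icc (-1 : ℝ) 1, (√(1 - x ^ 2) * Ut k M N x) ^ 2 = Vt k M N x := by
    intro x hx
    rw [mul_pow, Real.sq_sqrt (by nlinarith [hx.1, hx.2]), Ut_sq hk0 hk1 hM N hx]
  have e1 : ms (fun θ => Real.sin θ * Ut k M N (Real.cos θ)) =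
      ms (fun θ => √(1 - Real.cos θ ^ 2) * Ut k M N (Real.cos θ)) := by
    unfold ms
    congr 1
    refine intervalIntegral.integral_congr fun θ _ => ?_
    show (Real.sin θ * Ut k M N (Real.cos θ)) ^ 2 =
      (√(1 - Real.cos θ ^ 2) * Ut k M N (Real.cos θ)) ^ 2
    rw [mul_pow, mul_pow, Real.sq_sqrt (by linarith [Real.cos_sq_le_one θ]), Real.sin_sq]
  have c : Continuous fun θ => (√(1 - Real.cos θ ^ 2) * Ut k M N (Real.cos θ)) ^ 2 :=
    (cF.comp Real.continuous_cos).pow 2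
  have cR := RR_co hk0 hk1
  have c1 := k1_c2 hk0 hk1 M
  have ca := aa_c2 hk0 hk1 M
  have cm : Continuous fun v => mN k N (Real.cos v ^ 2) := (mN_co N).comp (by fun_prop)
  have Rn : ∀ v ∈ Set.Icc (0 : ℝ) (π / 2), 0 ≤ RR k v ∧ RR k v ≤ 1 := fun v hv => by
    rw [← RR_rs hv.1 hv.2]
    exact ⟨rs_nn hk0 _, (rs_le hk0 hk1 _).trans hk1.le⟩
  rw [e1, ms_cos (f := fun x => √(1 - x ^ 2) * Ut k M N x) cF,
    ← intervalIntegral.integral_add_adjacent_intervals
    (c.intervalIntegrable 0 (π - Real.arccos k)) (c.intervalIntegrable (π - Real.arccos k) π),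
    sub1 hk0 hk1 c, sub2 hk0 hk1 c]
  refine mul_le_mul_of_nonneg_left (add_le_add ?_ ?_) (by positivity)
  · have e2 : ∫ v in (0 : ℝ)..(π / 2), (√(1 - Real.cos (π - UU k v - v) ^ 2) *
        Ut k M N (Real.cos (π - UU k v - v))) ^ 2 * (RR k v + 1) =
        ∫ v in (0 : ℝ)..(π / 2), k1 M (Real.cos v ^ 2) * (1 - mN k N (Real.cos v ^ 2)) *
          (RR k v + 1) := by
      refine intervalIntegral.integral_congr fun v hv => ?_
      rw [Set.uIcc_of_le (by positivity)] at hv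
      show (√(1 - Real.cos (π - UU k v - v) ^ 2) *
        Ut k M N (Real.cos (π - UU k v - v))) ^ 2 * (RR k v + 1) = _
      rw [sq _ (cos_mem _), (ptV hk0 hk1 hv.1 hv.2 M N).1]
    rw [e2]
    refine intervalIntegral.integral_mono_on (by positivity)
      (((c1.mul (continuous_const.sub cm)).mul (cR.add continuous_const)).intervalIntegrable _ _)
      ((c1.mul (cR.add continuous_const)).intervalIntegrable _ _) fun v hv => ?_
    have r := Rn v hv
    have m := mN_b hk0 hk1 N (Real.cos v ^ 2)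
    refine mul_le_mul_of_nonneg_right (mul_le_of_le_one_right (k1_nn _ _) (by linarith [m.1]))
      (by linarith [r.1])
  · have e2 : ∫ v in (0 : ℝ)..(π / 2), (√(1 - Real.cos (π - UU k v + v) ^ 2) *
        Ut k M N (Real.cos (π - UU k v + v))) ^ 2 * (1 - RR k v) =
        ∫ v in (0 : ℝ)..(π / 2), (2 * aa k M (Real.cos v ^ 2) - k1 M (Real.cos v ^ 2)) *
          (1 - mN k N (Real.cos v ^ 2)) * (1 - RR k v) := by
      refine intervalIntegral.integral_congr fun v hv => ?_
      rw [Set.uIcc_of_le (by positivity)] at hv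
      show (√(1 - Real.cos (π - UU k v + v) ^ 2) *
        Ut k M N (Real.cos (π - UU k v + v))) ^ 2 * (1 - RR k v) = _
      rw [sq _ (cos_mem _), (ptV hk0 hk1 hv.1 hv.2 M N).2]
    rw [e2]
    refine intervalIntegral.integral_mono_on (by positivity)
      (((((continuous_const.mul ca).sub c1).mul (continuous_const.sub cm)).mul
        (continuous_const.sub cR)).intervalIntegrable _ _)
      ((((continuous_const.mul ca).sub c1).mul (continuous_const.sub cR)).intervalIntegrable _ _)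
      fun v hv => ?_
    have r := Rn v hv
    have m := mN_b hk0 hk1 N (Real.cos v ^ 2)
    have h3 := k1_aa (k := k) M (Real.cos v ^ 2)
    have h4 := aa_nn (k := k) M (Real.cos v ^ 2)
    refine mul_le_mul_of_nonneg_right (mul_le_of_le_one_right (by linarith) (by linarith [m.1]))
      (by linarith [r.2])

include hk0 hk1 in
lemma costCU {η M : ℝ} (hη : 0 < η) (hM : 3 ≤ M) (N : ℕ) :
    ms (fun θ => CU k η M N (2 + 2 * Real.cos θ)) ≤
    2 / π * ∫ v in (0 : ℝ)..(π / 2), (1 - aa k M (Real.cos v ^ 2)) * √(RR k v + η) := by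
  have hp := Real.pi_pos
  have cR := RR_co hk0 hk1
  have ca := aa_c2 hk0 hk1 M
  have cm : Continuous fun v => mN k N (Real.cos v ^ 2) := (mN_co N).comp (by fun_prop)
  have cs : Continuous fun v => √(RR k v + η) :=
    Real.continuous_sqrt.comp (cR.add continuous_const)
  rw [ms_two (tgtU hk0 hk1 (N := N) hη hM).cC]
  refine mul_le_mul_of_nonneg_left ?_ (by positivity)
  have e : ∫ v in (0 : ℝ)..(π / 2), CU k η M N (4 * Real.cos v ^ 2) ^ 2 =
      ∫ v in (0 : ℝ)..(π / 2), (1 - aa k M (Real.cos v ^ 2)) * (1 - mN k N (Real.cos v ^ 2)) *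
        √(RR k v + η) := by
    refine intervalIntegral.integral_congr fun v hv => ?_
    rw [Set.uIcc_of_le (by positivity)] at hv
    show CU k η M N (4 * Real.cos v ^ 2) ^ 2 = _
    unfold CU gg
    rw [show 4 * Real.cos v ^ 2 / 4 = Real.cos v ^ 2 by ring, mul_pow,
      Real.sq_sqrt (Real.sqrt_nonneg _), Real.sq_sqrt (am_nn hk0 hk1 M N _), RR_rs hv.1 hv.2]
  rw [e]
  refine intervalIntegral.integral_mono_on (by positivity)
    ((((continuous_const.sub ca).mul (continuous_const.sub cm)).mul cs).intervalIntegrable _ _)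
    (((continuous_const.sub ca).mul cs).intervalIntegrable _ _) fun v hv => ?_
  have m := mN_b hk0 hk1 N (Real.cos v ^ 2)
  exact mul_le_mul_of_nonneg_right (mul_le_of_le_one_right
    (by linarith [aa_le (k := k) M (Real.cos v ^ 2)]) (by linarith [m.1])) (Real.sqrt_nonneg _)

include hk0 hk1 in
lemma costBU {η M : ℝ} (hη : 0 < η) (hM : 3 ≤ M) (N : ℕ) :
    ms (fun θ => BU k η M N (2 + 2 * Real.cos θ)) ≤
    2 / π * ∫ v in (0 : ℝ)..(π / 2), (1 - aa k M (Real.cos v ^ 2)) / √(RR k v + η) * RR k v := by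
  have hp := Real.pi_pos
  have cR := RR_co hk0 hk1
  have ca := aa_c2 hk0 hk1 M
  have cm : Continuous fun v => mN k N (Real.cos v ^ 2) := (mN_co N).comp (by fun_prop)
  have cs : Continuous fun v => √(RR k v + η) :=
    Real.continuous_sqrt.comp (cR.add continuous_const)
  have Rn : ∀ v ∈ Set.Icc (0 : ℝ) (π / 2), 0 ≤ RR k v ∧ RR k v ≤ 1 := fun v hv => by
    rw [← RR_rs hv.1 hv.2]
    exact ⟨rs_nn hk0 _, (rs_le hk0 hk1 _).trans hk1.le⟩
  have cB := (tgtU hk0 hk1 (N := N) hη hM).cB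
  have c : Continuous fun v => BU k η M N (4 * Real.cos v ^ 2) ^ 2 :=
    (cB.comp (by fun_prop)).pow 2
  have ha : 0 ≤ Real.arccos k := Real.arccos_nonneg k
  have ha2 : Real.arccos k ≤ π := Real.arccos_le_pi k
  have h1 : ∫ v in (0 : ℝ)..(Real.arccos k), BU k η M N (4 * Real.cos v ^ 2) ^ 2 = 0 := by
    have : ∫ v in (0 : ℝ)..(Real.arccos k), BU k η M N (4 * Real.cos v ^ 2) ^ 2 =
        ∫ _v in (0 : ℝ)..(Real.arccos k), (0 : ℝ) := by
      refine intervalIntegral.integral_congr fun v hv => ?_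
      rw [Set.uIcc_of_le ha] at hv
      show BU k η M N (4 * Real.cos v ^ 2) ^ 2 = 0
      have h2 : k ≤ Real.cos v := by
        have := Real.cos_le_cos_of_nonneg_of_le_pi hv.1 ha2 hv.2
        rwa [Real.cos_arccos (by linarith) hk1.le] at this
      have h3 : 1 ≤ 4 * Real.cos v ^ 2 / (4 * k ^ 2) := by
        rw [le_div_iff₀ (by positivity)]; nlinarith
      unfold BU
      rw [aa_one M (cl_one h3)]
      simp
    rw [this]; simp
  rw [ms_two cB, ← intervalIntegral.integral_add_adjacent_intervals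
    (c.intervalIntegrable 0 (Real.arccos k)) (c.intervalIntegrable (Real.arccos k) (π / 2)),
    h1, zero_add, sub3 hk0 hk1 c]
  refine mul_le_mul_of_nonneg_left ?_ (by positivity)
  have e : ∫ v in (0 : ℝ)..(π / 2), BU k η M N (4 * Real.cos (UU k v) ^ 2) ^ 2 * RR k v =
      ∫ v in (0 : ℝ)..(π / 2), (1 - aa k M (Real.cos v ^ 2)) * (1 - mN k N (Real.cos v ^ 2)) /
        √(RR k v + η) * RR k v := by
    refine intervalIntegral.integral_congr fun v hv => ?_
    rw [Set.uIcc_of_le (by positivity)] at hv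
    show BU k η M N (4 * Real.cos (UU k v) ^ 2) ^ 2 * RR k v = _
    unfold BU gg
    rw [(UU_cos hk0 hk1 v).1, mul_pow,
      show 4 * (k ^ 2 * Real.cos v ^ 2) / (4 * k ^ 2) = Real.cos v ^ 2 by field_simp, div_pow,
      Real.sq_sqrt (Real.sqrt_nonneg _), Real.sq_sqrt (am_nn hk0 hk1 M N _), RR_rs hv.1 hv.2]
  rw [e]
  have ne : ∀ v ∈ Set.uIcc (0 : ℝ) (π / 2), √(RR k v + η) ≠ 0 := fun v hv => by
    rw [Set.uIcc_of_le (by positivity)] at hv
    have := (Rn v hv).1
    exact (Real.sqrt_pos.2 (by linarith)).ne'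
  refine intervalIntegral.integral_mono_on (by positivity) ?_ ?_ fun v hv => ?_
  · exact ((((continuous_const.sub ca).mul (continuous_const.sub cm)).continuousOn.div
      cs.continuousOn ne).mul cR.continuousOn).intervalIntegrable
  · exact (((continuous_const.sub ca).continuousOn.div
      cs.continuousOn ne).mul cR.continuousOn).intervalIntegrable
  · have m := mN_b hk0 hk1 N (Real.cos v ^ 2)
    have r := Rn v hv
    refine mul_le_mul_of_nonneg_right (div_le_div_of_nonneg_right (mul_le_of_le_one_right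
      (by linarith [aa_le (k := k) M (Real.cos v ^ 2)]) (by linarith [m.1]))
      (Real.sqrt_nonneg _)) r.1

end

/-- **the total cost** -/
theorem costU {k : ℝ} (hk0 : 0 < k) (hk1 : k < 1) {ε : ℝ} (hε : 0 < ε) (N' : ℕ) :
    ∃ E B C : ℝ → ℝ, TgtU k N' E B C ∧ ms (fun θ => Real.sin θ * E (Real.cos θ)) +
      ms (fun θ => B (2 + 2 * Real.cos θ)) + ms (fun θ => C (2 + 2 * Real.cos θ)) ≤ dk k + ε := by
  have hp := Real.pi_pos
  obtain ⟨η, hη⟩ : ∃ η, η = (ε / 8) ^ 2 := ⟨_, rfl⟩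
  have η0 : 0 < η := by rw [hη]; positivity
  have sη : √η = ε / 8 := by rw [hη, Real.sqrt_sq (by positivity)]
  obtain ⟨N, h1, h2⟩ := ((ki_lim.eventually (gt_mem_nhds (show 0 < ε / 8 by positivity))).and
    (eventually_gt_atTop (max ⌈8 / ε⌉₊ 3))).exists
  obtain ⟨M, hM⟩ : ∃ M : ℝ, M = (N : ℝ) := ⟨_, rfl⟩
  rw [← hM] at h1
  have M8 : 8 / ε ≤ M := by
    rw [hM]
    exact (Nat.le_ceil _).trans (by exact_mod_cast ((le_max_left _ _).trans_lt h2).le)
  have M3 : 3 ≤ M := by
    rw [hM]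
    exact_mod_cast ((le_max_right _ _).trans_lt h2).le
  have M0 : 0 < M := by linarith
  have M9 : 1 / M ≤ ε / 8 := by
    rw [div_le_iff₀ M0]
    rw [div_le_iff₀ hε] at M8
    linarith
  refine ⟨Ut k M N', BU k η M N', CU k η M N', tgtU hk0 hk1 η0 M3, ?_⟩
  have b1 := costS hk0 hk1 M3 N'
  have b2 := costBU hk0 hk1 η0 M3 N'
  have b3 := costCU hk0 hk1 η0 M3 N'
  refine (add_le_add (add_le_add b1 b2) b3).trans ?_
  have cR := RR_co hk0 hk1
  have ck := k1_c2 hk0 hk1 M
  have cw := aa_c2 hk0 hk1 M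
  have cs : Continuous fun v => √(RR k v + η) :=
    Real.continuous_sqrt.comp (cR.add continuous_const)
  have Rn : ∀ v ∈ Set.Icc (0 : ℝ) (π / 2), 0 ≤ RR k v ∧ RR k v ≤ 1 := fun v hv => by
    rw [← RR_rs hv.1 hv.2]
    exact ⟨rs_nn hk0 _, (rs_le hk0 hk1 _).trans hk1.le⟩
  have i1 : IntervalIntegrable (fun v => k1 M (Real.cos v ^ 2) * (RR k v + 1)) volume 0 (π / 2) :=
    (ck.mul (cR.add continuous_const)).intervalIntegrable _ _
  have i2 : IntervalIntegrable (fun v => (2 * aa k M (Real.cos v ^ 2) - k1 M (Real.cos v ^ 2)) *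
      (1 - RR k v)) volume 0 (π / 2) :=
    (((continuous_const.mul cw).sub ck).mul (continuous_const.sub cR)).intervalIntegrable _ _
  have i3 : IntervalIntegrable (fun v => (1 - aa k M (Real.cos v ^ 2)) / √(RR k v + η) * RR k v)
      volume 0 (π / 2) := by
    refine ContinuousOn.intervalIntegrable ?_
    refine ((continuous_const.sub cw).continuousOn.div cs.continuousOn fun v hv => ?_).mul
      cR.continuousOn
    rw [Set.uIcc_of_le (by positivity)] at hv
    have := (Rn v hv).1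
    exact (Real.sqrt_pos.2 (by linarith)).ne'
  have i4 : IntervalIntegrable (fun v => (1 - aa k M (Real.cos v ^ 2)) * √(RR k v + η)) volume
      0 (π / 2) := ((continuous_const.sub cw).mul cs).intervalIntegrable _ _
  have e1 : 1 / π * ((∫ v in (0 : ℝ)..(π / 2), k1 M (Real.cos v ^ 2) * (RR k v + 1)) +
      ∫ v in (0 : ℝ)..(π / 2), (2 * aa k M (Real.cos v ^ 2) - k1 M (Real.cos v ^ 2)) *
        (1 - RR k v)) + 2 / π * (∫ v in (0 : ℝ)..(π / 2),
        (1 - aa k M (Real.cos v ^ 2)) / √(RR k v + η) * RR k v) +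
      2 / π * (∫ v in (0 : ℝ)..(π / 2), (1 - aa k M (Real.cos v ^ 2)) * √(RR k v + η)) =
      2 / π * ∫ v in (0 : ℝ)..(π / 2), (1 / 2 * (k1 M (Real.cos v ^ 2) * (RR k v + 1) +
        (2 * aa k M (Real.cos v ^ 2) - k1 M (Real.cos v ^ 2)) * (1 - RR k v)) +
        ((1 - aa k M (Real.cos v ^ 2)) / √(RR k v + η) * RR k v +
          (1 - aa k M (Real.cos v ^ 2)) * √(RR k v + η))) := by
    rw [intervalIntegral.integral_add ((i1.add i2).const_mul _) (i3.add i4),
      intervalIntegral.integral_const_mul, intervalIntegral.integral_add i1 i2,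
      intervalIntegral.integral_add i3 i4]
    ring
  rw [e1]
  have cm : Continuous fun v => min (1 - RR k v) (2 * √(RR k v)) :=
    (continuous_const.sub cR).min (continuous_const.mul (Real.continuous_sqrt.comp cR))
  have cki := ki_c2 hk0 hk1 M
  have j1 : IntervalIntegrable (fun v => min (1 - RR k v) (2 * √(RR k v))) volume 0 (π / 2) :=
    cm.intervalIntegrable _ _
  have j2 : IntervalIntegrable (fun v => 3 * ki M (Real.cos v ^ 2)) volume 0 (π / 2) :=
    (continuous_const.mul cki).intervalIntegrable _ _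
  have j3 : IntervalIntegrable (fun _ : ℝ => 2 * √η + 1 / M) volume 0 (π / 2) :=
    continuous_const.intervalIntegrable _ _
  have m1 := intervalIntegral.integral_mono_on (a := 0) (b := π / 2) (by positivity)
    (((i1.add i2).const_mul (1 / 2)).add (i3.add i4)) (j1.add (j2.add j3)) fun v hv => by
      have r := Rn v hv
      have hw : aa k M (Real.cos v ^ 2) = max (k1 M (Real.cos v ^ 2))
          (min (cl (M * (2 * √(RR k v) - (1 - RR k v)))) (1 - k0 M (Real.cos v ^ 2))) := by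
        unfold aa; rw [RR_rs hv.1 hv.2]
      have h6 := ptwU (r := RR k v) (χ := k1 M (Real.cos v ^ 2)) (τ := k0 M (Real.cos v ^ 2))
        r.1 η0 M0 (k1_nn _ _) (cl_le _) (cl_nn _) r.2 hw
      have h7 := k1_ki M (Real.cos v ^ 2)
      have h8 := k0_ki M (Real.cos v ^ 2)
      show _ ≤ min (1 - RR k v) (2 * √(RR k v)) + (3 * ki M (Real.cos v ^ 2) + (2 * √η + 1 / M))
      refine h6.trans ?_
      linarith
  have e2 : ∫ v in (0 : ℝ)..(π / 2), (min (1 - RR k v) (2 * √(RR k v)) +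
      (3 * ki M (Real.cos v ^ 2) + (2 * √η + 1 / M))) =
      (∫ v in (0 : ℝ)..(π / 2), min (1 - RR k v) (2 * √(RR k v))) +
      (3 * (∫ v in (0 : ℝ)..(π / 2), ki M (Real.cos v ^ 2)) + π / 2 * (2 * √η + 1 / M)) := by
    rw [intervalIntegral.integral_add j1 (j2.add j3), intervalIntegral.integral_add j2 j3,
      intervalIntegral.integral_const, smul_eq_mul, sub_zero,
      intervalIntegral.integral_const_mul]
  rw [e2] at m1
  have hp2 : (0 : ℝ) ≤ 2 / π := by positivity
  refine (mul_le_mul_of_nonneg_left m1 hp2).trans ?_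
  have e3 : 2 / π * ((∫ v in (0 : ℝ)..(π / 2), min (1 - RR k v) (2 * √(RR k v))) +
      (3 * (∫ v in (0 : ℝ)..(π / 2), ki M (Real.cos v ^ 2)) + π / 2 * (2 * √η + 1 / M))) =
      dk k + (3 * (2 / π * (∫ v in (0 : ℝ)..(π / 2), ki M (Real.cos v ^ 2))) +
        (2 * √η + 1 / M)) := by
    unfold dk
    field_simp
  rw [e3, sη]
  have h4 : 2 / π ≤ 1 := by
    rw [div_le_one hp]; linarith [Real.pi_gt_three]
  have h5 : 0 ≤ ∫ v in (0 : ℝ)..(π / 2), ki M (Real.cos v ^ 2) :=
    intervalIntegral.integral_nonneg (by positivity) fun v _ => ki_nn _ _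
  have h6 : 2 / π * (∫ v in (0 : ℝ)..(π / 2), ki M (Real.cos v ^ 2)) ≤ ε / 8 :=
    (mul_le_of_le_one_left h5 h4).trans h1.le
  linarith

/-- the mean square of `(1 - P/4)^N` is small -/
lemma qN_small {ε : ℝ} (hε : 0 < ε) : ∃ N : ℕ, ∀ t, gp (qN N) t ≤ ε := by
  have hp := Real.pi_pos
  have key : Tendsto (fun N : ℕ => ∫ θ in (0 : ℝ)..(2 * π), ((1 - (2 + 2 * Real.cos θ) / 4) ^ N) ^ 2)
      atTop (𝓝 0) := by
    refine dct2 (g := fun _ => 1) (fun N => by fun_prop) continuous_const (fun N θ => ?_)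
      (S := {θ | Real.cos θ = -1}) (Pool.Agent.Y265.HY.JC.cnt _) (fun θ hθ => ?_)
    · have h1 := Real.neg_one_le_cos θ
      have h2 := Real.cos_le_one θ
      rw [abs_pow]
      refine pow_le_one₀ (abs_nonneg _) ?_
      rw [abs_le]; constructor <;> linarith
    · have h1 := Real.neg_one_le_cos θ
      have h2 := Real.cos_le_one θ
      have h3 : Real.cos θ ≠ -1 := hθ
      have h4 : -1 < Real.cos θ := lt_of_le_of_ne h1 (Ne.symm h3)
      refine tendsto_pow_atTop_nhds_zero_of_abs_lt_one ?_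
      rw [abs_lt]; constructor <;> linarith
  obtain ⟨N, hN⟩ := (key.eventually (gt_mem_nhds hε)).exists
  refine ⟨N, fun t => ?_⟩
  unfold gp
  simp only [ev2_qN]
  have p : 0 ≤ ∫ θ in (0 : ℝ)..(2 * π), ((1 - (2 + 2 * Real.cos θ) / 4) ^ N) ^ 2 :=
    intervalIntegral.integral_nonneg (by positivity) fun θ _ => sq_nonneg _
  exact (mul_le_of_le_one_left p pi2).trans hN.le

end

end Pool.Agent.H25JM
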