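import Pool.Agent.H25JM.UCost
import Pool.Agent.H25JM.Fin

/-!
# The upper bound for the joint fourth moment of two sequences of eigenfunctions
-/

set_option autoImplicit false
set_option linter.unusedSectionVars false
open MeasureTheory Filter Topology Complex Set
open scoped ContDiff Real Manifold

namespace Pool.Agent.H25JM

open Pool.Agent.W745.RW Pool.Agent.TH294.RS Pool.Agent.Y265.HY Pool.Agent.K13.TP
open Pool.Agent.R314.JN (QS)
open Pool.Agent.Y265.HY.JC (hh)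

noncomputable section

lemma gs_cont (F : Polynomial A) : Continuous (gs F) := by
  unfold gs
  refine continuous_const.mul ?_
  refine intervalIntegral.continuous_parametric_intervalIntegral_of_continuous'
    (f := fun ρ θ => (Real.sin θ * ev2 ρ (Real.cos θ) F) ^ 2) ?_ 0 (2 * π)
  refine Continuous.pow ?_ 2
  exact (Real.continuous_sin.comp continuous_snd).mul
    ((ev2_cont F).comp (continuous_fst.prodMk (by fun_prop)))

lemma gp_one (t : ℝ) : gp 1 t = 1 := by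
  unfold gp
  simp only [ev2_1, one_pow]
  rw [intervalIntegral.integral_const, smul_eq_mul, sub_zero, mul_one]
  have := Real.pi_pos
  field_simp

variable {Ω : Set ℂ} {lam mu : ℕ → ℝ} {u v : ℕ → ℂ → ℝ}

/-- the excess -/
def xx (φ u : ℂ → ℝ) : ℝ := (∫ z, φ z * u z ^ 4) - 3 * ∫ z, φ z

lemma D4_xx (φ : ℂ → ℝ) (n : ℕ) : (D4 (lw lam u) φ 0 0 0 0 n).re = xx φ (u n) := by
  have g : Pool.Agent.W745.RW.GG 0 0 0 0 = 3 := by
    unfold Pool.Agent.W745.RW.GG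
    rw [CC_val]; simp [sg]; norm_num
  have e : ∫ z, (φ z : ℂ) * F4 (lw lam u) 0 0 0 0 n z = ((∫ z, φ z * u n z ^ 4 : ℝ) : ℂ) := by
    rw [← integral_complex_ofReal]
    congr 1; funext z
    simp only [F4]
    rw [lw0]
    push_cast; ring
  unfold D4 xx
  rw [e, g, sub_re, ofReal_re]
  have : (3 : ℂ) * ((∫ z, φ z : ℝ) : ℂ) = ((3 * ∫ z, φ z : ℝ) : ℂ) := by push_cast; ring
  rw [this, ofReal_re]

/-- `√(a b) ≤ (a + b) / 2` -/
lemma sqrt_am {a b : ℝ} (ha : 0 ≤ a) (hb : 0 ≤ b) : √(a * b) ≤ (a + b) / 2 := by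
  refine Real.sqrt_le_iff.2 ⟨by positivity, ?_⟩
  nlinarith [sq_nonneg (a - b)]

lemma x2U {A0 g I0 Mg r4 r0 δ ε : ℝ} (I0n : 0 ≤ I0) (hδ0 : 0 < δ) (Mg0 : 0 ≤ Mg) (r40 : 0 ≤ r4)
    (r00 : 0 ≤ r0) (n3 : r0 < 2 * δ ^ 2) (n4 : r4 < 2 * δ ^ 2) (n5 : g < 2 * δ ^ 2)
    (w3 : A0 ≤ 2 * g * I0 + (Mg - 3 * I0) * (1 / 3 * r4 + 2 / 3 * r0) + δ)
    (d3 : 4 * δ ^ 2 * I0 + δ < (ε / 2) ^ 2) (d4 : 2 * δ ^ 2 < (ε / 2) ^ 2) :
    A0 ≤ (ε / 2) ^ 2 * (1 + Mg) := by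
  have y1 : (Mg - 3 * I0) * (1 / 3 * r4 + 2 / 3 * r0) ≤ Mg * (2 * δ ^ 2) := by
    have z1 : (Mg - 3 * I0) * (1 / 3 * r4 + 2 / 3 * r0) ≤ Mg * (1 / 3 * r4 + 2 / 3 * r0) :=
      mul_le_mul_of_nonneg_right (by linarith) (by positivity)
    exact z1.trans (mul_le_mul_of_nonneg_left (by linarith) Mg0)
  have y2 : 2 * g * I0 ≤ 4 * δ ^ 2 * I0 := mul_le_mul_of_nonneg_right (by linarith) I0n
  have y3 : Mg * (2 * δ ^ 2) ≤ Mg * (ε / 2) ^ 2 := mul_le_mul_of_nonneg_left d4.le Mg0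
  linarith

lemma ar2 {Y I0 X δ : ℝ} (h : 2 * Y * I0 ≤ δ) :
    2 * Y * I0 + X * (2 / 3) + δ ≤ 2 / 3 * (X + 3 * δ) := by linarith

lemma ar3 {g0 g1 g2 I0 d δ ε r sq : ℝ} (I0n : 0 ≤ I0) (hε : 0 < ε) (s1 : 1 ≤ sq)
    (n1 : g0 + g1 + g2 ≤ d + 5 * δ) (d1 : 5 * δ * I0 + 2 * δ < ε / 2) :
    (1 + g0) * I0 + ((g1 + g2) * I0 + δ + r + ε / 2 * sq) + δ ≤
      (1 + d) * I0 + r + ε * sq := by
  have s2 : (g0 + g1 + g2) * I0 ≤ (d + 5 * δ) * I0 := mul_le_mul_of_nonneg_right n1 I0n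
  have s3 : ε / 2 ≤ ε / 2 * sq := le_mul_of_one_le_right (by positivity) s1
  linarith

/-- **the upper bound** -/
theorem up22 (op : IsOpen Ω) (hU : ∀ z ∈ Ω, 0 < z.im) (qu : QS Ω lam u) (qv : QS Ω mu v)
    {φ : ℂ → ℝ} (hφ : TF Ω φ) (p0 : ∀ z, 0 ≤ φ z) {k : ℝ} (hk0 : 0 < k) (hk1 : k < 1)
    (l1 : Tendsto (rh lam mu) atTop (𝓝 k)) {ε : ℝ} (hε : 0 < ε) :
    ∀ᶠ n in atTop, ∫ z, φ z * (u n z ^ 2 * v n z ^ 2) ≤ (1 + dk k) * (∫ z, φ z) +
      2 / 3 * √((xx φ (u n) + ε) * (xx φ (v n) + ε)) +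
      ε * √((1 + ∫ z, φ z * u n z ^ 4) * (1 + ∫ z, φ z * v n z ^ 4)) := by
  obtain ⟨C, hC⟩ := cmp_of qu.pos qv.pos hk0 l1
  have H := qs_sy op hU qu
  have H' := qs_sy op hU qv
  have h0 := qs_ex op hU qu
  have k0' := qs_ex op hU qv
  have hρ := ra_bd H H' hC
  obtain ⟨I0, hI⟩ : ∃ I0, I0 = ∫ z, φ z := ⟨_, rfl⟩
  have I0n : 0 ≤ I0 := by rw [hI]; exact integral_nonneg p0
  -- the small parameter
  obtain ⟨δ, hδ0, hδ1, hδ⟩ : ∃ δ : ℝ, 0 < δ ∧ δ < 1 ∧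
      (5 * δ * I0 + 2 * δ < ε / 2 ∧ 3 * δ < ε ∧ 4 * δ ^ 2 * I0 + δ < (ε / 2) ^ 2 ∧
        2 * δ ^ 2 < (ε / 2) ^ 2) := by
    have e1 : ∀ᶠ δ : ℝ in 𝓝 0, 5 * δ * I0 + 2 * δ < ε / 2 :=
      (Continuous.tendsto (by fun_prop : Continuous fun δ : ℝ => 5 * δ * I0 + 2 * δ) 0).eventually
        (gt_mem_nhds (by simpa using hε))
    have e2 : ∀ᶠ δ : ℝ in 𝓝 0, 3 * δ < ε :=
      (Continuous.tendsto (by fun_prop : Continuous fun δ : ℝ => 3 * δ) 0).eventually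
        (gt_mem_nhds (by simpa using hε))
    have p : 0 < (ε / 2) ^ 2 := by positivity
    have e3 : ∀ᶠ δ : ℝ in 𝓝 0, 4 * δ ^ 2 * I0 + δ < (ε / 2) ^ 2 :=
      (Continuous.tendsto (by fun_prop : Continuous fun δ : ℝ => 4 * δ ^ 2 * I0 + δ) 0).eventually
        (gt_mem_nhds (by simpa using p))
    have e4 : ∀ᶠ δ : ℝ in 𝓝 0, 2 * δ ^ 2 < (ε / 2) ^ 2 :=
      (Continuous.tendsto (by fun_prop : Continuous fun δ : ℝ => 2 * δ ^ 2) 0).eventually
        (gt_mem_nhds (by simpa using p))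
    have h2 : ∀ᶠ δ : ℝ in 𝓝[>] 0, 0 < δ := eventually_mem_nhdsWithin
    have h3 : ∀ᶠ δ : ℝ in 𝓝[>] 0, δ < 1 :=
      eventually_nhdsWithin_of_eventually_nhds (gt_mem_nhds one_pos)
    obtain ⟨δ, h4, h5, h6⟩ := ((h2.and (h3.and (eventually_nhdsWithin_of_eventually_nhds
      (e1.and (e2.and (e3.and e4))))))).exists
    exact ⟨δ, h4, h5, h6⟩
  obtain ⟨d1, d2, d3, d4⟩ := hδ
  obtain ⟨N, hN⟩ := qN_small (show 0 < δ / (2 * (I0 + 1)) by positivity)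
  have hN' : ∀ t, 2 * gp (qN N) t * I0 ≤ δ := fun t => by
    have h1 := hN t
    rw [le_div_iff₀ (by positivity)] at h1
    have h2 := gp_nn (qN N) t
    nlinarith
  obtain ⟨E, Bf, Cf, T, hT⟩ := costU hk0 hk1 hδ0 N
  obtain ⟨U, b1, c1, R, hid, b0, b4, c0, c4, hgs, hgb, hgc, hR⟩ := approxU hk0 hk1 T hδ0
  obtain ⟨er, her, hb⟩ := upb H H' hU hC h0 k0' hφ p0 Finset.univ U ![b1, qN N, 1]
    ![c1, qN N, R] hid
  -- limits
  have L1 : Tendsto (fun n => gs U (rh lam mu n) + gp b1 (rh lam mu n) + gp c1 (rh lam mu n)) atTop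
      (𝓝 (gs U k + gp b1 k + gp c1 k)) :=
    ((((gs_cont U).tendsto k).comp l1).add (((gp_cont _).tendsto k).comp l1)).add
      (((gp_cont _).tendsto k).comp l1)
  have E1 := L1.eventually (gt_mem_nhds (show _ < dk k + 5 * δ by linarith))
  have E2 := her.eventually (gt_mem_nhds hδ0)
  have vR : ∀ x : ℝ, Tendsto (fun n => ev2 (rh lam mu n) x R ^ 2) atTop (𝓝 (ev2 k x R ^ 2)) :=
    fun x => (((ev2_cont R).tendsto (k, x)).comp (l1.prodMk_nhds tendsto_const_nhds)).pow 2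
  have R2 : ∀ x ∈ Set.Icc (0 : ℝ) 4, ev2 k x R ^ 2 < 2 * δ ^ 2 := fun x hx => by
    have h1 : ev2 k x R ^ 2 ≤ δ ^ 2 := by
      rw [← sq_abs]
      exact pow_le_pow_left₀ (abs_nonneg _) (hR x hx) 2
    have : 0 < δ ^ 2 := by positivity
    linarith
  have E3 := (vR 0).eventually (gt_mem_nhds (R2 0 ⟨le_rfl, by norm_num⟩))
  have E4 := (vR 4).eventually (gt_mem_nhds (R2 4 ⟨by norm_num, le_rfl⟩))
  have gR : gp R k < 2 * δ ^ 2 := by
    have h1 : gp R k ≤ δ ^ 2 := by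
      rw [gp_ms]
      have : ms (fun _ => (0 : ℝ)) = 0 := by simp [ms]
      have h1 := ms_cmp (F := fun θ => ev2 k (2 + 2 * Real.cos θ) R) (G := fun _ => 0)
        (δ := δ ^ 2) ((ev2_co k _).comp (by fun_prop)) continuous_const fun θ => by
          have h2 := hR _ (cos_mem4 θ)
          rw [zero_pow two_ne_zero, zero_add, ← sq_abs]
          exact pow_le_pow_left₀ (abs_nonneg _) h2 2
      rw [this, zero_add] at h1
      exact h1
    have : 0 < δ ^ 2 := by positivity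
    linarith
  have E5 := (((gp_cont R).tendsto k).comp l1).eventually (gt_mem_nhds gR)
  -- mean squares
  have V : ∀ F : Polynomial A, ∀ᶠ n in atTop, (∫ z, φ z * XL (rh lam mu) (lw lam u) F n z ^ 2) ≤
      2 * gp F (rh lam mu n) * I0 + xx φ (u n) * (1 / 3 * ev2 (rh lam mu n) 4 F ^ 2 +
        2 / 3 * ev2 (rh lam mu n) 0 F ^ 2) + δ := fun F => by
    have h1 := (msc H hU h0 hφ hρ F).eventually (gt_mem_nhds hδ0)
    refine h1.mono fun n hn => ?_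
    rw [D4_xx, ← hI] at hn
    linarith
  have V' : ∀ F : Polynomial A, ∀ᶠ n in atTop, (∫ z, φ z * XL (rh lam mu) (lw mu v) F n z ^ 2) ≤
      2 * gp F (rh lam mu n) * I0 + xx φ (v n) * (1 / 3 * ev2 (rh lam mu n) 4 F ^ 2 +
        2 / 3 * ev2 (rh lam mu n) 0 F ^ 2) + δ := fun F => by
    have h1 := (msc H' hU k0' hφ hρ F).eventually (gt_mem_nhds hδ0)
    refine h1.mono fun n hn => ?_
    rw [D4_xx, ← hI] at hn
    linarith
  filter_upwards [E1, E2, E3, E4, E5, V b1, V (qN N), V 1, V' c1, V' (qN N), V' R] with n n1 n2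
    n3 n4 n5 v1 v2 v3 w1 w2 w3
  have key := hb n
  have e1 : J4 φ (lw lam u) (lw mu v) (0, 0, 0, 0) n =
      ((∫ z, φ z * (u n z ^ 2 * v n z ^ 2) : ℝ) : ℂ) := by
    rw [← integral_complex_ofReal]
    simp only [J4]
    congr 1; funext z
    rw [lw0, lw0]
    push_cast; ring
  rw [e1, Complex.ofReal_re, Fin.sum_univ_three] at key
  simp only [Matrix.cons_val_zero, Matrix.cons_val_one, Matrix.cons_val] at key
  rw [← hI] at key ⊢
  obtain ⟨Mf, hMf⟩ : ∃ M, M = ∫ z, φ z * u n z ^ 4 := ⟨_, rfl⟩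
  obtain ⟨Mg, hMg⟩ : ∃ M, M = ∫ z, φ z * v n z ^ 4 := ⟨_, rfl⟩
  have Mf0 : 0 ≤ Mf := by rw [hMf]; exact integral_nonneg fun z => mul_nonneg (p0 z) (by positivity)
  have Mg0 : 0 ≤ Mg := by rw [hMg]; exact integral_nonneg fun z => mul_nonneg (p0 z) (by positivity)
  have xf : xx φ (u n) = Mf - 3 * I0 := by unfold xx; rw [← hMf, ← hI]
  have xg : xx φ (v n) = Mg - 3 * I0 := by unfold xx; rw [← hMg, ← hI]
  rw [b0, b4, zero_pow two_ne_zero, mul_zero, mul_zero, add_zero, mul_zero, add_zero] at v1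
  rw [c0, c4, zero_pow two_ne_zero, mul_zero, mul_zero, add_zero, mul_zero, add_zero] at w1
  rw [ev2_qN, ev2_qN] at v2 w2
  rw [gp_one, ev2_1, ev2_1] at v3
  have aX : ∀ F, 0 ≤ ∫ z, φ z * XL (rh lam mu) (lw lam u) F n z ^ 2 := fun F =>
    integral_nonneg fun z => mul_nonneg (p0 z) (sq_nonneg _)
  have aY : ∀ F, 0 ≤ ∫ z, φ z * XL (rh lam mu) (lw mu v) F n z ^ 2 := fun F =>
    integral_nonneg fun z => mul_nonneg (p0 z) (sq_nonneg _)
  have cX : ∀ F, ContinuousOn (XL (rh lam mu) (lw lam u) F n) Ω := fun F => XL_co H F n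
  have cY : ∀ F, ContinuousOn (XL (rh lam mu) (lw mu v) F n) Ω := fun F => XL_co H' F n
  -- the first pair
  have t1 : ∫ z, φ z * (XL (rh lam mu) (lw lam u) b1 n z * XL (rh lam mu) (lw mu v) c1 n z) ≤
      (gp b1 (rh lam mu n) + gp c1 (rh lam mu n)) * I0 + δ := by
    have g1 := gp_nn b1 (rh lam mu n)
    have g2 := gp_nn c1 (rh lam mu n)
    have h1 := csX op hφ p0 (cX b1) (cY c1) (a := 2 * gp b1 (rh lam mu n) * I0 + δ)
      (b := 2 * gp c1 (rh lam mu n) * I0 + δ) (by linarith) (by linarith)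
    refine h1.trans ((sqrt_am (by positivity) (by positivity)).trans ?_)
    linarith
  -- the second pair
  have t2 : ∫ z, φ z * (XL (rh lam mu) (lw lam u) (qN N) n z *
      XL (rh lam mu) (lw mu v) (qN N) n z) ≤
      2 / 3 * √((xx φ (u n) + ε) * (xx φ (v n) + ε)) := by
    have hN0 := hN' (rh lam mu n)
    rcases Nat.eq_zero_or_pos N with h | h
    · -- impossible case handled by the same estimate
      subst h
      simp only [pow_zero, one_pow, mul_one] at v2 w2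
      have g1 : gp (qN 0) (rh lam mu n) = 1 := by
        have : (qN 0 : Polynomial A) = 1 := by unfold qN; simp
        rw [this, gp_one]
      have h3 := hN (rh lam mu n)
      rw [g1, le_div_iff₀ (by positivity)] at h3
      exfalso
      nlinarith
    · have z4 : (1 - (4 : ℝ) / 4) ^ N = 0 := by
        rw [show (1 : ℝ) - 4 / 4 = 0 by norm_num]
        exact zero_pow h.ne'
      have z0 : (1 - (0 : ℝ) / 4) ^ N = 1 := by
        rw [show (1 : ℝ) - 0 / 4 = 1 by norm_num, one_pow]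
      rw [z4, z0, zero_pow two_ne_zero, one_pow, mul_zero, zero_add, mul_one] at v2 w2
      have x1 : ∫ z, φ z * XL (rh lam mu) (lw lam u) (qN N) n z ^ 2 ≤
          2 / 3 * (xx φ (u n) + 3 * δ) := v2.trans (ar2 hN0)
      have x2 : ∫ z, φ z * XL (rh lam mu) (lw mu v) (qN N) n z ^ 2 ≤
          2 / 3 * (xx φ (v n) + 3 * δ) := w2.trans (ar2 hN0)
      have p1 := (aX (qN N)).trans x1
      have p2 := (aY (qN N)).trans x2
      refine (csX op hφ p0 (cX _) (cY _) x1 x2).trans ?_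
      have e2 : 2 / 3 * (xx φ (u n) + 3 * δ) * (2 / 3 * (xx φ (v n) + 3 * δ)) =
          (2 / 3) ^ 2 * ((xx φ (u n) + 3 * δ) * (xx φ (v n) + 3 * δ)) := by ring
      rw [e2, Real.sqrt_mul (by positivity), Real.sqrt_sq (by norm_num)]
      refine mul_le_mul_of_nonneg_left (Real.sqrt_le_sqrt ?_) (by norm_num)
      exact mul_le_mul (by linarith) (by linarith) (by linarith) (by linarith)
  -- the third pair
  have t3 : ∫ z, φ z * (XL (rh lam mu) (lw lam u) 1 n z *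
      XL (rh lam mu) (lw mu v) R n z) ≤ ε / 2 * √((1 + Mf) * (1 + Mg)) := by
    have x1 : ∫ z, φ z * XL (rh lam mu) (lw lam u) 1 n z ^ 2 ≤ 1 + Mf := by
      rw [xf] at v3
      linarith
    have x2 : ∫ z, φ z * XL (rh lam mu) (lw mu v) R n z ^ 2 ≤ (ε / 2) ^ 2 * (1 + Mg) := by
      rw [xg] at w3
      exact x2U I0n hδ0 Mg0 (sq_nonneg _) (sq_nonneg _) n3 n4 n5 w3 d3 d4
    refine (csX op hφ p0 (cX _) (cY _) x1 x2).trans ?_
    rw [show (1 + Mf) * ((ε / 2) ^ 2 * (1 + Mg)) = (ε / 2) ^ 2 * ((1 + Mf) * (1 + Mg)) by ring,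
      Real.sqrt_mul (by positivity), Real.sqrt_sq (by positivity)]
  have s1 : 1 ≤ √((1 + Mf) * (1 + Mg)) := by
    rw [Real.one_le_sqrt]
    nlinarith [mul_nonneg Mf0 Mg0]
  rw [← hMf, ← hMg]
  have s7 := add_le_add (add_le_add t1 t2) t3
  exact key.trans ((add_le_add (add_le_add_right s7 _) n2.le).trans
    (ar3 I0n hε s1 n1.le d1))

end

end Pool.Agent.H25JM
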