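import Pool.Agent.H25JM.UApp
import Pool.Agent.H25JM.Cost

/-!
# The targets of the approximation and their cost: the upper bound
-/

set_option autoImplicit false
set_option linter.unusedSectionVars false
open MeasureTheory Filter Topology
open scoped Real

namespace Pool.Agent.H25JM

open Pool.Agent.K13.TP

noncomputable section

/-- the cutoff near `1` -/
def k1 (N s : ℝ) : ℝ := cl (2 - N * (1 - cl s))
/-- the cutoff near `0` -/
def k0 (N s : ℝ) : ℝ := cl (2 - N * cl s)

lemma k1_co (N : ℝ) : Continuous (k1 N) := by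
  have := cl_co
  unfold k1
  exact this.comp (continuous_const.sub (continuous_const.mul (continuous_const.sub this)))
lemma k0_co (N : ℝ) : Continuous (k0 N) := by
  have := cl_co
  unfold k0
  exact this.comp (continuous_const.sub (continuous_const.mul this))
lemma k1_ki (N s : ℝ) : k1 N s ≤ ki N s := le_max_right _ _
lemma k0_ki (N s : ℝ) : k0 N s ≤ ki N s := le_max_left _ _

/-- the weight -/
def aa (k N s : ℝ) : ℝ :=
  max (k1 N s) (min (cl (N * (2 * √(rs k s) - (1 - rs k s)))) (1 - k0 N s))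

/-- the part of the constant which is handled separately -/
def mN (k : ℝ) (N : ℕ) (s : ℝ) : ℝ := (1 - k ^ 2 * cl s) ^ N * (1 - cl s) ^ N

section

variable {k : ℝ} (hk0 : 0 < k) (hk1 : k < 1)

include hk0 hk1 in
lemma aa_co (N : ℝ) : Continuous (aa k N) := by
  have := rs_co hk0 hk1
  unfold aa
  exact (k1_co N).max ((cl_co.comp (continuous_const.mul
    ((continuous_const.mul (Real.continuous_sqrt.comp this)).sub
      (continuous_const.sub this)))).min (continuous_const.sub (k0_co N)))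

lemma aa_le (N s : ℝ) : aa k N s ≤ 1 :=
  max_le (cl_le _) ((min_le_left _ _).trans (cl_le _))
lemma k1_aa (N s : ℝ) : k1 N s ≤ aa k N s := le_max_left _ _
lemma k1_nn (N s : ℝ) : 0 ≤ k1 N s := cl_nn _
lemma aa_nn (N s : ℝ) : 0 ≤ aa k N s := (k1_nn N s).trans (k1_aa N s)

lemma k1_one (N : ℝ) {s : ℝ} (h : cl s = 1) : k1 N s = 1 := by
  unfold k1; rw [h, sub_self, mul_zero, sub_zero]; exact cl_one (by norm_num)
lemma aa_one (N : ℝ) {s : ℝ} (h : cl s = 1) : aa k N s = 1 :=
  le_antisymm (aa_le N s) (by rw [← k1_one N h]; exact k1_aa N s)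

lemma k1_z {N s : ℝ} (hN : 3 ≤ N) (h : N * cl s ≤ 1) : k1 N s = 0 := by
  unfold k1
  exact cl_zero (by nlinarith [cl_nn s])
lemma aa_z {N s : ℝ} (hN : 3 ≤ N) (h : N * cl s ≤ 1) : aa k N s = 0 := by
  unfold aa
  have h1 : k0 N s = 1 := cl_one (by linarith)
  rw [k1_z hN h, h1, sub_self, min_eq_right (cl_nn _), max_self]

include hk0 hk1 in
lemma mN_b (N : ℕ) (s : ℝ) : 0 ≤ mN k N s ∧ mN k N s ≤ 1 := by
  have h1 := den_pos hk0 hk1 s
  have h2 := cl_nn s
  have h3 := cl_le s
  unfold mN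
  constructor
  · exact mul_nonneg (pow_nonneg h1.le _) (pow_nonneg (by linarith) _)
  · refine mul_le_one₀ (pow_le_one₀ h1.le ?_) (pow_nonneg (by linarith) _)
      (pow_le_one₀ (by linarith) (by linarith))
    have : 0 ≤ k ^ 2 * cl s := by positivity
    linarith

lemma mN_co (N : ℕ) : Continuous (mN k N) := by
  have := cl_co
  unfold mN
  exact ((continuous_const.sub (continuous_const.mul this)).pow N).mul
    ((continuous_const.sub this).pow N)

lemma mN_z {N : ℕ} {s : ℝ} (h : cl s = 0) : mN k N s = 1 := by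
  unfold mN; rw [h]; simp
lemma mN_o {N : ℕ} (hN : N ≠ 0) {s : ℝ} (h : cl s = 1) : mN k N s = 0 := by
  unfold mN; rw [h]; simp [hN]

/-- the target for the odd mixed expression -/
def Ut (k M : ℝ) (N : ℕ) (x : ℝ) : ℝ :=
  (if -k ≤ x then √(k1 M (sx k x) * (1 - mN k N (sx k x)))
    else √((2 * aa k M (sx k x) - k1 M (sx k x)) * (1 - mN k N (sx k x)))) /
      √(max (1 - x ^ 2) ((1 - k) ^ 2 / M))

include hk0 hk1 in
lemma Ut_co {M : ℝ} (hM : 3 ≤ M) (N : ℕ) : Continuous (Ut k M N) := by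
  have h1 := sx_co hk1
  have hk : 0 < 1 - k := by linarith
  unfold Ut
  refine Continuous.div ?_ (Real.continuous_sqrt.comp ((continuous_const.sub
    (continuous_id.pow 2)).max continuous_const)) fun x => ?_
  · refine Continuous.if_le (Real.continuous_sqrt.comp (((k1_co M).comp h1).mul
      (continuous_const.sub ((mN_co N).comp h1))))
      (Real.continuous_sqrt.comp (((continuous_const.mul ((aa_co hk0 hk1 M).comp h1)).sub
      ((k1_co M).comp h1)).mul (continuous_const.sub ((mN_co N).comp h1))))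
      continuous_const continuous_id fun x hx => ?_
    have e : cl (1 : ℝ) = 1 := cl_one le_rfl
    rw [← hx, sx_k hk0 hk1, k1_one M e, aa_one M e]
    norm_num
  · refine (Real.sqrt_pos.2 (lt_max_of_lt_right ?_)).ne'
    positivity

include hk1 in
lemma Ut_key {M x X : ℝ} (hM : 3 ≤ M) (hx : x ∈ Set.Icc (-1 : ℝ) 1)
    (hs : 1 - x ^ 2 = sx k x * (1 + k ^ 2 + 2 * k * x)) (hY : (1 - k) ^ 2 ≤ 1 + k ^ 2 + 2 * k * x)
    (hX0 : 0 ≤ X) (hX : M * cl (sx k x) ≤ 1 → X = 0) :
    (1 - x ^ 2) * (√X / √(max (1 - x ^ 2) ((1 - k) ^ 2 / M))) ^ 2 = X := by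
  have hk : 0 < 1 - k := by linarith
  have p : 0 < max (1 - x ^ 2) ((1 - k) ^ 2 / M) := lt_max_of_lt_right (by positivity)
  rw [div_pow, Real.sq_sqrt hX0, Real.sq_sqrt p.le]
  rcases le_total ((1 - k) ^ 2 / M) (1 - x ^ 2) with h | h
  · rw [max_eq_left h] at p ⊢
    field_simp
  · have h1 : X = 0 := by
      apply hX
      rw [div_eq_mul_inv, mul_comm, ← div_eq_inv_mul, le_div_iff₀ (by linarith)] at h
      have s0 : 0 ≤ sx k x := by
        have h3 : 0 ≤ 1 - x ^ 2 := by nlinarith [hx.1, hx.2]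
        rw [hs] at h3
        by_contra hc
        push Not at hc
        nlinarith [mul_pos (by linarith : 0 < -sx k x) (lt_of_lt_of_le (by positivity : 0 < (1 - k) ^ 2) hY)]
      have h2 : M * sx k x ≤ 1 := by
        have h4 : (M * sx k x) * (1 - k) ^ 2 ≤ 1 * (1 - k) ^ 2 := by
          rw [hs] at h
          have h5 : sx k x * (1 - k) ^ 2 ≤ sx k x * (1 + k ^ 2 + 2 * k * x) :=
            mul_le_mul_of_nonneg_left hY s0
          nlinarith
        exact le_of_mul_le_mul_right h4 (by positivity)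
      have h6 : sx k x ≤ 1 := by nlinarith
      rw [cl_id s0 h6]
      exact h2
    rw [h1]; simp

/-- the value of the target -/
def Vt (k M : ℝ) (N : ℕ) (x : ℝ) : ℝ :=
  if -k ≤ x then k1 M (sx k x) * (1 - mN k N (sx k x))
    else (2 * aa k M (sx k x) - k1 M (sx k x)) * (1 - mN k N (sx k x))

include hk0 hk1 in
lemma Ut_sq {M x : ℝ} (hM : 3 ≤ M) (N : ℕ) (hx : x ∈ Set.Icc (-1 : ℝ) 1) :
    (1 - x ^ 2) * Ut k M N x ^ 2 = Vt k M N x := by
  have hY : (1 - k) ^ 2 ≤ 1 + k ^ 2 + 2 * k * x := by nlinarith [hx.1]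
  have hs : 1 - x ^ 2 = sx k x * (1 + k ^ 2 + 2 * k * x) := by
    have h2 := sx_pos hk1 x
    unfold sx
    rw [max_eq_right hY] at h2 ⊢
    rw [div_mul_cancel₀ _ h2.ne']
  have hm := (mN_b hk0 hk1 N (sx k x)).2
  unfold Ut Vt
  split_ifs with h
  · exact Ut_key hk1 hM hx hs hY (mul_nonneg (k1_nn _ _) (by linarith)) fun h2 => by
      rw [k1_z hM h2, zero_mul]
  · refine Ut_key hk1 hM hx hs hY (mul_nonneg ?_ (by linarith)) fun h2 => by
      rw [k1_z hM h2, aa_z hM h2]; ring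
    have h3 := k1_aa (k := k) M (sx k x)
    have h4 := aa_nn (k := k) M (sx k x)
    linarith

lemma Vt_hi {M x : ℝ} {N : ℕ} (hx : -k ≤ x) :
    Vt k M N x = k1 M (sx k x) * (1 - mN k N (sx k x)) := by
  unfold Vt
  rw [if_pos hx]

include hk0 hk1 in
lemma Vt_lo {M x : ℝ} {N : ℕ} (hx : x ≤ -k) :
    Vt k M N x = (2 * aa k M (sx k x) - k1 M (sx k x)) * (1 - mN k N (sx k x)) := by
  rcases hx.eq_or_lt with h | h
  · have e : cl (1 : ℝ) = 1 := cl_one le_rfl
    rw [Vt_hi h.ge, h, sx_k hk0 hk1, k1_one M e, aa_one M e]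
    norm_num
  · unfold Vt
    rw [if_neg (not_le.2 h)]

/-- the target for the first factor -/
def BU (k η M : ℝ) (N : ℕ) (P : ℝ) : ℝ :=
  √((1 - aa k M (P / (4 * k ^ 2))) * (1 - mN k N (P / (4 * k ^ 2)))) / gg k η (P / (4 * k ^ 2))
/-- the target for the second factor -/
def CU (k η M : ℝ) (N : ℕ) (S : ℝ) : ℝ :=
  √((1 - aa k M (S / 4)) * (1 - mN k N (S / 4))) * gg k η (S / 4)

include hk0 hk1 in
lemma am_nn (M : ℝ) (N : ℕ) (s : ℝ) : 0 ≤ (1 - aa k M s) * (1 - mN k N s) :=
  mul_nonneg (by linarith [aa_le (k := k) M s]) (by linarith [(mN_b hk0 hk1 N s).2])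

include hk0 hk1 in
/-- **the targets** -/
theorem tgtU {η M : ℝ} (hη : 0 < η) (hM : 3 ≤ M) {N : ℕ} :
    TgtU k N (Ut k M N) (BU k η M N) (CU k η M N) where
  cU := Ut_co hk0 hk1 hM N
  cB := by
    unfold BU
    have c : Continuous fun P : ℝ => P / (4 * k ^ 2) := continuous_id.div_const _
    exact (Real.continuous_sqrt.comp ((continuous_const.sub ((aa_co hk0 hk1 M).comp c)).mul
      (continuous_const.sub ((mN_co N).comp c)))).div
      ((gg_co hk0 hk1 η).comp c) fun P => (gg_pos hk0 hη _).ne'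
  cC := by
    unfold CU
    have c : Continuous fun P : ℝ => P / 4 := continuous_id.div_const _
    exact (Real.continuous_sqrt.comp ((continuous_const.sub ((aa_co hk0 hk1 M).comp c)).mul
      (continuous_const.sub ((mN_co N).comp c)))).mul ((gg_co hk0 hk1 η).comp c)
  B0 := by
    unfold BU
    rw [zero_div, mN_z (cl_zero le_rfl)]; simp
  B4 := by
    unfold BU
    have h1 : 1 ≤ 4 / (4 * k ^ 2) := by
      rw [le_div_iff₀ (by positivity)]; nlinarith
    rw [aa_one M (cl_one h1)]; simp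
  C0 := by
    unfold CU
    rw [zero_div, mN_z (cl_zero le_rfl)]; simp
  C4 := by
    unfold CU
    rw [aa_one M (cl_one (by norm_num))]; simp
  id := fun x y w s hs0 hs1 w0 ex ey hw2 => by
    obtain ⟨x', y', w', w0', w1', ex', ey', p1, p2, mx, my, qx, qy, -, -, hw2'⟩ :=
      curve hk0 hk1 hs0 hs1
    have hww : w' = w := by
      have h1 : w' ^ 2 = w ^ 2 := by rw [hw2, hw2']
      exact (pow_left_inj₀ w0' w0 two_ne_zero).1 h1
    subst hww
    rw [← ex'] at ex
    rw [← ey'] at ey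
    subst ex ey
    obtain ⟨⟨kx, e3⟩, ky, e4⟩ := crv hk0 hk1 hs0 hs1 w0 hw2
    rw [← ex'] at kx e3
    rw [← ey'] at ky e4
    rw [Ut_sq hk0 hk1 hM N mx, Ut_sq hk0 hk1 hM N my, Vt_hi kx, Vt_lo hk0 hk1 ky, e3, e4]
    have e1 : 4 * (k ^ 2 * s) / (4 * k ^ 2) = s := by field_simp
    have e2 : 4 * s / 4 = s := by ring
    unfold BU CU
    rw [e1, e2]
    have g := (gg_pos hk0 hη s).ne'
    have h1 : √((1 - aa k M s) * (1 - mN k N s)) / gg k η s *
        (√((1 - aa k M s) * (1 - mN k N s)) * gg k η s) = (1 - aa k M s) * (1 - mN k N s) := by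
      have := Real.mul_self_sqrt (am_nn hk0 hk1 M N s)
      field_simp
      linarith [this]
    have h2 : (1 - k ^ 2 * s) ^ N * (1 - s) ^ N = mN k N s := by
      unfold mN
      rw [cl_id hs0 hs1]
    rw [h1, h2]
    ring

end

end

end Pool.Agent.H25JM
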