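import Pool.Agent.H25JM.Cor2

/-!
# The upper bound for the joint fourth moment of two ladders in terms of polynomials
-/

set_option autoImplicit false
set_option linter.unusedSectionVars false
open MeasureTheory Filter Topology Complex Set
open scoped ContDiff Real Manifold

namespace Pool.Agent.H25JM

open Pool.Agent.W745.RW Pool.Agent.TH294.RS Pool.Agent.Y265.HY Pool.Agent.K13.TP
open Polynomial

noncomputable section

/-- **The decomposition.** -/
theorem main2g {ρ : ℕ → ℝ} {r : ℤ → ℤ → ℤ → ℤ → ℕ → ℝ} (R : Rel2 ρ r) {ι : Type} (S : Finset ι)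
    (e : Polynomial A) (b c : ι → Polynomial A)
    (hid : ∀ (Q : Type) [CommRing Q] [Algebra A Q] (x y s : Q), x + y = -(2 * rr Q * s) →
      x * y = (1 + rr Q ^ 2) * s - 1 → aeval x e + aeval y e +
        2 * ∑ i ∈ S, aeval (4 * (rr Q ^ 2 * s)) (b i) * aeval (4 * s) (c i) = 2) :
    Null (fun n => FF r (0, 0) n - Ev ρ (FF r) (JK kx (pe e)) n -
      ∑ i ∈ S, Ev ρ (FF r) (JK kz (pb (b i)) * JK kw (pb (c i))) n) := by
  obtain ⟨C0, hC0⟩ := R.bd
  obtain ⟨Q, iQ, iA, φ, h1, h2, h3, hφ⟩ := exQ2 (D := FF r) hC0 R.T2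
  set a := φ (mm 1 0) with ha
  set a' := φ (mm (-1) 0) with ha'
  set β := φ (mm 0 1) with hβ
  set β' := φ (mm 0 (-1)) with hβ'
  set κ := rr Q with hκ
  obtain ⟨hf, hhf⟩ : ∃ x : Q, x = algebraMap A Q (C (1 / 2)) := ⟨_, rfl⟩
  obtain ⟨hq, hhq⟩ : ∃ x : Q, x = algebraMap A Q (C (1 / 4)) := ⟨_, rfl⟩
  have hh : 2 * hf = 1 := by
    have : (2 : Q) = algebraMap A Q 2 := (map_ofNat _ 2).symm
    rw [hhf, this, ← map_mul, ← map_one (algebraMap A Q)]
    congr 1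
    have : (2 : A) = C 2 := rfl
    rw [this, ← C_mul]
    norm_num
  have hh4 : 4 * hq = 1 := by
    have : (4 : Q) = algebraMap A Q 4 := (map_ofNat _ 4).symm
    rw [hhq, this, ← map_mul, ← map_one (algebraMap A Q)]
    congr 1
    have : (4 : A) = C 4 := rfl
    rw [this, ← C_mul]
    norm_num
  have hqf : hq = hf ^ 2 := by linear_combination (-hq * (2 * hf + 1)) * hh + (hf ^ 2) * hh4
  have m1 : φ (mm 1 1) = a * β := by
    rw [ha, hβ, ← map_mul, mm_mul]; norm_num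
  have m2 : φ (mm (-1) (-1)) = a' * β' := by
    rw [ha', hβ', ← map_mul, mm_mul]; norm_num
  have m3 : φ (mm 1 (-1)) = a * β' := by
    rw [ha, hβ', ← map_mul, mm_mul]; norm_num
  have m4 : φ (mm (-1) 1) = a' * β := by
    rw [ha', hβ, ← map_mul, mm_mul]; norm_num
  obtain ⟨x, hx⟩ : ∃ x, x = φ (JK kx cx) := ⟨_, rfl⟩
  obtain ⟨y, hy⟩ : ∃ y, y = φ (JK kx' cx) := ⟨_, rfl⟩
  obtain ⟨s, hs⟩ : ∃ s, s = hq * φ (JK kw ps) := ⟨_, rfl⟩
  obtain ⟨z, hz⟩ : ∃ z, z = hq * φ (JK kz ps) := ⟨_, rfl⟩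
  have hs4 : φ (JK kw ps) = 4 * s := by rw [hs, ← mul_assoc, hh4, one_mul]
  have hz4 : φ (JK kz ps) = 4 * z := by rw [hz, ← mul_assoc, hh4, one_mul]
  have two : φ 2 = 2 := map_ofNat φ 2
  have ex : x = hf * (β + β') := by
    rw [hx, JK_cx, map_mul, AlgHom.commutes, map_add, hhf]; rfl
  have ey : y = hf * (a + a') := by
    rw [hy, JK_cx, map_mul, AlgHom.commutes, map_add, hhf]; rfl
  have es : s = hq * (2 + (a * β' + a' * β)) := by
    rw [hs, JK_ps, map_add, map_add, two, ← m3, ← m4]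
    rfl
  have ez : z = hq * (2 + (a * β + a' * β')) := by
    rw [hz, JK_ps, map_add, map_add, two, ← m1, ← m2]
    rfl
  -- relations
  have h3' : a' * β' + 1 + κ * (a' + β') = 0 := by
    linear_combination (a' * β') * h3 - (β * β') * h1 - h2 - κ * β' * h1 - κ * a' * h2
  have q1 : x + y = -(2 * κ * s) := by
    have e0 : a + a' + β + β' + κ * (2 + (a * β' + a' * β)) = 0 := by
      linear_combination (a' + β') * h3 - (β + κ) * h1 - (a + κ) * h2
    rw [ex, ey, es, hqf]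
    linear_combination hf * e0 + (hf * κ * (2 + (a * β' + a' * β))) * hh
  have q2 : z = κ ^ 2 * s := by
    have e0 : 2 + (a * β + a' * β') = κ ^ 2 * (2 + (a * β' + a' * β)) := by
      linear_combination (a * β + 1) * h3' - κ * (a' + β') * h3 - (β * β') * h1 - h2 +
        κ ^ 2 * h1 + κ ^ 2 * h2
    rw [ez, es, e0]
    ring
  have q3 : x * y = (1 + κ ^ 2) * s - 1 := by
    have e0 : (β + β') * (a + a') = (2 + (a * β + a' * β')) + (2 + (a * β' + a' * β)) - 4 := by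
      ring
    have e1 : x * y = z + s - 1 := by
      rw [ex, ey, es, ez, hqf]
      linear_combination (hf ^ 2) * e0 - (2 * hf + 1) * hh
    rw [e1, q2]; ring
  have key := hid Q x y s q1 q3
  obtain ⟨X0, hX0⟩ : ∃ X0, X0 = JK kx (pe e) := ⟨_, rfl⟩
  obtain ⟨Y0, hY0⟩ : ∃ X0, X0 = JK kx' (pe e) := ⟨_, rfl⟩
  have pX : φ X0 = aeval x e := by
    rw [hX0, JK_pe, al_ev, ← hx]
  have pY : φ Y0 = aeval y e := by
    rw [hY0, JK_pe, al_ev, ← hy]
  have pW : ∀ i, φ (JK kz (pb (b i)) * JK kw (pb (c i))) =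
      aeval (4 * (κ ^ 2 * s)) (b i) * aeval (4 * s) (c i) := fun i => by
    rw [map_mul, JK_pb, JK_pb, al_ev, al_ev, hs4, hz4, q2]
  have key2 : φ (X0 + Y0 + 2 * ∑ i ∈ S, JK kz (pb (b i)) * JK kw (pb (c i))) = φ (1 + 1) := by
    rw [map_add, map_add, map_mul, map_sum, map_add, map_one, two, pX, pY]
    simp only [pW]
    rw [key]; norm_num
  have n1 := hφ _ _ key2
  have sw : ∀ n, Ev ρ (FF r) Y0 n = Ev ρ (FF r) X0 n := fun n => by
    rw [hX0, hY0, Ev_JK, Ev_JK]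
    congr 1
    funext m n
    exact R.sw m 0 n
  have n2 := null_bd (c := fun _ => -(1 / 2 : ℝ)) n1 (C := 1) fun n => by norm_num [abs_of_pos]
  refine n2.congr fun n => ?_
  have e2 : Ev ρ (FF r) (2 * ∑ i ∈ S, JK kz (pb (b i)) * JK kw (pb (c i))) n =
      2 * ∑ i ∈ S, Ev ρ (FF r) (JK kz (pb (b i)) * JK kw (pb (c i))) n := by
    have e3 : ∀ T : Finset ι, Ev ρ (FF r) (∑ i ∈ T, JK kz (pb (b i)) * JK kw (pb (c i))) n =
        ∑ i ∈ T, Ev ρ (FF r) (JK kz (pb (b i)) * JK kw (pb (c i))) n := by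
      classical
      intro T
      induction T using Finset.induction_on with
      | empty => rw [Finset.sum_empty, Finset.sum_empty, Ev_zero]
      | insert i T hi ih => rw [Finset.sum_insert hi, Finset.sum_insert hi, Ev_add, ih]
    rw [two_mul, Ev_add, e3]; ring
  have e1 : Ev ρ (FF r) 1 n = FF r (0, 0) n := by rw [← mm_zero, Ev_mm]
  rw [← hX0, Ev_add, Ev_add, Ev_add, e1, sw, e2]
  push_cast
  ring



/-- the identity of the polynomials `U`, `b i`, `c i` -/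
def PolyIdU {ι : Type} (S : Finset ι) (U : Polynomial A) (b c : ι → Polynomial A) : Prop :=
  ∀ (Q : Type) [CommRing Q] [Algebra A Q] (x y s : Q), x + y = -(2 * rr Q * s) →
      x * y = (1 + rr Q ^ 2) * s - 1 → (1 - x ^ 2) * aeval x U ^ 2 + (1 - y ^ 2) * aeval y U ^ 2 +
        2 * ∑ i ∈ S, aeval (4 * (rr Q ^ 2 * s)) (b i) * aeval (4 * s) (c i) = 2

variable {B : Set ℂ} {h κ : ℕ → ℝ} {w v : ℤ → ℕ → ℂ → ℂ} {ρ : ℕ → ℝ}

variable (H : SY B Complex.im h w) (H' : SY B Complex.im κ v) (hBU : B ⊆ UH) {C0 : ℝ}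
  (hC : Cmp h κ C0)

include H H' hBU hC in
/-- **the upper bound** -/
theorem upb (h0 : EX B h w (w 0)) (k0 : EX B κ v (v 0)) {φ : ℂ → ℝ} (hφ : TF B φ)
    (p0 : ∀ z, 0 ≤ φ z) {ι : Type} (S : Finset ι) (U : Polynomial A) (b c : ι → Polynomial A)
    (hid : PolyIdU S U b c) :
    ∃ er : ℕ → ℝ, Tendsto er atTop (𝓝 0) ∧ ∀ n,
      (J4 φ w v (0, 0, 0, 0) n).re ≤ (1 + gs U (ra h κ n)) * (∫ z, φ z) +
        ∑ i ∈ S, (∫ z, φ z * (XL (ra h κ) w (b i) n z * XL (ra h κ) v (c i) n z)) + er n := by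
  have R := rel2 H H' hBU hC h0 k0 hφ
  have m1 := null_rep (main2g R S (wU U) b c (fun Q _ _ x y s h1 h2 => by
    have h3 := hid Q x y s h1 h2
    have e : ∀ t : Q, aeval t (wU U) = (1 - t ^ 2) * aeval t U ^ 2 := fun t => by
      unfold wU
      rw [map_mul, map_sub, map_pow, map_pow, map_one, aeval_X]
    rw [e, e]
    exact h3))
  have m2 := mixo H H' hBU hC h0 k0 hφ U
  have m3 := tendsto_finsetSum S fun i _ => corg H H' hBU hC h0 k0 hφ (b i) (c i)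
  simp only [Finset.sum_const_zero] at m3
  have s4 := (m1.sub m2).sub m3
  simp only [sub_zero] at s4
  refine ⟨_, s4, fun n => ?_⟩
  set I0 : ℝ := ∫ z, φ z with hI0
  have neg := mix_nonpos (ρ := ra h κ) H H' hφ p0 U n
  have f0 : (FF (r5 φ w v) (0, 0) n).re = (J4 φ w v (0, 0, 0, 0) n).re - I0 := by
    have : FF (r5 φ w v) (0, 0) n = ((r5 φ w v 0 0 0 0 n : ℝ) : ℂ) := rfl
    rw [this, ofReal_re]
    simp only [r5, D5]
    have g : G4 (0, 0, 0, 0) = 1 := by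
      show Pool.Agent.W745.RW.CC 0 0 * Pool.Agent.W745.RW.CC 0 0 = 1
      rw [CC_val]; simp [sg]
    rw [g, one_mul, sub_re, ofReal_re]
  simp only [sub_re, Complex.re_sum, f0]
  simp only [Finset.sum_sub_distrib]
  linarith [neg]

/-- the Cauchy-Schwarz inequality -/
lemma csX {B : Set ℂ} (hB : IsOpen B) {φ : ℂ → ℝ} (hφ : TF B φ) (p0 : ∀ z, 0 ≤ φ z) {X Y : ℂ → ℝ}
    (cX : ContinuousOn X B) (cY : ContinuousOn Y B) {a b : ℝ} (hX : (∫ z, φ z * X z ^ 2) ≤ a)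
    (hY : (∫ z, φ z * Y z ^ 2) ≤ b) : ∫ z, φ z * (X z * Y z) ≤ √(a * b) := by
  have h1 := JC.cs hB hφ p0 cX cY
  have hx : 0 ≤ ∫ z, φ z * X z ^ 2 := integral_nonneg fun z => mul_nonneg (p0 z) (sq_nonneg _)
  have hy : 0 ≤ ∫ z, φ z * Y z ^ 2 := integral_nonneg fun z => mul_nonneg (p0 z) (sq_nonneg _)
  have h2 : (∫ z, φ z * (X z * Y z)) ^ 2 ≤ a * b :=
    h1.trans (mul_le_mul hX hY hy (hx.trans hX))
  exact (le_abs_self _).trans (Real.abs_le_sqrt h2)

end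

end Pool.Agent.H25JM
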